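import Pool.Agent.Lib.SE.R.Spec2
import Pool.Agent.Lib.SE.Q.LiR
import Pool.Agent.Lib.HC.L.Lc3

/-!
# PROJECT SE-R: module LiS, the Lie algebra step
-/

set_option autoImplicit false

open Module

noncomputable section

namespace SER

open HC HC.E HC.SE SEB SEQ SE

namespace LiS_aux

open HC.Lc3 (kill)

section E4s

variable {q₁ q : ℕ} {A : AV} {R : Fin q₁ → AV} {J : Fin q → AV} {B : AV}

/-- The commutators. -/
def ComE (h : Set (E4 A R J B)) : Set (E4 A R J B) :=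
  {z | ∃ x ∈ h, ∃ y ∈ h, z = x * y - y * x}

/-- The components at the `R i` and at `B`. -/
def pr (A : AV) (R : Fin q₁ → AV) (J : Fin q → AV) (B : AV) : E4 A R J B →ₗ[ℝ] TB R B where
  toFun x := (x.2.1, x.2.2.2)
  map_add' _ _ := rfl
  map_smul' _ _ := rfl

theorem pr_comm (x y : E4 A R J B) :
    pr A R J B (x * y - y * x) =
      pr A R J B x * pr A R J B y - pr A R J B y * pr A R J B x := rfl

/-- The component at `A`. -/
def p1 (A : AV) (R : Fin q₁ → AV) (J : Fin q → AV) (B : AV) :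
    E4 A R J B →ₗ[ℝ] Module.End ℝ A.V where
  toFun x := x.1
  map_add' _ _ := rfl
  map_smul' _ _ := rfl

/-- The component at `J i`. -/
def p3 (A : AV) (R : Fin q₁ → AV) (J : Fin q → AV) (B : AV) (i : Fin q) :
    E4 A R J B →ₗ[ℝ] Module.End ℝ (J i).V where
  toFun x := x.2.2.1 i
  map_add' _ _ := rfl
  map_smul' _ _ := rfl

/-- The inclusion of the tuples. -/
def in3 (A : AV) (R : Fin q₁ → AV) (J : Fin q → AV) (B : AV) : Tup J →ₗ[ℝ] E4 A R J B where
  toFun x := (0, 0, x, 0)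
  map_add' x y := by
    refine Prod.ext (add_zero _).symm (Prod.ext (add_zero _).symm (Prod.ext rfl (add_zero _).symm))
  map_smul' r x := by
    refine Prod.ext (smul_zero _).symm (Prod.ext (smul_zero _).symm
      (Prod.ext rfl (smul_zero _).symm))

end E4s

end LiS_aux

open LiS_aux in
theorem tLiS : S_LiS := by
  intro hLX hOp hHr hLa hLa' hLb hLc2 hIso A T B q₁ N₁ q N R k m₁ D₁ J j m D ι G ψ hA hLR hψ d c
    hc hS X hX
  obtain ⟨Θ, M, hM⟩ := hOp hHr hLc2 hIso A T B q₁ N₁ q N R k m₁ D₁ J j m D ι G ψ hA hψ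
  obtain ⟨h, hhM, h0, hadd, hsmul, hbr, hJ, hkill⟩ :=
    hLX hLa hLa' hLb T (E4 A R J B) Θ M (mulI A, JT R, JT J, mulI B) hM.lie hM.rat hM.zero
      hM.add hM.smul hM.br hM.iM hM.iT hM.ker d c hc
  -- the image in `Tup R × End B`
  have hh : HLieR D₁ G (pr A R J B '' h) := by
    refine ⟨?_, ?_, ?_, ?_, ?_, ?_, ?_, ?_⟩
    · rintro _ ⟨x, hx, rfl⟩
      exact ⟨fun i => (hM.cR x (hhM hx) i).1, (hM.cB x (hhM hx)).1⟩
    · rintro _ ⟨x, hx, rfl⟩ i
      exact (hM.cR x (hhM hx) i).2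
    · rintro _ ⟨x, hx, rfl⟩
      exact (hM.cB x (hhM hx)).2
    · exact ⟨0, h0, rfl⟩
    · rintro _ ⟨x, hx, rfl⟩ _ ⟨y, hy, rfl⟩
      exact ⟨x + y, hadd x hx y hy, rfl⟩
    · rintro z _ ⟨x, hx, rfl⟩
      exact ⟨(z : ℝ) • x, hsmul z x hx, rfl⟩
    · rintro _ ⟨x, hx, rfl⟩ _ ⟨y, hy, rfl⟩
      exact ⟨x * y - y * x, hbr x hx y hy, pr_comm x y⟩
    · rw [Submodule.span_image]
      exact ⟨_, hJ, rfl⟩
  have h1 := hLR ι G (pr A R J B '' h) hh
  have h2 : Submodule.span ℝ (ComR (pr A R J B '' h)) ≤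
      (Submodule.span ℝ (ComE h)).map (pr A R J B) := by
    rw [← Submodule.span_image]
    refine Submodule.span_mono ?_
    rintro _ ⟨_, ⟨x, hx, rfl⟩, _, ⟨y, hy, rfl⟩, rfl⟩
    exact ⟨x * y - y * x, ⟨x, hx, y, hy, rfl⟩, pr_comm x y⟩
  obtain ⟨W, hW, hWe⟩ := h2 h1
  have hWR : W.2.1 = 0 := congrArg Prod.fst hWe
  have hWB : W.2.2.2 = mulI B := congrArg Prod.snd hWe
  have hWA : W.1 = 0 := by
    have h3 : Submodule.span ℝ (ComE h) ≤ LinearMap.ker (p1 A R J B) := by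
      refine Submodule.span_le.2 ?_
      rintro _ ⟨x, hx, y, hy, rfl⟩
      change x.1 * y.1 - y.1 * x.1 = 0
      rw [hM.com x (hhM hx) y (hhM hy), sub_self]
    exact h3 hW
  have hWJ : ∀ i, W.2.2.1 i ∈ LiR_aux.CL (D i) := by
    intro i
    have h3 : Submodule.span ℝ (ComE h) ≤ (LiR_aux.CL (D i)).comap (p3 A R J B i) := by
      refine Submodule.span_le.2 ?_
      rintro _ ⟨x, hx, y, hy, rfl⟩
      exact Submodule.subset_span
        ⟨x.2.2.1 i, (hM.cJ x (hhM hx) i).2, y.2.2.1 i, (hM.cJ y (hhM hy) i).2, rfl⟩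
    exact h3 hW
  have k1 : Θ W ∈ HC.Lc3.kill c := hkill W hW
  have k2 : ∀ i, LiR_aux.CL (D i) ≤ ((HC.Lc3.kill c).comap (Θ ∘ₗ in3 A R J B)).comap
      (LinearMap.single ℝ (fun i => Module.End ℝ (J i).V) i) := by
    intro i
    refine Submodule.span_le.2 ?_
    rintro _ ⟨P', hP', Q', hQ', rfl⟩
    have h10 : ∀ P' ∈ Lef (J i) (D i).Z (D i).ψ, ∀ k,
        (Pi.single i P' : Tup J) k ∈ Lef (J k) (D k).Z (D k).ψ := by
      intro P' hP' k
      by_cases hk : k = i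
      · subst hk
        rw [Pi.single_eq_same]
        exact hP'
      · rw [Pi.single_eq_of_ne hk]
        exact LiR_aux.zero_lef (D k)
    have h11 := hS (Pi.single i P') (Pi.single i Q') (h10 P' hP') (h10 Q' hQ')
      (Θ (0, 0, Pi.single i P' * Pi.single i Q' - Pi.single i Q' * Pi.single i P', 0))
      (fun v => by rw [hM.app]; rfl)
    change Θ (0, 0, Pi.single i (P' * Q' - Q' * P'), 0) ∈ HC.Lc3.kill c
    rw [LiR_aux.single_mul]
    exact h11
  have k3 : Θ (0, 0, W.2.2.1, 0) ∈ HC.Lc3.kill c := by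
    have h3 : W.2.2.1 ∈ (HC.Lc3.kill c).comap (Θ ∘ₗ in3 A R J B) := by
      rw [← Finset.univ_sum_single W.2.2.1]
      exact Submodule.sum_mem _ fun i _ => k2 i (hWJ i)
    exact h3
  have k4 : X = Θ W - Θ (0, 0, W.2.2.1, 0) := by
    refine LinearMap.ext fun v => ψ.injective ?_
    rw [← map_sub, hM.app, hX v]
    refine Prod.ext (Prod.ext (Prod.ext ?_ (funext fun n => ?_)) (funext fun n => ?_)) ?_
    · change 0 = (W.1 - 0) (ψ v).1.1.1
      rw [hWA, sub_zero, LinearMap.zero_apply]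
    · change 0 = (W.2.1 (k n) - 0) ((ψ v).1.1.2 n)
      rw [hWR, sub_zero]
      rfl
    · change 0 = (W.2.2.1 (j n) - W.2.2.1 (j n)) ((ψ v).1.2 n)
      rw [sub_self, LinearMap.zero_apply]
    · change Complex.I • (ψ v).2 = (W.2.2.2 - 0) (ψ v).2
      rw [hWB, sub_zero]
      rfl
  have k5 : X ∈ HC.Lc3.kill c := by
    rw [k4]
    exact Submodule.sub_mem _ k1 k3
  exact k5

end SER
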