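import Pool.Agent.Lib.SE.R.Spec2
import Pool.Agent.Lib.SE.W.Lie

/-!
# PROJECT SE-R: splitting of the factors (helper82)
-/

set_option autoImplicit false

open Module

noncomputable section

namespace SER

open HC HC.E HC.SE SEB SEQ SE

namespace Spl_aux

open Classical in
/-- the enumeration of the two classes of factors -/
def en {N : ℕ} (p : Fin N → Prop) :
    Fin (Fintype.card {n // p n}) ⊕ Fin (Fintype.card {n // ¬ p n}) ≃ Fin N :=
  (Equiv.sumCongr (Fintype.equivFin {n // p n}).symm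
    (Fintype.equivFin {n // ¬ p n}).symm).trans (Equiv.sumCompl p)

open Classical in
theorem en_inl {N : ℕ} (p : Fin N → Prop) (i : Fin (Fintype.card {n // p n})) :
    p (en p (Sum.inl i)) := ((Fintype.equivFin {n // p n}).symm i).2

open Classical in
theorem en_inr {N : ℕ} (p : Fin N → Prop) (i : Fin (Fintype.card {n // ¬ p n})) :
    ¬ p (en p (Sum.inr i)) := ((Fintype.equivFin {n // ¬ p n}).symm i).2

/-- splitting of a product -/
def spl {N N₁ N₂ : ℕ} (G : Fin N → AV) (e : Fin N₁ ⊕ Fin N₂ ≃ Fin N) :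
    (∀ n, (G n).V) ≃ₗ[ℂ] (∀ i, (G (e (Sum.inl i))).V) × (∀ i, (G (e (Sum.inr i))).V) :=
  (LinearEquiv.piCongrLeft ℂ (fun n => (G n).V) e).symm ≪≫ₗ
    LinearEquiv.sumPiEquivProdPi ℂ (Fin N₁) (Fin N₂) (fun s => (G (e s)).V)

theorem spl_fst {N N₁ N₂ : ℕ} (G : Fin N → AV) (e : Fin N₁ ⊕ Fin N₂ ≃ Fin N)
    (x : ∀ n, (G n).V) (i : Fin N₁) : (spl G e x).1 i = x (e (Sum.inl i)) := rfl

theorem spl_snd {N N₁ N₂ : ℕ} (G : Fin N → AV) (e : Fin N₁ ⊕ Fin N₂ ≃ Fin N)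
    (x : ∀ n, (G n).V) (i : Fin N₂) : (spl G e x).2 i = x (e (Sum.inr i)) := rfl

end Spl_aux

open Spl_aux Classical in
theorem tSpl : S_Spl := by
  intro P₁ P₂ A B N G hG hB
  obtain ⟨ψ, hψ⟩ := hB
  let e := en (fun n => P₁ (G n))
  obtain ⟨Y, θ, hθ⟩ := Lie_aux.prodE _ A (fun i => G (e (Sum.inl i)))
  refine ⟨Y, _, _, fun i => G (e (Sum.inl i)), fun i => G (e (Sum.inr i)), ?_, ?_, ?_, ?_⟩
  · intro i
    exact en_inl (fun n => P₁ (G n)) i
  · intro i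
    exact (hG _).resolve_left (en_inr (fun n => P₁ (G n)) i)
  · refine ⟨θ, fun v hv => ⟨1, one_ne_zero, ?_, fun i => ?_⟩⟩
    · rw [one_smul]
      exact ((hθ v).1 hv).1
    · rw [one_smul]
      exact ((hθ v).1 hv).2 i
  · let Φ : B.V ≃ₗ[ℂ] Y.V × (∀ i, (G (e (Sum.inr i))).V) :=
      ψ ≪≫ₗ (LinearEquiv.prodCongr (LinearEquiv.refl ℂ A.V) (spl G e)) ≪≫ₗ
        (LinearEquiv.prodAssoc ℂ _ _ _).symm ≪≫ₗ
        (LinearEquiv.prodCongr θ.symm (LinearEquiv.refl ℂ _))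
    have h1 : ∀ v, (Φ v).1 = θ.symm ((ψ v).1, fun i => (ψ v).2 (e (Sum.inl i))) := fun v => rfl
    have h2 : ∀ v i, (Φ v).2 i = (ψ v).2 (e (Sum.inr i)) := fun v i => rfl
    refine ⟨Φ, fun v hv => ?_⟩
    obtain ⟨M, hM, h3, h4⟩ := hψ v hv
    refine ⟨M, hM, ?_, fun i => ?_⟩
    · rw [h1, ← map_nsmul θ.symm, hθ, LinearEquiv.apply_symm_apply]
      exact ⟨h3, fun i => h4 _⟩
    · rw [h2]
      exact h4 _

end SER
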