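import Pool.Agent.Lib.SE.R.Spec2
import Pool.Agent.Lib.SE.Big.Hl
import Pool.Agent.Lib.HC.L.Lc1

/-!
# PROJECT SE-R, module Hr: `i` is a real combination of rational elements of `u_E` (helper94)
-/

set_option autoImplicit false

open Module

noncomputable section

namespace SER

open HC HC.E HC.SE SEB SEQ SE

namespace Hr_aux

variable {T : AV}

theorem rat_mul {X Y : Module.End ℝ T.V} (hX : RatEnd T X) (hY : RatEnd T Y) :
    RatEnd T (X * Y) := by
  intro v hv
  obtain ⟨N, hN, h1⟩ := hY v hv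
  obtain ⟨M, hM, h2⟩ := hX _ h1
  refine ⟨M * N, Nat.mul_ne_zero hM hN, ?_⟩
  have h3 : (M * N) • (X * Y) v = M • X (N • Y v) := by
    rw [map_nsmul, mul_smul]
    rfl
  rw [h3]
  exact h2

theorem rat_sub {X Y : Module.End ℝ T.V} (hX : RatEnd T X) (hY : RatEnd T Y) :
    RatEnd T (X - Y) := by
  intro v hv
  obtain ⟨N, hN, h1⟩ := hX v hv
  obtain ⟨M, hM, h2⟩ := hY v hv
  refine ⟨M * N, Nat.mul_ne_zero hM hN, ?_⟩
  have h3 : (M * N) • (X - Y) v = M • (N • X v) - N • (M • Y v) := by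
    rw [LinearMap.sub_apply, smul_sub, mul_smul, mul_comm M N, mul_smul]
  rw [h3]
  exact T.L.sub_mem (T.L.smul_of_tower_mem M h1) (T.L.smul_of_tower_mem N h2)

end Hr_aux

open Hr_aux in
theorem tHr : S_Hr := by
  intro T m D
  obtain ⟨h, hh, -⟩ := tHl T m D {X | RatEnd T X} (fun X hX => hX)
    (fun X hX Y hY => rat_sub (rat_mul hX hY) (rat_mul hY hX)) (HC.L.tLc1 T)
  refine Submodule.span_mono ?_ hh.J
  intro X hX
  exact ⟨hh.rat X hX, hh.u X hX⟩

end SER
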