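import Pool.Agent.Lib.SE.R.Spec2
import Pool.Agent.Lib.HC.L.Le

/-!
# PROJECT SE-R, module KuR: the Kuenneth formula for a class `Q`
-/

set_option autoImplicit false

open Module

noncomputable section

namespace SER

open HC HC.E HC.SE SEB SEQ SE HC.L

namespace KuR_aux

variable {Q : (T : AV) → (m : ℕ) → Hlg T m → Prop}

theorem q_zero (hQ : Cl Q) {T : AV} {m : ℕ} : Q T m 0 := hQ.base Alg.zero

theorem q_sum (hQ : Cl Q) {T : AV} {m : ℕ} {κ : Type} {s : Finset κ} {f : κ → Hlg T m}
    (h : ∀ i ∈ s, Q T m (f i)) : Q T m (∑ i ∈ s, f i) := by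
  classical
  induction s using Finset.induction_on with
  | empty =>
    rw [Finset.sum_empty]
    exact q_zero hQ
  | insert i s hi ih =>
    rw [Finset.sum_insert hi]
    exact hQ.add (h i (Finset.mem_insert_self i s))
      (ih fun k hk => h k (Finset.mem_insert_of_mem hk))

theorem q_of_smul (hQ : Cl Q) {T : AV} {m : ℕ} {c : Hlg T m} {x : ℂ} (hx : x ≠ 0)
    (h : Q T m (x • c)) : Q T m c := by
  have h1 := hQ.smul x⁻¹ h
  rw [smul_smul, inv_mul_cancel₀ hx, one_smul] at h1
  exact h1

theorem q_domDomCongr (hQ : Cl Q) {T : AV} {n m : ℕ} {c : Hlg T n} (hc : Q T n c)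
    (e : Fin n ≃ Fin m) : Q T m (c.domDomCongr e) := by
  have hnm : n = m := by simpa using Fintype.card_congr e
  subst hnm
  rw [AlternatingMap.domDomCongr_perm]
  rcases Int.units_eq_one_or (Equiv.Perm.sign e) with h | h <;> rw [h]
  · rwa [one_smul]
  · rw [Units.neg_smul, one_smul]
    have h1 := hQ.smul (-1) hc
    rwa [neg_smul, one_smul] at h1

/-- The operator `(X, 0)`. -/
def ext0 {A B : AV} (P : Pd A B) (X : Module.End ℝ A.V) : Module.End ℝ P.T.V :=
  ((iA P).restrictScalars ℝ) ∘ₗ X ∘ₗ ((pA P).restrictScalars ℝ)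

theorem psi_ext0 {A B : AV} (P : Pd A B) (X : Module.End ℝ A.V) (v : P.T.V) :
    P.ψ (ext0 P X v) = (X (P.ψ v).1, 0) := by
  show P.ψ (P.ψ.symm (X (P.ψ v).1, 0)) = _
  rw [LinearEquiv.apply_symm_apply]

theorem kill_fix {A B : AV} (P : Pd A B) {m p q : ℕ} (c : Hlg P.T m) (X : Module.End ℝ A.V)
    (hX : ∀ X' : Module.End ℝ P.T.V, (∀ v, P.ψ (X' v) = (X (P.ψ v).1, 0)) →
      ∀ a, lieAct X' c a = 0) (e : Fin p ⊕ Fin q ≃ Fin m) (a : Fin p → (A.V →ₗ[ℝ] ℂ))
    (b : Fin q → (B.V →ₗ[ℝ] ℂ)) :
    lieAct (T := A) X ((fixR (c.domDomCongr e.symm) fun j => pull (pB P) (b j)).compLinearMap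
      (pull (pA P))) a = 0 := by
  classical
  have h1 := hX (ext0 P X) (psi_ext0 P X) fun i => Sum.elim (fun i => pull (pA P) (a i))
    (fun j => pull (pB P) (b j)) (e.symm i)
  rw [← h1]
  unfold lieAct
  rw [← e.sum_comp, Fintype.sum_sum_type]
  have h2 : ∀ j : Fin q, c (Function.update (fun i => Sum.elim (fun i => pull (pA P) (a i))
      (fun j => pull (pB P) (b j)) (e.symm i)) (e (Sum.inr j))
      (Sum.elim (fun i => pull (pA P) (a i)) (fun j => pull (pB P) (b j))
        (e.symm (e (Sum.inr j))) ∘ₗ ext0 P X)) = 0 := by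
    intro j
    have h3 : Sum.elim (fun i => pull (pA P) (a i)) (fun j => pull (pB P) (b j))
        (e.symm (e (Sum.inr j))) ∘ₗ ext0 P X = 0 := by
      rw [Equiv.symm_apply_apply]
      refine LinearMap.ext fun v => ?_
      show b j (P.ψ (ext0 P X v)).2 = 0
      rw [psi_ext0, map_zero]
    rw [h3]
    exact c.map_update_zero _ _
  rw [Finset.sum_congr rfl fun j _ => h2 j, Finset.sum_const_zero, add_zero]
  refine Finset.sum_congr rfl fun i _ => ?_
  show c _ = c _
  refine congrArg c (funext fun l => ?_)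
  obtain ⟨l, rfl⟩ := e.surjective l
  show Sum.elim (fun i' => pull (pA P) (Function.update a i (a i ∘ₗ X) i'))
    (fun j => pull (pB P) (b j)) (e.symm (e l)) = _
  rw [Equiv.symm_apply_apply]
  rcases l with l | l
  · by_cases hl : l = i
    · subst hl
      rw [Function.update_self, Sum.elim_inl, Function.update_self]
      show pull (pA P) (a l ∘ₗ X) = (Sum.elim (fun i => pull (pA P) (a i))
        (fun j => pull (pB P) (b j)) (e.symm (e (Sum.inl l)))) ∘ₗ ext0 P X
      rw [Equiv.symm_apply_apply, Sum.elim_inl]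
      refine LinearMap.ext fun v => ?_
      show a l (X (P.ψ v).1) = a l (P.ψ (ext0 P X v)).1
      rw [psi_ext0]
    · have h4 : e (Sum.inl l) ≠ e (Sum.inl i) := fun h => hl (Sum.inl_injective (e.injective h))
      rw [Function.update_of_ne h4, Equiv.symm_apply_apply, Sum.elim_inl, Sum.elim_inl,
        Function.update_of_ne hl]
  · have h4 : e (Sum.inr l) ≠ e (Sum.inl i) := fun h => by
      have := e.injective h
      cases this
    rw [Function.update_of_ne h4, Equiv.symm_apply_apply, Sum.elim_inr, Sum.elim_inr]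

end KuR_aux

open KuR_aux in
theorem tKuR : S_KuR := by
  intro Q hQ A B P 𝒳 m c hc hinv hX hA hB
  obtain ⟨I, _, bA, hbA⟩ := exists_ratBasis A
  obtain ⟨J, _, bB, hbB⟩ := exists_ratBasis B
  classical
  have hinv' : ∀ u w : ℂ, ‖u‖ = 1 → ‖w‖ = 1 → push (T' := P.T) (muw P u w) c = c := fun u w hu hw =>
    hinv u w hu hw _ fun v => ψ_muw P u w v
  -- rationality
  have hratA : ∀ a : A.V →ₗ[ℝ] ℂ, (∀ v ∈ A.L, ∃ x : ℚ, a v = x) →
      ∀ v ∈ P.T.L, ∃ x : ℚ, pull (pA P) a v = x := fun a ha v hv => ha _ ((P.lat v).1 hv).1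
  have hratB : ∀ a : B.V →ₗ[ℝ] ℂ, (∀ v ∈ B.L, ∃ x : ℚ, a v = x) →
      ∀ v ∈ P.T.L, ∃ x : ℚ, pull (pB P) a v = x := fun a ha v hv => ha _ ((P.lat v).1 hv).2
  -- one piece
  have piece : ∀ (p q : ℕ) (e : Fin p ⊕ Fin q ≃ Fin m), Q P.T m ((MultilinearMap.alternatization
      ((c.domDomCongr e.symm).toMultilinearMap.compLinearMap (Sum.elim
        (fun _ => pull (pA P) ∘ₗ pull (iA P)) (fun _ => pull (pB P) ∘ₗ pull (iB P))))).domDomCongr
          e) := by
    intro p q e
    obtain ⟨G, hG⟩ := tensor_decomp (c.domDomCongr e.symm) (pull (pA P)) (pull (pB P)) bA bB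
    let hR : (Fin q → J) → Hlg A p := fun R =>
      (fixR (c.domDomCongr e.symm) fun j => pull (pB P) (bB (R j))).compLinearMap (pull (pA P))
    let dS : (Fin p → I) → Hlg B q := fun S =>
      (fixL (c.domDomCongr e.symm) fun i => pull (pA P) (bA (S i))).compLinearMap (pull (pB P))
    have hR1 : ∀ R, Q A p (hR R) := by
      intro R
      refine hA p _ ⟨fun a ha => ?_, fun u hu => ?_⟩ (fun X hXX a => kill_fix P c X
        (hX X hXX) e a fun j => bB (R j))
      · show ∃ x : ℚ, c (fun i => Sum.elim (fun i => pull (pA P) (a i))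
          (fun j => pull (pB P) (bB (R j))) (e.symm i)) = x
        refine hc.1 _ fun i => ?_
        rcases e.symm i with j | j
        · exact hratA _ (ha j)
        · exact hratB _ (hbB (R j))
      · ext a
        show c (fun i => Sum.elim (fun i => pull (pA P) (pull (u • LinearMap.id) (a i)))
          (fun j => pull (pB P) (bB (R j))) (e.symm i)) =
          c (fun i => Sum.elim (fun i => pull (pA P) (a i))
            (fun j => pull (pB P) (bB (R j))) (e.symm i))
        conv_rhs => rw [← hinv' u 1 hu norm_one, push_apply]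
        congr 1
        funext i
        rcases e.symm i with j | j
        · refine LinearMap.ext fun v => ?_
          show a j (u • (P.ψ v).1) = a j (P.ψ (muw P u 1 v)).1
          rw [ψ_muw]
        · refine LinearMap.ext fun v => ?_
          show bB (R j) (P.ψ v).2 = bB (R j) (P.ψ (muw P u 1 v)).2
          rw [ψ_muw, one_smul]
    have dS1 : ∀ S, Q B q (dS S) := by
      intro S
      refine hB q _ ⟨fun a ha => ?_, fun u hu => ?_⟩
      · show ∃ x : ℚ, c (fun i => Sum.elim (fun i => pull (pA P) (bA (S i)))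
          (fun j => pull (pB P) (a j)) (e.symm i)) = x
        refine hc.1 _ fun i => ?_
        rcases e.symm i with j | j
        · exact hratA _ (hbA (S j))
        · exact hratB _ (ha j)
      · ext a
        show c (fun i => Sum.elim (fun i => pull (pA P) (bA (S i)))
          (fun j => pull (pB P) (pull (u • LinearMap.id) (a j))) (e.symm i)) =
          c (fun i => Sum.elim (fun i => pull (pA P) (bA (S i)))
            (fun j => pull (pB P) (a j)) (e.symm i))
        conv_rhs => rw [← hinv' 1 u norm_one hu, push_apply]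
        congr 1
        funext i
        rcases e.symm i with j | j
        · refine LinearMap.ext fun v => ?_
          show bA (S j) (P.ψ v).1 = bA (S j) (P.ψ (muw P 1 u v)).1
          rw [ψ_muw, one_smul]
        · refine LinearMap.ext fun v => ?_
          show a j (u • (P.ψ v).2) = a j (P.ψ (muw P 1 u v)).2
          rw [ψ_muw]
    -- the multilinear map is a sum of products
    have hN : (c.domDomCongr e.symm).toMultilinearMap.compLinearMap (Sum.elim
        (fun _ => pull (pA P) ∘ₗ pull (iA P)) (fun _ => pull (pB P) ∘ₗ pull (iB P))) =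
        ∑ R, ∑ S, G R S • (LinearMap.mul' ℂ ℂ).compMultilinearMap
          (MultilinearMap.domCoprod (push (T' := P.T) (iA P) (hR R)).toMultilinearMap
            (push (T' := P.T) (iB P) (dS S)).toMultilinearMap) := by
      ext v
      simp only [MultilinearMap.sum_apply, MultilinearMap.smul_apply]
      have e1 : ((c.domDomCongr e.symm).toMultilinearMap.compLinearMap (Sum.elim
        (fun _ => pull (pA P) ∘ₗ pull (iA P)) (fun _ => pull (pB P) ∘ₗ pull (iB P)))) v =
          (c.domDomCongr e.symm) (Sum.elim (fun i => pull (pA P) (pull (iA P) (v (Sum.inl i))))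
            (fun j => pull (pB P) (pull (iB P) (v (Sum.inr j))))) := by
        rw [MultilinearMap.compLinearMap_apply]
        show (c.domDomCongr e.symm) _ = _
        congr 1
        funext i
        rcases i with i | i <;> rfl
      rw [e1, hG]
      refine Finset.sum_congr rfl fun R _ => Finset.sum_congr rfl fun S _ => ?_
      rw [smul_eq_mul]
      congr 1
    rw [hN]
    simp only [map_sum]
    have hsum : ∀ (f : (Fin q → J) → (Fin p → I) → (P.T.V →ₗ[ℝ] ℂ) [⋀^Fin p ⊕ Fin q]→ₗ[ℂ] ℂ),
        (∀ R S, Q P.T m ((f R S).domDomCongr e)) →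
          Q P.T m ((∑ R, ∑ S, f R S).domDomCongr e) := by
      intro f hf
      have h1 : (∑ R, ∑ S, f R S).domDomCongr e = ∑ R, ∑ S, (f R S).domDomCongr e := by
        ext a
        simp only [AlternatingMap.domDomCongr_apply, alt_sum_apply]
      rw [h1]
      exact q_sum hQ fun R _ => q_sum hQ fun S _ => hf R S
    refine hsum _ fun R S => ?_
    have h2 : MultilinearMap.alternatization (G R S • (LinearMap.mul' ℂ ℂ).compMultilinearMap
          (MultilinearMap.domCoprod (push (T' := P.T) (iA P) (hR R)).toMultilinearMap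
            (push (T' := P.T) (iB P) (dS S)).toMultilinearMap)) =
        (G R S * ((p.factorial * q.factorial : ℕ) : ℂ)) •
          (pont (push (T' := P.T) (iA P) (hR R)) (push (T' := P.T) (iB P) (dS S))).domDomCongr
            finSumFinEquiv.symm := by
      have h3 := LinearMap.compMultilinearMap_alternatization (LinearMap.mul' ℂ ℂ)
        (MultilinearMap.domCoprod (push (T' := P.T) (iA P) (hR R)).toMultilinearMap
            (push (T' := P.T) (iB P) (dS S)).toMultilinearMap)
      have h4 := MultilinearMap.domCoprod_alternization_eq (push (T' := P.T) (iA P) (hR R))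
        (push (T' := P.T) (iB P) (dS S))
      rw [h4] at h3
      rw [alternatization_smul', h3, Fintype.card_fin, Fintype.card_fin]
      ext a
      rw [AlternatingMap.smul_apply, AlternatingMap.smul_apply,
        LinearMap.compAlternatingMap_apply, AlternatingMap.smul_apply, map_nsmul,
        AlternatingMap.domDomCongr_apply, pont, AlternatingMap.domDomCongr_apply,
        LinearMap.compAlternatingMap_apply, smul_eq_mul, smul_eq_mul, nsmul_eq_mul, mul_assoc]
      simp only [Function.comp_def, Equiv.symm_apply_apply]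
    rw [h2]
    have h5 : ((G R S * ((p.factorial * q.factorial : ℕ) : ℂ)) •
          (pont (push (T' := P.T) (iA P) (hR R)) (push (T' := P.T) (iB P) (dS S))).domDomCongr
            finSumFinEquiv.symm).domDomCongr e = (G R S * ((p.factorial * q.factorial : ℕ) : ℂ)) •
          (pont (push (T' := P.T) (iA P) (hR R)) (push (T' := P.T) (iB P) (dS S))).domDomCongr
            (finSumFinEquiv.symm.trans e) := by
      ext a; rfl
    rw [h5]
    refine hQ.smul _ (q_domDomCongr hQ (hQ.pont ?_ ?_) _)
    · exact hQ.push _ (fun x hx => iA_mem P hx) (hR1 R)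
    · exact hQ.push _ (fun x hx => iB_mem P hx) (dS1 S)
  -- the sum of the pieces
  have hQQ : ∀ a : P.T.V →ₗ[ℝ] ℂ, (pull (pA P) ∘ₗ pull (iA P)) a + (pull (pB P) ∘ₗ pull (iB P)) a =
      a := by
    intro a
    refine LinearMap.ext fun v => ?_
    show a (iA P (pA P v)) + a (iB P (pB P v)) = a v
    rw [← map_add, iA_add_iB]
  have hfin := factorial_smul_eq c _ _ hQQ
  refine q_of_smul hQ (x := (m.factorial : ℂ)) (Nat.cast_ne_zero.2 (Nat.factorial_ne_zero m)) ?_
  rw [hfin]
  refine q_sum hQ fun X _ => ?_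
  obtain ⟨p, q, e, he1, he2⟩ : ∃ (p q : ℕ) (e : Fin p ⊕ Fin q ≃ Fin m),
      (∀ i, e (Sum.inl i) ∈ X) ∧ ∀ j, e (Sum.inr j) ∉ X := by
    refine ⟨Fintype.card {i // i ∈ X}, Fintype.card {i // ¬ i ∈ X},
      (Equiv.sumCongr (Fintype.equivFin {i // i ∈ X}).symm
        (Fintype.equivFin {i // ¬ i ∈ X}).symm).trans (Equiv.sumCompl fun i => i ∈ X), ?_, ?_⟩
    · intro i
      exact ((Fintype.equivFin {i // i ∈ X}).symm i).2
    · intro j
      exact ((Fintype.equivFin {i // ¬ i ∈ X}).symm j).2
  have h6 : (c.toMultilinearMap.compLinearMap fun i => if i ∈ X then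
      pull (pA P) ∘ₗ pull (iA P) else pull (pB P) ∘ₗ pull (iB P)) =
      ((c.domDomCongr e.symm).toMultilinearMap.compLinearMap (Sum.elim
        (fun _ => pull (pA P) ∘ₗ pull (iA P))
        (fun _ => pull (pB P) ∘ₗ pull (iB P)))).domDomCongr e := by
    ext v
    rw [MultilinearMap.compLinearMap_apply, MultilinearMap.domDomCongr_apply,
      MultilinearMap.compLinearMap_apply]
    show c _ = c _
    congr 1
    funext i
    obtain ⟨k, rfl⟩ := e.surjective i
    show _ = (Sum.elim (fun _ => pull (pA P) ∘ₗ pull (iA P))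
      (fun _ => pull (pB P) ∘ₗ pull (iB P)) (e.symm (e k))) (v (e (e.symm (e k))))
    rw [Equiv.symm_apply_apply]
    rcases k with k | k
    · rw [if_pos (he1 k)]; rfl
    · rw [if_neg (he2 k)]; rfl
  rw [h6, alt_domDomCongr]
  exact piece p q e

end SER
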