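import Pool.Agent.Lib.SE.R.Spec
import Pool.Agent.Lib.SE.Big.Cl

/-!
# PROJECT SE-R, module ClR: closure of the complex span of the commutators (helper9)
-/

set_option autoImplicit false

open Module

noncomputable section

namespace SER

open HC HC.E HC.SE SEB SEQ

namespace ClR_aux

variable {q : ℕ} {T : Fin q → AV} {B : AV}

theorem pr_mul (X Y : TB T B) : preR X * preR Y = preR (Y * X) := rfl

theorem pr_sub (X Y : TB T B) : preR X - preR Y = preR (X - Y) :=
  Prod.ext (funext fun i => Cl_aux.pre_sub (X.1 i) (Y.1 i)) (Cl_aux.pre_sub X.2 Y.2)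

theorem pr_add (X Y : TB T B) : preR (X + Y) = preR X + preR Y :=
  Prod.ext (funext fun i => Cl_aux.pre_add (X.1 i) (Y.1 i)) (Cl_aux.pre_add X.2 Y.2)

theorem pr_zero : preR (0 : TB T B) = 0 :=
  Prod.ext (funext fun _ => Cl_aux.pre_zero) Cl_aux.pre_zero

theorem pr_smul (c : ℝ) (X : TB T B) : preR (c • X) = (c : ℂ) • preR X :=
  Prod.ext (funext fun i => Cl_aux.pre_smul c (X.1 i)) (Cl_aux.pre_smul c X.2)

theorem mulI_sq (S : AV) : mulI S * mulI S = -1 := by
  ext v
  change Complex.I • (Complex.I • v) = -v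
  rw [smul_smul, Complex.I_mul_I, neg_one_smul]

theorem J_sq : preR ((JT T, mulI B) : TB T B) * preR (JT T, mulI B) = -1 := by
  have h1 : ((JT T, mulI B) : TB T B) * (JT T, mulI B) = -1 :=
    Prod.ext (funext fun i => mulI_sq (T i)) (mulI_sq B)
  rw [pr_mul, h1]
  have h2 : preR (-1 : TB T B) = -preR (1 : TB T B) := by
    have h3 := pr_sub (0 : TB T B) 1
    rw [pr_zero, zero_sub, zero_sub] at h3
    exact h3.symm
  rw [h2]
  rfl

/-- Commutators with an operator `P`, from generators. -/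
theorem br_gg {h : Set (TB T B)} (P : CB T B)
    (hP : ∀ Y ∈ ComR h, P * preR Y - preR Y * P ∈ ggR h) {A : CB T B}
    (hA : A ∈ ggR h) : P * A - A * P ∈ ggR h := by
  refine Submodule.span_induction (p := fun A _ => P * A - A * P ∈ ggR h) ?_ ?_ ?_ ?_ hA
  · rintro _ ⟨Y, hY, rfl⟩
    exact hP Y hY
  · rw [mul_zero, zero_mul, sub_zero]
    exact zero_mem _
  · intro A B _ _ h1 h2
    have h3 : P * (A + B) - (A + B) * P = P * A - A * P + (P * B - B * P) := by
      rw [mul_add, add_mul]
      abel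
    rw [h3]
    exact add_mem h1 h2
  · intro c A _ h1
    have h3 : P * (c • A) - (c • A) * P = c • (P * A - A * P) := by
      rw [mul_smul_comm, smul_mul_assoc, smul_sub]
    rw [h3]
    exact Submodule.smul_mem _ _ h1

theorem com_sub {h : Set (TB T B)} (hl : ∀ X ∈ h, ∀ Y ∈ h, X * Y - Y * X ∈ h)
    {Y : TB T B} (hY : Y ∈ ComR h) : Y ∈ h := by
  obtain ⟨X, hX, X', hX', rfl⟩ := hY
  exact hl X hX X' hX'

/-- `[preR X, A] ∈ ggR h` for `X ∈ h`. -/
theorem br_h {h : Set (TB T B)} (hl : ∀ X ∈ h, ∀ Y ∈ h, X * Y - Y * X ∈ h)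
    {X : TB T B} (hX : X ∈ h) {A : CB T B} (hA : A ∈ ggR h) :
    preR X * A - A * preR X ∈ ggR h := by
  refine br_gg (preR X) (fun Y hY => ?_) hA
  rw [pr_mul, pr_mul, pr_sub]
  exact Submodule.subset_span ⟨_, ⟨Y, com_sub hl hY, X, hX, rfl⟩, rfl⟩

/-- The same for the real span. -/
theorem br_span {h : Set (TB T B)} (hl : ∀ X ∈ h, ∀ Y ∈ h, X * Y - Y * X ∈ h)
    {X : TB T B} (hX : X ∈ Submodule.span ℝ h) {A : CB T B}
    (hA : A ∈ ggR h) : preR X * A - A * preR X ∈ ggR h := by
  refine Submodule.span_induction (p := fun X _ => preR X * A - A * preR X ∈ ggR h)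
    ?_ ?_ ?_ ?_ hX
  · intro X hX
    exact br_h hl hX hA
  · rw [pr_zero, mul_zero, zero_mul, sub_zero]
    exact zero_mem _
  · intro X Y _ _ h1 h2
    have h3 : preR (X + Y) * A - A * preR (X + Y) =
        preR X * A - A * preR X + (preR Y * A - A * preR Y) := by
      rw [pr_add, mul_add, add_mul]
      abel
    rw [h3]
    exact add_mem h1 h2
  · intro c X _ h1
    have h3 : preR (c • X) * A - A * preR (c • X) = (c : ℂ) • (preR X * A - A * preR X) := by
      rw [pr_smul, mul_smul_comm, smul_mul_assoc, smul_sub]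
    rw [h3]
    exact Submodule.smul_mem _ _ h1

/-- `C - J C J` from the double commutator. -/
theorem jcj {R : Type} [Ring R] [Algebra ℂ R] (J C : R) (hJ : J * J = -1) : C - J * C * J =
    (2 : ℂ) • C + (1 / 2 : ℂ) • (J * (J * C - C * J) - (J * C - C * J) * J) := by
  have h1 : J * (J * C - C * J) - (J * C - C * J) * J = (-2 : ℂ) • C + (-2 : ℂ) • (J * C * J) := by
    have h2 : J * (J * C - C * J) - (J * C - C * J) * J =
        (J * J) * C - J * C * J - J * C * J + C * (J * J) := by
      rw [mul_sub, sub_mul, ← mul_assoc J J C, ← mul_assoc J C J, mul_assoc C J J]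
      abel
    rw [h2, hJ, neg_one_mul, mul_neg_one]
    module
  rw [h1]
  module

end ClR_aux

open ClR_aux in
theorem tClR : S_ClR := by
  intro q T m D B ι G h hh
  have hl := hh.br
  have h2 : ∀ C ∈ ggR h, preR ((JT T, mulI B) : TB T B) * C - C * preR (JT T, mulI B) ∈ ggR h :=
    fun C hC => br_span hl hh.J hC
  refine ⟨?_, h2, ?_, ?_⟩
  · intro A hA C hC
    have h1 : C * A - A * C ∈ ggR h := by
      refine br_gg C (fun Y hY => ?_) hA
      have h2 := br_h hl (com_sub hl hY) hC
      have h3 : C * preR Y - preR Y * C = -(preR Y * C - C * preR Y) := by abel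
      rw [h3]
      exact neg_mem h2
    have h3 : A * C - C * A = -(C * A - A * C) := by abel
    rw [h3]
    exact neg_mem h1
  · intro C hC
    rw [jcj _ C J_sq]
    exact add_mem (Submodule.smul_mem _ _ hC) (Submodule.smul_mem _ _ (h2 _ (h2 C hC)))
  · intro Y hY
    refine Submodule.span_induction (p := fun Y _ => preR Y ∈ ggR h) ?_ ?_ ?_ ?_ hY
    · intro Y hY
      exact Submodule.subset_span ⟨Y, hY, rfl⟩
    · rw [pr_zero]
      exact zero_mem _
    · intro X Y _ _ h1 h2
      rw [pr_add]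
      exact add_mem h1 h2
    · intro c X _ h1
      rw [pr_smul]
      exact Submodule.smul_mem _ _ h1

end SER
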