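import Pool.Agent.Lib.SE.R.Spec

/-!
# SE-R, module Cmt
-/

set_option autoImplicit false

open Module
open scoped ComplexConjugate

noncomputable section

namespace SER

open HC HC.E HC.SE SEB SEQ

namespace Cmt_aux

/-- The linear map `C ↦ C - J C J`. -/
def phi {W : Type} [AddCommGroup W] [Module ℂ W] (J : Module.End ℂ W) :
    Module.End ℂ W →ₗ[ℂ] Module.End ℂ W where
  toFun C := C - J * C * J
  map_add' C D := by
    rw [mul_add, add_mul]
    abel
  map_smul' c C := by
    simp only [RingHom.id_apply, smul_sub]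
    rw [mul_smul_comm, smul_mul_assoc]

/-- The real endomorphism `Y - I Y I`. -/
def dl {B : AV} (Y : Module.End ℝ B.V) : Module.End ℝ B.V := Y - mulI B * Y * mulI B

theorem mulI_apply {B : AV} (v : B.V) : mulI B v = Complex.I • v := rfl

theorem dl_apply {B : AV} {ι : Type} (ψ : B.V ≃ₗ[ℂ] (ι → ℂ)) {Y : Module.End ℝ B.V}
    {α : ι → ℝ} {β : ι → ℂ} (h : IsOp ψ Y α β) (v : B.V) (i : ι) :
    ψ (dl Y v) i = 2 * α i * Complex.I * ψ v i := by
  have e : dl Y v = Y v - Complex.I • Y (Complex.I • v) := by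
    simp only [dl, LinearMap.sub_apply, Module.End.mul_apply, mulI_apply]
  rw [e, map_sub, map_smul, Pi.sub_apply, Pi.smul_apply, h v i, h (Complex.I • v) i, map_smul,
    Pi.smul_apply]
  simp only [smul_eq_mul, map_mul, Complex.conj_I]
  linear_combination (-(α i * Complex.I * ψ v i) + β i * conj (ψ v i)) * Complex.I_mul_I

theorem phi_pre {B : AV} (Y : Module.End ℝ B.V) :
    phi (pre (mulI B)) (pre Y) = pre (dl Y) := by
  apply LinearMap.ext
  intro b
  apply LinearMap.ext
  intro v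
  simp only [phi, dl, LinearMap.coe_mk, AddHom.coe_mk, LinearMap.sub_apply,
    Module.End.mul_apply]
  simp [pre, mulI_apply]

theorem comm_span {W : Type} [AddCommGroup W] [Module ℂ W]
    (Φ : Module.End ℂ W →ₗ[ℂ] Module.End ℂ W) (s : Set (Module.End ℂ W)) (D : Module.End ℂ W)
    (h : ∀ C ∈ s, Φ C * D = D * Φ C) : ∀ C ∈ Submodule.span ℂ s, Φ C * D = D * Φ C := by
  intro C hC
  induction hC using Submodule.span_induction with
  | mem x hx => exact h x hx
  | zero => rw [map_zero, zero_mul, mul_zero]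
  | add x y _ _ hx hy => rw [map_add, add_mul, mul_add, hx, hy]
  | smul c x _ hx => rw [map_smul, smul_mul_assoc, mul_smul_comm, hx]

theorem dl_comm {B : AV} {ι : Type} (G : GC B ι) {Y Z : Module.End ℝ B.V} (hY : Y ∈ G.s)
    (hZ : Z ∈ G.s) : dl Y * dl Z = dl Z * dl Y := by
  obtain ⟨α, β, h⟩ := G.op Y hY
  obtain ⟨α', β', h'⟩ := G.op Z hZ
  apply LinearMap.ext
  intro v
  apply G.ψ.injective
  funext i
  rw [Module.End.mul_apply, Module.End.mul_apply, dl_apply G.ψ h, dl_apply G.ψ h',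
    dl_apply G.ψ h', dl_apply G.ψ h]
  ring

end Cmt_aux

open Cmt_aux in
theorem tCmt : S_Cmt := by
  intro B ι G C hC C' hC'
  have h1 : ∀ D ∈ pre '' G.s, ∀ D' ∈ pre '' G.s,
      phi (pre (mulI B)) D * phi (pre (mulI B)) D' =
        phi (pre (mulI B)) D' * phi (pre (mulI B)) D := by
    rintro _ ⟨Y, hY, rfl⟩ _ ⟨Z, hZ, rfl⟩
    rw [phi_pre, phi_pre]
    have e := dl_comm G hZ hY
    have e1 : pre (dl Z * dl Y) = pre (dl Y * dl Z) := by rw [e]
    exact e1
  have h2 : ∀ D ∈ pre '' G.s, phi (pre (mulI B)) C * phi (pre (mulI B)) D =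
      phi (pre (mulI B)) D * phi (pre (mulI B)) C := fun D hD =>
    comm_span (phi (pre (mulI B))) _ _ (fun D' hD' => h1 D' hD' D hD) C hC
  have h3 := comm_span (phi (pre (mulI B))) _ (phi (pre (mulI B)) C)
    (fun D hD => (h2 D hD).symm) C' hC'
  exact h3.symm

end SER

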