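import Pool.Agent.Lib.SE.R.Spec
import Pool.Agent.Lib.SE.Q.ClT

/-!
# PROJECT SE-R, module IdA (helper14): everything is hit with `B`-component `0`
-/

set_option autoImplicit false

open Module

noncomputable section

namespace SER

open HC HC.E HC.SE SEB SEQ

namespace IdA_aux

variable {q : ℕ} {T : Fin q → AV} {m : Fin q → ℕ} {B : AV} {ι : Type}

/-- `N ∈ ggR h` with `B`-component `0`, which is `0` on the eigenspaces of the other elements
of `F`. -/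
def Ok (D : ∀ i, Cyc (T i) (m i)) (h : Set (TB T B)) (F : Set (Ch m)) (x : Ch m) (N : CB T B) :
    Prop :=
  N ∈ ggR h ∧ N.2 = 0 ∧ ∀ z ∈ F, z ≠ x → ∀ a ∈ WT D z, N.1 z.1 a = 0

/-- The operators of `WT D x` induced by these elements. -/
def NN (D : ∀ i, Cyc (T i) (m i)) (h : Set (TB T B)) (F : Set (Ch m)) (x : Ch m) :
    Submodule ℂ (Module.End ℂ (WT D x)) where
  carrier := {A | ∃ N, Ok D h F x N ∧
    ∀ a : WT D x, N.1 x.1 (a : Frm (T x.1)) = (A a : Frm (T x.1))}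
  add_mem' := by
    rintro A A' ⟨N, ⟨h1, h2, h3⟩, h4⟩ ⟨N', ⟨h1', h2', h3'⟩, h4'⟩
    refine ⟨N + N', ⟨add_mem h1 h1', ?_, fun z hz hzx a ha => ?_⟩, fun a => ?_⟩
    · rw [Prod.snd_add, h2, h2', add_zero]
    · rw [Prod.fst_add, Pi.add_apply, LinearMap.add_apply, h3 z hz hzx a ha, h3' z hz hzx a ha,
        add_zero]
    · rw [Prod.fst_add, Pi.add_apply, LinearMap.add_apply, h4, h4']
      rfl
  zero_mem' := ⟨0, ⟨zero_mem _, rfl, fun _ _ _ _ _ => rfl⟩, fun _ => rfl⟩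
  smul_mem' := by
    rintro c A ⟨N, ⟨h1, h2, h3⟩, h4⟩
    refine ⟨c • N, ⟨Submodule.smul_mem _ c h1, ?_, fun z hz hzx a ha => ?_⟩, fun a => ?_⟩
    · rw [Prod.smul_snd, h2, smul_zero]
    · rw [Prod.smul_fst, Pi.smul_apply, LinearMap.smul_apply, h3 z hz hzx a ha, smul_zero]
    · rw [Prod.smul_fst, Pi.smul_apply, LinearMap.smul_apply, h4]
      rfl

/-- All traceless operators of `WT D x` are induced. -/
theorem all_mem (hSim : S_Sim) (hPj : S_PjR) (hCl : S_ClR) (D : ∀ i, Cyc (T i) (m i))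
    (hm : ∀ i, 3 ≤ m i) (hT : HT D) (G : GC B ι) {h : Set (TB T B)} (hh : HLieR D G h)
    {F : Set (Ch m)} (hF : ∀ x ∈ F, neg x ∉ F) {x : Ch m} (hx : x ∈ F)
    (hN : ∃ N ∈ ggR h, N.2 = 0 ∧ (∀ z ∈ F, z ≠ x → ∀ a ∈ WT D z, N.1 z.1 a = 0) ∧
      ∃ a ∈ WT D x, N.1 x.1 a ≠ 0) (X : Module.End ℂ (WT D x))
    (hX : LinearMap.trace ℂ (WT D x) X = 0) : X ∈ NN D h F x := by
  classical
  obtain ⟨hf, hlift, hgg⟩ := hPj q T m D B ι G h hh
  obtain ⟨hcl, -, -, -⟩ := hCl q T m D B ι G h hh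
  obtain ⟨-, htr⟩ := tClT q T m D hm (Prod.fst '' h) hf
  have hfd : FiniteDimensional ℂ (WT D x) := inferInstance
  refine hSim (WT D x) (NN D h F x) ?_ ?_ ?_ X hX
  · rintro A ⟨N, ⟨h1, -, -⟩, h4⟩
    obtain ⟨A', hA', hA⟩ := htr N.1 (hgg N h1) x
    have h5 : A = A' := by
      refine LinearMap.ext fun a => Subtype.ext ?_
      rw [← h4 a, ← hA a]
    rw [h5]
    exact hA'
  · rintro A ⟨N, ⟨h1, h2, h3⟩, h4⟩ y hy
    obtain ⟨C, hC, hC1⟩ := hT (Prod.fst '' h) hf F hF (fun s => if hs : s = x then hs ▸ y else 0)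
      (by
        intro s
        by_cases hs : s = x
        · subst hs
          simpa using hy
        · simp [hs])
    obtain ⟨C', hC', rfl⟩ := hlift C hC
    have w1 : ∀ a : WT D x, C'.1 x.1 (a : Frm (T x.1)) = (y a : Frm (T x.1)) := by
      intro a
      have h5 := hC1 x hx a
      simpa using h5
    have w2 : ∀ z ∈ F, z ≠ x → ∀ a : WT D z, C'.1 z.1 (a : Frm (T z.1)) = 0 := by
      intro z hz hzx a
      have h5 := hC1 z hz a
      simpa [hzx] using h5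
    refine ⟨C' * N - N * C', ⟨hcl C' hC' N h1, ?_, fun z hz hzx a ha => ?_⟩, fun a => ?_⟩
    · rw [Prod.snd_sub, Prod.snd_mul, Prod.snd_mul, h2, mul_zero, zero_mul, sub_zero]
    · rw [Prod.fst_sub, Prod.fst_mul, Prod.fst_mul, Pi.sub_apply, Pi.mul_apply, Pi.mul_apply,
        LinearMap.sub_apply, Module.End.mul_apply, Module.End.mul_apply, h3 z hz hzx a ha,
        w2 z hz hzx ⟨a, ha⟩, map_zero, map_zero, sub_zero]
    · rw [Prod.fst_sub, Prod.fst_mul, Prod.fst_mul, Pi.sub_apply, Pi.mul_apply, Pi.mul_apply,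
        LinearMap.sub_apply, Module.End.mul_apply, Module.End.mul_apply, h4, w1, w1, h4]
      rfl
  · obtain ⟨N, h1, h2, h3, a, ha, h4⟩ := hN
    obtain ⟨A', -, hA⟩ := htr N.1 (hgg N h1) x
    refine ⟨A', ⟨N, ⟨h1, h2, h3⟩, hA⟩, fun h5 => h4 ?_⟩
    rw [hA ⟨a, ha⟩, h5]
    rfl

end IdA_aux

open IdA_aux in
theorem tIdA : S_IdA := by
  classical
  intro hSim hPj hCl q T m D hm hT B ι G h hh F hF hN A hA
  have : ∀ i, NeZero (m i) := fun i => ⟨by have := hm i; omega⟩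
  have hex : ∀ x : Ch m, ∃ N ∈ ggR h, N.2 = 0 ∧ (x ∈ F →
      (∀ a : WT D x, N.1 x.1 (a : Frm (T x.1)) = (A x a : Frm (T x.1))) ∧
        ∀ z ∈ F, z ≠ x → ∀ a : WT D z, N.1 z.1 (a : Frm (T z.1)) = 0) := by
    intro x
    by_cases hx : x ∈ F
    · obtain ⟨N, ⟨h1, h2, h3⟩, h4⟩ :=
        all_mem hSim hPj hCl D hm hT G hh hF hx (hN x hx) (A x) (hA x)
      exact ⟨N, h1, h2, fun _ => ⟨h4, fun z hz hzx a => h3 z hz hzx a a.2⟩⟩
    · exact ⟨0, Submodule.zero_mem _, rfl, fun h => absurd h hx⟩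
  choose N h1 h2 h3 using hex
  refine ⟨∑ x ∈ Finset.univ.filter (fun x => x ∈ F), N x,
    Submodule.sum_mem _ fun x _ => h1 x, ?_, fun y hy a => ?_⟩
  · rw [Prod.snd_sum]
    exact Finset.sum_eq_zero fun x _ => h2 x
  · rw [Prod.fst_sum, Finset.sum_apply, LinearMap.sum_apply, Finset.sum_eq_single y]
    · exact (h3 y hy).1 a
    · intro z hz hzy
      rw [Finset.mem_filter] at hz
      exact (h3 z hz.2).2 y hy (Ne.symm hzy) a
    · intro h5
      exact absurd (Finset.mem_filter.2 ⟨Finset.mem_univ _, hy⟩) h5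

end SER
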