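import Pool.Agent.Lib.SE.R.Spec
import Pool.Agent.Lib.SE.Q.ClT
import Pool.Agent.Lib.SE.Big.LI
import Pool.Agent.Lib.SE.Big.Bas
import Pool.Agent.Lib.SE.Big.Pj
import Pool.Agent.Lib.SE.Big.Tw

/-!
# PROJECT SE-R, module Idn: a nonzero operator at every character
-/

set_option autoImplicit false

open Module

noncomputable section

namespace SER

open HC HC.E HC.SE SEB SEQ

namespace Idn_aux

/-- A rational endomorphism which commutes with `Z` and vanishes on one eigenspace is zero. -/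
theorem van {T : AV} {m : ℕ} (D : Cyc T m) (hm : 3 ≤ m) (X : Module.End ℝ T.V) (hr : RatEnd T X)
    (hZ : ∀ v, X (D.Z v) = D.Z (X v)) (s : (ZMod m)ˣ) (h0 : ∀ a ∈ Ws D s, pre X a = 0) :
    X = 0 := by
  obtain ⟨b1, -, -, b4, -⟩ := tBas tPj T m D hm
  have h1 : ∀ ρ : (ZMod m)ˣ, ∀ a ∈ Ws D (ρ * s), pre X a = 0 := by
    intro ρ
    have hc : (fun _ => 1 : Fin 1 → ℂ) ≠ 0 := fun h => one_ne_zero (congrFun h 0)
    obtain ⟨c', hc', h2⟩ := tLI tPj tTw T m D hm 1 (fun _ => X) (fun _ => ⟨hr, hZ⟩) {s}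
      (fun _ => 1) hc (by
        intro t ht a ha
        rw [Set.mem_singleton_iff] at ht
        subst ht
        rw [Fin.sum_univ_one, h0 a ha, smul_zero]) ρ
    intro a ha
    have h3 := h2 s (Set.mem_singleton s) a ha
    rw [Fin.sum_univ_one] at h3
    have h4 : c' 0 ≠ 0 := fun h => hc' (funext fun j => by
      rw [Subsingleton.elim j 0]
      exact h)
    exact (smul_eq_zero.1 h3).resolve_left h4
  have h2 : ∀ t, ∀ a ∈ Ws D t, pre X a = 0 := by
    intro t a ha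
    refine h1 (t * s⁻¹) a ?_
    rwa [inv_mul_cancel_right]
  have h4 : (⊤ : Submodule ℂ (Frm T)) ≤ LinearMap.ker (pre X) := by
    rw [← b1]
    exact iSup_le fun t a ha => h2 t a ha
  have h3 : pre X = pre 0 := by
    refine LinearMap.ext fun a => ?_
    have h5 := h4 (Submodule.mem_top (x := a))
    rw [LinearMap.mem_ker] at h5
    rw [h5]
    exact (LinearMap.comp_zero a).symm
  exact (b4 X 0).2.2.2 h3

end Idn_aux

open Idn_aux

theorem tIdn : S_Idn := by
  classical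
  intro hNsc hPj hCl q T m D hm hT B ι G h hh hO F hF x hx
  obtain ⟨hHL, hup, hdown⟩ := hPj q T m D B ι G h hh
  obtain ⟨c1, -, -, c4⟩ := hCl q T m D B ι G h hh
  obtain ⟨Y, hY, hYs, hY2, -, hYi⟩ := hO x.1
  have hgY : preR Y ∈ ggR h := c4 Y hYs
  obtain ⟨-, hcl2⟩ := tClT q T m D hm (Prod.fst '' h) hHL
  obtain ⟨y', hy'tr, hy'⟩ := hcl2 (preR Y).1 (hdown _ hgY) x
  have hy0 : y' ≠ 0 := by
    intro h0
    apply hYi
    refine van (D x.1) (hm x.1) (Y.1 x.1) ((hh.rat Y hY).1 x.1) ((hh.u Y hY x.1).1) x.2 ?_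
    intro a ha
    have h1 := hy' ⟨a, ha⟩
    rw [h0] at h1
    exact h1
  obtain ⟨z, hztr, hz⟩ := hNsc (WT D x) y' hy'tr hy0
  obtain ⟨C₀, hC₀, hC₀'⟩ := hT (Prod.fst '' h) hHL F hF
    (fun s => if hs : s = x then hs ▸ z else 0) (by
      intro s
      by_cases hs : s = x
      · subst hs
        simpa using hztr
      · simp [hs])
  obtain ⟨C, hC, hC1⟩ := hup C₀ hC₀
  have w1 : ∀ a : WT D x, C.1 x.1 (a : Frm (T x.1)) = (z a : Frm (T x.1)) := by
    intro a
    have h3 := hC₀' x hx a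
    rw [hC1]
    simpa using h3
  have w2 : ∀ t ∈ F, t ≠ x → ∀ a : WT D t, C.1 t.1 (a : Frm (T t.1)) = 0 := by
    intro t ht htx a
    have h3 := hC₀' t ht a
    rw [hC1]
    simpa [htx] using h3
  refine ⟨C * preR Y - preR Y * C, c1 C hC _ hgY, ?_, ?_, ?_⟩
  · have h1 : (preR Y).2 = 0 := by
      change pre Y.2 = 0
      rw [hY2]
      exact LinearMap.ext fun a => LinearMap.comp_zero a
    rw [Prod.snd_sub, Prod.snd_mul, Prod.snd_mul, h1, mul_zero, zero_mul, sub_zero]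
  · intro t ht htx a ha
    obtain ⟨u', -, hu'⟩ := hcl2 (preR Y).1 (hdown _ hgY) t
    have h1 : (C * preR Y - preR Y * C).1 t.1 a =
        C.1 t.1 ((preR Y).1 t.1 a) - (preR Y).1 t.1 (C.1 t.1 a) := rfl
    have h2 := hu' ⟨a, ha⟩
    have h3 := w2 t ht htx ⟨a, ha⟩
    have h4 := w2 t ht htx (u' ⟨a, ha⟩)
    change (preR Y).1 t.1 a = _ at h2
    change C.1 t.1 a = 0 at h3
    rw [h1, h2, h3, h4, map_zero, sub_zero]
  · by_contra hno
    push Not at hno
    apply hz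
    refine LinearMap.ext fun a => ?_
    have h1 := hno (a : Frm (T x.1)) a.2
    have h2 : (C * preR Y - preR Y * C).1 x.1 (a : Frm (T x.1)) =
        C.1 x.1 ((preR Y).1 x.1 (a : Frm (T x.1))) -
          (preR Y).1 x.1 (C.1 x.1 (a : Frm (T x.1))) := rfl
    rw [h2, w1, hy', hy', w1] at h1
    apply Subtype.ext
    exact h1

end SER
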