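import Pool.Agent.Lib.SE.R.Spec

/-!
# PROJECT SE-R: module JB, the element `(0, i_B)`
-/

set_option autoImplicit false

open Module

noncomputable section

namespace SER

open HC HC.E HC.SE SEB SEQ

namespace JB_aux

section One

variable {T : AV} {m : ℕ} (D : Cyc T m)

theorem comm_pow {P : Module.End ℝ T.V} (h : ∀ v, P (D.Z v) = D.Z (P v)) (k : ℕ) :
    P * D.ZR ^ k = D.ZR ^ k * P := by
  have h1 : Commute P D.ZR := by
    apply LinearMap.ext
    intro v
    exact h v
  exact (h1.pow_right k).eq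

theorem su_comm {P Q : Module.End ℝ T.V} (hP : IsU D P) (hQ : IsU D Q) :
    IsSU D (P * Q - Q * P) := by
  refine ⟨⟨fun v => ?_, fun u v => ?_⟩, fun k => ?_⟩
  · rw [LinearMap.sub_apply, LinearMap.sub_apply, Module.End.mul_apply, Module.End.mul_apply,
      Module.End.mul_apply, Module.End.mul_apply, hQ.1, hP.1, hP.1, hQ.1, map_sub]
  · have h1 := hP.2 (Q u) v
    have h2 := hQ.2 (P u) v
    have h3 := hP.2 u (Q v)
    have h4 := hQ.2 u (P v)
    rw [LinearMap.sub_apply, LinearMap.sub_apply, Module.End.mul_apply, Module.End.mul_apply,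
      Module.End.mul_apply, Module.End.mul_apply, map_sub, LinearMap.sub_apply, map_sub]
    linarith
  · have h1 : (P * Q - Q * P) * D.ZR ^ k = P * (Q * D.ZR ^ k) - (Q * D.ZR ^ k) * P := by
      rw [sub_mul, mul_assoc, mul_assoc, mul_assoc, comm_pow D hP.1 k]
    rw [h1, map_sub, LinearMap.trace_mul_comm, sub_self]

theorem su_zero : IsSU D (0 : Module.End ℝ T.V) := by
  refine ⟨⟨fun v => ?_, fun u v => ?_⟩, fun k => ?_⟩
  · rw [LinearMap.zero_apply, LinearMap.zero_apply, map_zero]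
  · rw [LinearMap.zero_apply, LinearMap.zero_apply, map_zero, LinearMap.zero_apply, map_zero,
      add_zero]
  · rw [zero_mul, map_zero]

theorem su_add {P Q : Module.End ℝ T.V} (hP : IsSU D P) (hQ : IsSU D Q) : IsSU D (P + Q) := by
  refine ⟨⟨fun v => ?_, fun u v => ?_⟩, fun k => ?_⟩
  · rw [LinearMap.add_apply, LinearMap.add_apply, hP.1.1, hQ.1.1, map_add]
  · have h1 := hP.1.2 u v
    have h2 := hQ.1.2 u v
    rw [LinearMap.add_apply, LinearMap.add_apply, map_add, LinearMap.add_apply, map_add]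
    linarith
  · rw [add_mul, map_add, hP.2 k, hQ.2 k, add_zero]

theorem su_smul {P : Module.End ℝ T.V} (c : ℝ) (hP : IsSU D P) : IsSU D (c • P) := by
  refine ⟨⟨fun v => ?_, fun u v => ?_⟩, fun k => ?_⟩
  · rw [LinearMap.smul_apply, LinearMap.smul_apply, hP.1.1, ← Complex.coe_smul,
      ← Complex.coe_smul, map_smul]
  · have h1 := hP.1.2 u v
    rw [LinearMap.smul_apply, LinearMap.smul_apply, map_smul, LinearMap.smul_apply, map_smul,
      ← smul_add, h1, smul_zero]
  · rw [smul_mul_assoc, map_smul, hP.2 k, smul_zero]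

end One

end JB_aux

open JB_aux in
theorem tJB : S_JB := by
  intro q T m D B ι G h hh hB hsu
  -- the second components
  have h1 : ∀ X ∈ Prod.snd '' h, RatEnd B X := by
    rintro _ ⟨X, hX, rfl⟩
    exact (hh.rat X hX).2
  have h2 : ∀ X ∈ Prod.snd '' h, ∀ Y ∈ Prod.snd '' h, X * Y - Y * X ∈ Prod.snd '' h := by
    rintro _ ⟨X, hX, rfl⟩ _ ⟨Y, hY, rfl⟩
    exact ⟨X * Y - Y * X, hh.br X hX Y hY, rfl⟩
  let sn : TB T B →ₗ[ℝ] Module.End ℝ B.V := LinearMap.snd ℝ _ _
  have h3 : mulI B ∈ Submodule.span ℝ (Prod.snd '' h) := by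
    have e : (Prod.snd '' h : Set (Module.End ℝ B.V)) = sn '' h := rfl
    rw [e, Submodule.span_image]
    exact ⟨_, hh.J, rfl⟩
  have h4 := hB _ h1 h2 h3
  have h5 : Submodule.span ℝ {Z | ∃ X ∈ Prod.snd '' h, ∃ Y ∈ Prod.snd '' h, Z = X * Y - Y * X} ≤
      Submodule.map sn (Submodule.span ℝ (ComR h)) := by
    rw [← Submodule.span_image]
    apply Submodule.span_mono
    rintro _ ⟨_, ⟨X, hX, rfl⟩, _, ⟨Y, hY, rfl⟩, rfl⟩
    exact ⟨X * Y - Y * X, ⟨X, hX, Y, hY, rfl⟩, rfl⟩
  obtain ⟨W, hW, hWe⟩ := h5 h4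
  have h6 : ∀ i, IsSU (D i) (W.1 i) := by
    have key : ∀ Z ∈ Submodule.span ℝ (ComR h), ∀ i, IsSU (D i) (Z.1 i) := by
      intro Z hZ
      induction hZ using Submodule.span_induction with
      | mem x hx =>
        obtain ⟨X, hX, Y, hY, rfl⟩ := hx
        intro i
        exact su_comm (D i) (hh.u X hX i) (hh.u Y hY i)
      | zero => exact fun i => su_zero (D i)
      | add x y _ _ hx hy => exact fun i => su_add (D i) (hx i) (hy i)
      | smul c x _ hx => exact fun i => su_smul (D i) c (hx i)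
    exact key W hW
  have h7 := hsu W.1 h6
  have h8 : ((0, mulI B) : TB T B) = W - (W.1, 0) := by
    apply Prod.ext
    · change 0 = W.1 - W.1
      rw [sub_self]
    · change mulI B = W.2 - 0
      rw [sub_zero]
      exact hWe.symm
  rw [h8]
  exact sub_mem hW h7

end SER
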