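import Pool.Agent.Lib.SE.R.Spec

/-!
# PROJECT SE-R, module Nab: a non commutative derived centralizer of a complex structure
-/

set_option autoImplicit false

open Module

noncomputable section

namespace SER

open HC HC.E HC.SE SEB SEQ

namespace Nab_aux

variable {W : Type} [AddCommGroup W] [Module ℂ W]

/-- dual functions of two linearly independent vectors -/
private theorem dual (e : Fin 2 → W) (he : LinearIndependent ℂ e) :
    ∃ f : Fin 2 → (W →ₗ[ℂ] ℂ), ∀ a b, f a (e b) = if a = b then 1 else 0 := by
  obtain ⟨g, hg⟩ : ∃ g : W →ₗ[ℂ] (Fin 2 → ℂ),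
      g ∘ₗ (Fintype.linearCombination ℂ e) = LinearMap.id :=
    LinearMap.exists_leftInverse_of_injective _
      (LinearMap.ker_eq_bot.2 (linearIndependent_iff_injective_fintypeLinearCombination.1 he))
  refine ⟨fun a => (LinearMap.proj a) ∘ₗ g, fun a b => ?_⟩
  have h1 : Fintype.linearCombination ℂ e (Pi.single b 1) = e b := by
    rw [Fintype.linearCombination_apply_single, one_smul]
  have h2 : g (e b) = Pi.single b 1 := by
    rw [← h1]
    exact LinearMap.congr_fun hg (Pi.single b 1)
  rw [LinearMap.comp_apply, h2, LinearMap.proj_apply, Pi.single_apply]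

/-- dual functions with `φ ∘ J = i φ` -/
private theorem dualJ (J : Module.End ℂ W) (hJ : J * J = -1) (e : Fin 2 → W)
    (he : LinearIndependent ℂ e) (hJe : ∀ a, J (e a) = Complex.I • e a) :
    ∃ f : Fin 2 → (W →ₗ[ℂ] ℂ), (∀ a b, f a (e b) = if a = b then 1 else 0) ∧
      ∀ a v, f a (J v) = Complex.I * f a v := by
  obtain ⟨f, hf⟩ := dual e he
  have hJJ : ∀ v, J (J v) = -v := fun v => by
    have := LinearMap.congr_fun hJ v
    simpa using this
  refine ⟨fun a => (1 / 2 : ℂ) • (f a - Complex.I • (f a ∘ₗ J)), fun a b => ?_, fun a v => ?_⟩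
  · simp only [LinearMap.smul_apply, LinearMap.sub_apply, LinearMap.comp_apply, hJe, map_smul,
      smul_eq_mul, hf]
    have hI := Complex.I_mul_I
    linear_combination (-(1 / 2 : ℂ) * (if a = b then 1 else 0)) * hI
  · simp only [LinearMap.smul_apply, LinearMap.sub_apply, LinearMap.comp_apply, hJJ, map_neg,
      smul_eq_mul]
    have hI := Complex.I_mul_I
    linear_combination ((1 / 2 : ℂ) * f a (J v)) * hI

end Nab_aux

theorem tNab : S_Nab := by
  intro W _ _ _ J hJ e he hJe
  obtain ⟨f, hf, hfJ⟩ := Nab_aux.dualJ J hJ e he hJe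
  refine ⟨(f 1).smulRight (e 0), (f 0).smulRight (e 1), ?_, ?_, ?_, ?_, ?_⟩
  · rw [LinearMap.trace_smulRight, hf]
    simp
  · rw [LinearMap.trace_smulRight, hf]
    simp
  · refine LinearMap.ext fun v => ?_
    simp only [Module.End.mul_apply, LinearMap.smulRight_apply, hfJ, map_smul, hJe, smul_smul]
    rw [mul_comm]
  · refine LinearMap.ext fun v => ?_
    simp only [Module.End.mul_apply, LinearMap.smulRight_apply, hfJ, map_smul, hJe, smul_smul]
    rw [mul_comm]
  · intro h0
    have h1 := LinearMap.congr_fun h0 (e 0)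
    simp only [LinearMap.sub_apply, Module.End.mul_apply, LinearMap.smulRight_apply, map_smul, hf,
      LinearMap.zero_apply] at h1
    have h2 : e 0 ≠ 0 := he.ne_zero 0
    apply h2
    simpa using h1

end SER
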