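import Pool.Agent.Lib.SE.R.Spec
import Pool.Agent.Lib.SE.Q.PrT
import Pool.Agent.Lib.SE.Q.Ln
import Pool.Agent.Lib.SE.Big.At0

/-!
# PROJECT SE-R, module Non: an element which lives on one factor only (helper92)
-/

set_option autoImplicit false

open Module

noncomputable section

namespace SER

open HC HC.E HC.SE SEB SEQ

namespace Non_aux

theorem ne_neg {m : ℕ} (hm : 3 ≤ m) (s : (ZMod m)ˣ) : s ≠ -s := by
  intro h
  have h1 : (s : ZMod m) = -(s : ZMod m) := by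
    have := congrArg (fun u : (ZMod m)ˣ => (u : ZMod m)) h
    simpa using this
  have h2 : (2 : ZMod m) * (s : ZMod m) = 0 := by
    linear_combination h1
  have h3 : (2 : ZMod m) = 0 := by
    have := (Units.mul_left_eq_zero s).mp h2
    exact this
  have h4 : ((2 : ℕ) : ZMod m) = 0 := by exact_mod_cast h3
  rw [ZMod.natCast_eq_zero_iff] at h4
  exact absurd (Nat.le_of_dvd (by norm_num) h4) (by omega)

theorem val_lt {m : ℕ} (hm : 3 ≤ m) (t : (ZMod m)ˣ) :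
    (t : ZMod m).val < ((-t : (ZMod m)ˣ) : ZMod m).val ∨
      ((-t : (ZMod m)ˣ) : ZMod m).val < ((-(-t) : (ZMod m)ˣ) : ZMod m).val := by
  have : NeZero m := ⟨by omega⟩
  rw [neg_neg]
  rcases lt_trichotomy (t : ZMod m).val ((-t : (ZMod m)ˣ) : ZMod m).val with h | h | h
  · exact Or.inl h
  · exact absurd (Units.ext (ZMod.val_injective m h)) (ne_neg hm t)
  · exact Or.inr h

/-- multiplication by `i` on the eigenspace -/
def Jw {T : AV} {m : ℕ} (D : Cyc T m) (s : (ZMod m)ˣ) : Module.End ℂ (Ws D s) :=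
  (pre (mulI T)).restrict (p := Ws D s) (q := Ws D s) fun a ha v => by
    change a (Complex.I • D.Z v) = zet m s * a (Complex.I • v)
    rw [← map_smul, ha]

theorem Jw_sq {T : AV} {m : ℕ} (D : Cyc T m) (s : (ZMod m)ˣ) : Jw D s * Jw D s = -1 := by
  refine LinearMap.ext fun a => Subtype.ext (LinearMap.ext fun v => ?_)
  change (a : Frm T) (Complex.I • Complex.I • v) = (-(a : Frm T)) v
  rw [smul_smul, Complex.I_mul_I, neg_smul, one_smul, map_neg, LinearMap.neg_apply]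

/-- two independent forms of type `(1,0)` -/
theorem two {T : AV} {m : ℕ} (D : Cyc T m) (s : (ZMod m)ˣ) (h : 2 ≤ D.p s) :
    ∃ e : Fin 2 → Ws D s, LinearIndependent ℂ e ∧ ∀ a, Jw D s (e a) = Complex.I • e a := by
  obtain ⟨f, hf⟩ := exists_linearIndependent_of_le_finrank h
  have hle : Ws10 D s ≤ Ws D s := fun a ha => ha.1
  refine ⟨fun a => Submodule.inclusion hle (f a), ?_, ?_⟩
  · exact hf.map' (Submodule.inclusion hle)
      (LinearMap.ker_eq_bot.mpr (Submodule.inclusion_injective hle))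
  · intro a
    refine Subtype.ext (LinearMap.ext fun v => ?_)
    exact (f a).2.2 v

variable {q : ℕ} {T : Fin q → AV} {m : Fin q → ℕ} {B : AV} {ι : Type}

/-- the characters used: `(i, s)` and one half of the characters of the other factors -/
def FF (i : Fin q) (s : (ZMod (m i))ˣ) : Set (Ch m) :=
  {x | x = ⟨i, s⟩ ∨ (x.1 ≠ i ∧ (x.2 : ZMod (m x.1)).val <
    ((-x.2 : (ZMod (m x.1))ˣ) : ZMod (m x.1)).val)}

theorem FF_neg (hm : ∀ i, 3 ≤ m i) (i : Fin q) (s : (ZMod (m i))ˣ) :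
    ∀ x ∈ FF (m := m) i s, neg x ∉ FF (m := m) i s := by
  rintro x (rfl | ⟨h1, h2⟩) (h3 | ⟨h3, h4⟩)
  · have h5 : -s = s := eq_of_heq (Sigma.mk.inj h3).2
    exact ne_neg (hm i) s h5.symm
  · exact h3 rfl
  · exact h1 (congrArg Sigma.fst h3)
  · obtain ⟨k, t⟩ := x
    change ((-t : (ZMod (m k))ˣ) : ZMod (m k)).val <
      ((-(-t) : (ZMod (m k))ˣ) : ZMod (m k)).val at h4
    rw [neg_neg] at h4
    exact lt_asymm h2 h4

/-- the components at the other factors vanish -/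
theorem zer (D : ∀ i, Cyc (T i) (m i)) (hm : ∀ i, 3 ≤ m i) (h : Set (Tup T)) (hh : HLieT D h)
    (i : Fin q) (s : (ZMod (m i))ˣ) (C : ∀ i, Module.End ℂ (Frm (T i))) (hC : C ∈ ggT h)
    (h0 : ∀ x ∈ FF (m := m) i s, x ≠ ⟨i, s⟩ → ∀ a ∈ WT D x, C x.1 a = 0) (k : Fin q)
    (hk : k ≠ i) : C k = 0 := by
  have h1 : ∀ t : (ZMod (m k))ˣ, (t : ZMod (m k)).val <
      ((-t : (ZMod (m k))ˣ) : ZMod (m k)).val → ∀ a ∈ Ws (D k) t, C k a = 0 := by
    intro t ht a ha
    refine h0 ⟨k, t⟩ (Or.inr ⟨hk, ht⟩) (fun he => hk (congrArg Sigma.fst he)) a ha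
  have hg : C k ∈ gg ((fun X : Tup T => X k) '' h) := by
    rw [PrT_aux.gg1]
    exact ⟨C, hC, rfl⟩
  have h2 : ∀ t : (ZMod (m k))ˣ, ∀ a ∈ Ws (D k) t, C k a = 0 := by
    intro t
    rcases val_lt (hm k) t with ht | ht
    · exact h1 t ht
    · have h3 := tLn (T k) (m k) (D k) (hm k) _ (PrT_aux.lie1 hh k) (C k) hg (-t) (h1 (-t) ht)
      rw [neg_neg] at h3
      exact h3
  obtain ⟨htop, -⟩ := tBas tPj (T k) (m k) (D k) (hm k)
  have h4 : (⊤ : Submodule ℂ (Frm (T k))) ≤ LinearMap.ker (C k) := by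
    rw [← htop]
    exact iSup_le fun t a ha => h2 t a ha
  exact LinearMap.ext fun a => h4 (Submodule.mem_top : a ∈ ⊤)

/-- the operators used -/
theorem key (hPj : S_PjR) (hCl : S_ClR) (D : ∀ i, Cyc (T i) (m i)) (hm : ∀ i, 3 ≤ m i)
    (hT : HT D) (G : GC B ι) (h : Set (TB T B)) (hh : HLieR D G h) (i : Fin q)
    (s : (ZMod (m i))ˣ) (X : Module.End ℂ (Ws (D i) s))
    (tX : LinearMap.trace ℂ (Ws (D i) s) X = 0) (cX : X * Jw (D i) s = Jw (D i) s * X) :
    ∃ C' ∈ ggR h, (∀ k, k ≠ i → C'.1 k = 0) ∧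
      (∀ a : Ws (D i) s, C'.1 i (a : Frm (T i)) = (((2 : ℂ) • X a : Ws (D i) s) : Frm (T i))) ∧
      ∃ C ∈ Submodule.span ℂ (pre '' G.s), C'.2 = C - pre (mulI B) * C * pre (mulI B) := by
  classical
  obtain ⟨hL, hlift, -⟩ := hPj q T m D B ι G h hh
  obtain ⟨-, -, hJ, -⟩ := hCl q T m D B ι G h hh
  let x₀ : Ch m := ⟨i, s⟩
  let A : ∀ x : Ch m, Module.End ℂ (WT D x) := Function.update (fun _ => 0) x₀ X
  have hA0 : A x₀ = X := Function.update_self _ _ _
  have hA1 : ∀ x, x ≠ x₀ → A x = 0 := fun x hx => Function.update_of_ne hx _ _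
  obtain ⟨C, hC, hCA⟩ := hT (Prod.fst '' h) hL (FF (m := m) i s) (FF_neg hm i s) A (by
    intro x
    by_cases hx : x = x₀
    · subst hx
      rw [hA0]
      exact tX
    · rw [hA1 x hx, map_zero])
  obtain ⟨C₁, hC₁, rfl⟩ := hlift C hC
  have hk0 : ∀ k, k ≠ i → C₁.1 k = 0 := by
    refine zer D hm (Prod.fst '' h) hL i s C₁.1 hC ?_
    intro x hx hxx a ha
    have h1 := hCA x hx ⟨a, ha⟩
    rw [hA1 x hxx] at h1
    exact h1
  have hki : ∀ a : Ws (D i) s, C₁.1 i (a : Frm (T i)) = (X a : Frm (T i)) := by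
    intro a
    have h1 := hCA x₀ (Or.inl rfl) a
    rw [hA0] at h1
    exact h1
  refine ⟨C₁ - preR (JT T, mulI B) * C₁ * preR (JT T, mulI B), hJ C₁ hC₁, ?_, ?_, ?_⟩
  · intro k hk
    change C₁.1 k - pre (mulI (T k)) * C₁.1 k * pre (mulI (T k)) = 0
    rw [hk0 k hk, mul_zero, zero_mul, sub_zero]
  · intro a
    have e1 : pre (mulI (T i)) (a : Frm (T i)) = (Jw (D i) s a : Frm (T i)) := rfl
    have e2 : pre (mulI (T i)) (X (Jw (D i) s a) : Frm (T i)) =
        (Jw (D i) s (X (Jw (D i) s a)) : Frm (T i)) := rfl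
    have e3 : Jw (D i) s (X (Jw (D i) s a)) = -X a := by
      have h1 : X (Jw (D i) s a) = Jw (D i) s (X a) := LinearMap.congr_fun cX a
      rw [h1]
      have h2 := LinearMap.congr_fun (Jw_sq (D i) s) (X a)
      exact h2
    change C₁.1 i (a : Frm (T i)) - pre (mulI (T i)) (C₁.1 i (pre (mulI (T i)) (a : Frm (T i)))) = _
    rw [e1, hki, hki, e2, e3, Submodule.coe_neg, sub_neg_eq_add, two_smul, Submodule.coe_add]
  · refine ⟨C₁.2, ?_, rfl⟩
    have h1 : ggR h ≤ (Submodule.span ℂ (pre '' G.s)).comap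
        (LinearMap.snd ℂ (∀ i, Module.End ℂ (Frm (T i))) (Module.End ℂ (Frm B))) := by
      refine Submodule.span_le.mpr ?_
      rintro _ ⟨Y, ⟨X, hX, X', hX', rfl⟩, rfl⟩
      exact Submodule.subset_span ⟨_, hh.op _ (hh.br X hX X' hX'), rfl⟩
    exact h1 hC₁

end Non_aux

theorem tNon : S_Non := by
  intro hNab hPj hCl hCmt q T m D hm hT B ι G h hh i ⟨s, hs⟩
  have := At0_aux.fin_frm (T i)
  have hfd : FiniteDimensional ℂ (Ws (D i) s) := inferInstance
  obtain ⟨e, he, heJ⟩ := Non_aux.two (D i) s hs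
  obtain ⟨X, Y, tX, tY, cX, cY, hXY⟩ := hNab (Ws (D i) s) (Non_aux.Jw (D i) s)
    (Non_aux.Jw_sq (D i) s) e he heJ
  obtain ⟨C, hC, hCk, hCi, C₂, hC₂, hC2⟩ := Non_aux.key hPj hCl D hm hT G h hh i s X tX cX
  obtain ⟨E, hE, hEk, hEi, E₂, hE₂, hE2⟩ := Non_aux.key hPj hCl D hm hT G h hh i s Y tY cY
  obtain ⟨hbr, -⟩ := hCl q T m D B ι G h hh
  refine ⟨C * E - E * C, hbr C hC E hE, ?_, ?_, ?_⟩
  · change C.2 * E.2 - E.2 * C.2 = 0
    rw [hC2, hE2, hCmt B ι G C₂ hC₂ E₂ hE₂, sub_self]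
  · intro k hk
    change C.1 k * E.1 k - E.1 k * C.1 k = 0
    rw [hCk k hk, hEk k hk, mul_zero, sub_self]
  · intro h0
    apply hXY
    refine LinearMap.ext fun a => ?_
    have h1 : C.1 i (E.1 i (a : Frm (T i))) - E.1 i (C.1 i (a : Frm (T i))) = 0 :=
      LinearMap.congr_fun h0 (a : Frm (T i))
    rw [hEi, hCi, hCi, hEi, ← Submodule.coe_sub, map_smul, map_smul, smul_smul, smul_smul] at h1
    have h2 : ((2 : ℂ) * 2) • (X (Y a) - Y (X a)) = 0 := by
      rw [smul_sub]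
      exact Subtype.ext h1
    have h3 : X (Y a) - Y (X a) = 0 := (smul_eq_zero.mp h2).resolve_left (by norm_num)
    exact h3

end SER
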