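import Pool.Agent.Lib.SE.R.Spec

/-!
# PROJECT SE-R, module Nsc: traceless operators with trivial centralizer
-/

set_option autoImplicit false

open Module

noncomputable section

namespace SER

theorem tNsc : S_Nsc := by
  intro W _ _ _ y hy hy0
  by_contra hcon
  push Not at hcon
  have hW : Nontrivial W := by
    by_contra hW
    rw [not_nontrivial_iff_subsingleton] at hW
    exact hy0 (LinearMap.ext fun v => Subsingleton.elim _ _)
  have hd : (finrank ℂ W : ℂ) ≠ 0 := Nat.cast_ne_zero.2 (Module.finrank_pos).ne'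
  have hcomm : ∀ x : Module.End ℂ W, x * y = y * x := by
    intro x
    have h1 := hcon (x - (LinearMap.trace ℂ W x / (finrank ℂ W : ℂ)) • 1) (by
      rw [map_sub, map_smul, LinearMap.trace_one, smul_eq_mul, div_mul_cancel₀ _ hd, sub_self])
    rw [sub_mul, mul_sub, smul_mul_assoc, mul_smul_comm, one_mul, mul_one,
      sub_sub_sub_cancel_right] at h1
    exact sub_eq_zero.1 h1
  obtain ⟨v, hv⟩ := exists_ne (0 : W)
  obtain ⟨f, hf⟩ : ∃ f : Module.Dual ℂ W, f v = 1 := by
    obtain ⟨f, hf⟩ : ∃ f : Module.Dual ℂ W, f v ≠ 0 := by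
      by_contra hc
      push Not at hc
      exact hv ((Module.forall_dual_apply_eq_zero_iff ℂ v).1 hc)
    exact ⟨(f v)⁻¹ • f, by rw [LinearMap.smul_apply, smul_eq_mul, inv_mul_cancel₀ hf]⟩
  have key : ∀ w, y w = f (y v) • w := by
    intro w
    have h1 := LinearMap.congr_fun (hcomm (LinearMap.toSpanSingleton ℂ W w ∘ₗ f)) v
    simp only [Module.End.mul_apply, LinearMap.comp_apply, LinearMap.toSpanSingleton_apply, hf,
      one_smul] at h1
    exact h1.symm
  have hyc : y = f (y v) • (1 : Module.End ℂ W) := LinearMap.ext fun w => key w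
  have h2 : LinearMap.trace ℂ W (f (y v) • (1 : Module.End ℂ W)) = 0 := by rw [← hyc]; exact hy
  rw [map_smul, LinearMap.trace_one, smul_eq_mul] at h2
  have h3 := (mul_eq_zero.1 h2).resolve_right hd
  exact hy0 (by rw [hyc, h3, zero_smul])

end SER
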