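import Pool.Agent.Lib.SE.R.Spec

/-!
# PROJECT SE-R, module PjR: projection to the tuples (helper55)

The same proof as in `SE/Q/PrT.lean` (helper63).
-/

set_option autoImplicit false

open Module

noncomputable section

namespace SER

open HC HC.E HC.SE SEB SEQ

namespace PjR_aux

variable {q : ℕ} {T : Fin q → AV} {m : Fin q → ℕ} {B : AV} {ι : Type}

theorem com (h : Set (TB T B)) : ComT (Prod.fst '' h) = Prod.fst '' ComR h := by
  ext Y
  constructor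
  · rintro ⟨_, ⟨X, hX, rfl⟩, _, ⟨X', hX', rfl⟩, rfl⟩
    exact ⟨X * X' - X' * X, ⟨X, hX, X', hX', rfl⟩, rfl⟩
  · rintro ⟨_, ⟨X, hX, X', hX', rfl⟩, rfl⟩
    exact ⟨X.1, ⟨X, hX, rfl⟩, X'.1, ⟨X', hX', rfl⟩, rfl⟩

theorem ggp (h : Set (TB T B)) :
    ggT (Prod.fst '' h) = (ggR h).map
      (LinearMap.fst ℂ (∀ i, Module.End ℂ (Frm (T i))) (Module.End ℂ (Frm B))) := by
  unfold ggT ggR
  rw [com, Submodule.map_span, Set.image_image, Set.image_image]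
  rfl

theorem lie {D : ∀ i, Cyc (T i) (m i)} {G : GC B ι} {h : Set (TB T B)} (hh : HLieR D G h) :
    HLieT D (Prod.fst '' h) where
  rat := by
    rintro _ ⟨X, hX, rfl⟩
    exact (hh.rat X hX).1
  u := by
    rintro _ ⟨X, hX, rfl⟩
    exact hh.u X hX
  zero := ⟨0, hh.zero, rfl⟩
  add := by
    rintro _ ⟨X, hX, rfl⟩ _ ⟨Y, hY, rfl⟩
    exact ⟨X + Y, hh.add X hX Y hY, rfl⟩
  smul := by
    rintro x _ ⟨X, hX, rfl⟩
    exact ⟨(x : ℝ) • X, hh.smul x X hX, rfl⟩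
  br := by
    rintro _ ⟨X, hX, rfl⟩ _ ⟨Y, hY, rfl⟩
    exact ⟨X * Y - Y * X, hh.br X hX Y hY, rfl⟩
  J := by
    have h1 := Submodule.mem_map_of_mem
      (f := LinearMap.fst ℝ (Tup T) (Module.End ℝ B.V)) hh.J
    rw [Submodule.map_span] at h1
    exact h1

end PjR_aux

theorem tPjR : S_PjR := by
  intro q T m D B ι G h hh
  refine ⟨PjR_aux.lie hh, fun C hC => ?_, fun C hC => ?_⟩
  · rw [PjR_aux.ggp] at hC
    obtain ⟨C', h1, h2⟩ := hC
    exact ⟨C', h1, h2⟩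
  · rw [PjR_aux.ggp]
    exact ⟨C, hC, rfl⟩

end SER
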