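import Pool.Agent.Lib.SE.R.Spec
import Pool.Agent.Lib.SE.Big.Pj
import Pool.Agent.Lib.SE.Big.Bas
import Pool.Agent.Lib.SE.Big.Real

/-!
# PROJECT SE-R, module ReR: real form from a half system of characters, with a component `B`
-/

set_option autoImplicit false

open Module

noncomputable section

namespace SER

open HC HC.E HC.SE SEB SEQ

namespace ReR_aux

variable {q : ℕ} {T : Fin q → AV} {m : Fin q → ℕ} {B : AV}

/-- Complex combinations are `preR P + i preR Q`. -/
theorem comb (Y₀ : Set (TB T B)) (C : CB T B)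
    (hC : C ∈ Submodule.span ℂ (preR '' Y₀)) :
    ∃ P ∈ Submodule.span ℝ Y₀, ∃ Q ∈ Submodule.span ℝ Y₀,
      (∀ i a v, C.1 i a v = a (P.1 i v) + Complex.I * a (Q.1 i v)) ∧
      ∀ b v, C.2 b v = b (P.2 v) + Complex.I * b (Q.2 v) := by
  induction hC using Submodule.span_induction with
  | mem C hC =>
    obtain ⟨Y, hY, rfl⟩ := hC
    refine ⟨Y, Submodule.subset_span hY, 0, Submodule.zero_mem _, fun i a v => ?_, fun b v => ?_⟩
    · rw [Prod.fst_zero, Pi.zero_apply, LinearMap.zero_apply, map_zero, mul_zero, add_zero]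
      rfl
    · rw [Prod.snd_zero, LinearMap.zero_apply, map_zero, mul_zero, add_zero]
      rfl
  | zero =>
    refine ⟨0, Submodule.zero_mem _, 0, Submodule.zero_mem _, fun i a v => ?_, fun b v => ?_⟩
    · simp
    · simp
  | add C C' _ _ h h' =>
    obtain ⟨P, hP, Q, hQ, h, g⟩ := h
    obtain ⟨P', hP', Q', hQ', h', g'⟩ := h'
    refine ⟨P + P', add_mem hP hP', Q + Q', add_mem hQ hQ', fun i a v => ?_, fun b v => ?_⟩
    · rw [Prod.fst_add, Prod.fst_add, Prod.fst_add, Pi.add_apply, Pi.add_apply, Pi.add_apply,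
        LinearMap.add_apply, LinearMap.add_apply, h, h',
        LinearMap.add_apply, LinearMap.add_apply, map_add, map_add]
      ring
    · rw [Prod.snd_add, Prod.snd_add, Prod.snd_add,
        LinearMap.add_apply, LinearMap.add_apply, g, g',
        LinearMap.add_apply, LinearMap.add_apply, map_add, map_add]
      ring
  | smul c C _ h =>
    obtain ⟨P, hP, Q, hQ, h, g⟩ := h
    have hI := Complex.I_mul_I
    refine ⟨c.re • P - c.im • Q, sub_mem (Submodule.smul_mem _ _ hP) (Submodule.smul_mem _ _ hQ),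
      c.re • Q + c.im • P, add_mem (Submodule.smul_mem _ _ hQ) (Submodule.smul_mem _ _ hP),
      fun i a v => ?_, fun b v => ?_⟩
    · rw [Prod.smul_fst, Prod.fst_sub, Prod.fst_add, Prod.smul_fst, Prod.smul_fst, Prod.smul_fst,
        Prod.smul_fst, Pi.smul_apply, Pi.sub_apply, Pi.add_apply, Pi.smul_apply, Pi.smul_apply,
        Pi.smul_apply,
        Pi.smul_apply, LinearMap.smul_apply, LinearMap.smul_apply, h, LinearMap.sub_apply,
        LinearMap.add_apply, map_sub, map_add, LinearMap.smul_apply, LinearMap.smul_apply,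
        LinearMap.smul_apply, LinearMap.smul_apply, map_smul, map_smul, map_smul, map_smul,
        smul_eq_mul, Complex.real_smul, Complex.real_smul, Complex.real_smul, Complex.real_smul]
      conv_lhs => rw [← Complex.re_add_im c]
      linear_combination ((c.im : ℂ) * a (Q.1 i v)) * hI
    · rw [Prod.smul_snd, Prod.snd_sub, Prod.snd_add, Prod.smul_snd, Prod.smul_snd, Prod.smul_snd,
        Prod.smul_snd, LinearMap.smul_apply, LinearMap.smul_apply, g, LinearMap.sub_apply,
        LinearMap.add_apply, map_sub, map_add, LinearMap.smul_apply, LinearMap.smul_apply,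
        LinearMap.smul_apply, LinearMap.smul_apply, map_smul, map_smul, map_smul, map_smul,
        smul_eq_mul, Complex.real_smul, Complex.real_smul, Complex.real_smul, Complex.real_smul]
      conv_lhs => rw [← Complex.re_add_im c]
      linear_combination ((c.im : ℂ) * b (Q.2 v)) * hI

theorem isU_span (D : ∀ i, Cyc (T i) (m i)) (Y₀ : Set (TB T B))
    (h : ∀ Y ∈ Y₀, ∀ i, IsU (D i) (Y.1 i))
    (P : TB T B) (hP : P ∈ Submodule.span ℝ Y₀) (i : Fin q) : IsU (D i) (P.1 i) := by
  refine Real_aux.isU_span (D i) ((fun Y : TB T B => Y.1 i) '' Y₀) ?_ (P.1 i) ?_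
  · rintro _ ⟨Y, hY, rfl⟩
    exact h Y hY i
  · have h1 : ((LinearMap.proj i : Tup T →ₗ[ℝ] Module.End ℝ (T i).V) ∘ₗ
        (LinearMap.fst ℝ (Tup T) (Module.End ℝ B.V))) P ∈
        Submodule.map ((LinearMap.proj i : Tup T →ₗ[ℝ] Module.End ℝ (T i).V) ∘ₗ
        (LinearMap.fst ℝ (Tup T) (Module.End ℝ B.V)))
          (Submodule.span ℝ Y₀) := Submodule.mem_map_of_mem hP
    rw [Submodule.map_span] at h1
    exact h1

end ReR_aux

open ReR_aux in
theorem tReR : S_ReR := by
  intro q T m D hm B Y₀ X hY hX F hF C hC hC2 hCF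
  obtain ⟨P, hP, Q, hQ, hPQ, hPQ2⟩ := comb Y₀ C hC
  have h5 : P.2 = 0 := by
    refine LinearMap.ext fun v => ?_
    rw [LinearMap.zero_apply]
    refine (Module.forall_dual_apply_eq_zero_iff ℝ (P.2 v)).1 fun f => ?_
    have h6 := hPQ2 (Complex.ofRealCLM.toLinearMap ∘ₗ f) v
    rw [hC2] at h6
    have h7 := congrArg Complex.re h6
    simp at h7
    exact h7.symm
  have h4 : X = P.1 := by
    funext i
    obtain ⟨htop, _, _, _, _⟩ := tBas tPj (T i) (m i) (D i) (hm i)
    have uP := isU_span D Y₀ hY P hP i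
    have uQ := isU_span D Y₀ hY Q hQ i
    have h1 : ∀ s, (⟨i, s⟩ : Ch m) ∈ F → ∀ a ∈ Ws (D i) s, ∀ v,
        a ((P.1 i - X i) v) + Complex.I * a (Q.1 i v) = 0 := by
      intro s hs a ha v
      have h2 := LinearMap.congr_fun (hCF ⟨i, s⟩ hs a ha) v
      have h2' : C.1 i a v = pre (X i) a v := h2
      rw [hPQ] at h2'
      have h3 : pre (X i) a v = a (X i v) := rfl
      rw [h3] at h2'
      rw [LinearMap.sub_apply, map_sub]
      linear_combination h2'
    have h2 : ∀ s, ∀ a ∈ Ws (D i) s, ∀ v,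
        a ((P.1 i - X i) v) + Complex.I * a (Q.1 i v) = 0 := by
      intro s
      rcases hF ⟨i, s⟩ with hs | hs
      · exact h1 s hs
      · have h3 := Real_aux.key (D i) (hm i) htop (P.1 i - X i) (Q.1 i)
          (Real_aux.isU_sub (D i) (P.1 i) (X i) uP (hX i)) uQ (-s) (h1 (-s) hs)
        rw [neg_neg] at h3
        exact h3
    have h3 : ∀ a : Frm (T i), ∀ v, a ((P.1 i - X i) v) + Complex.I * a (Q.1 i v) = 0 := by
      intro a
      have ha : a ∈ ⨆ s, Ws (D i) s := by
        rw [htop]
        exact Submodule.mem_top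
      induction ha using Submodule.iSup_induction' with
      | mem t a ha => exact h2 t a ha
      | zero =>
        intro v
        simp
      | add a c _ _ h1 h2 =>
        intro v
        rw [LinearMap.add_apply, LinearMap.add_apply]
        linear_combination h1 v + h2 v
    refine LinearMap.ext fun v => ?_
    refine (sub_eq_zero.1 (Real_aux.nd (D i) _ fun w => ?_)).symm
    have h5 := h3 (Complex.ofRealCLM.toLinearMap ∘ₗ (D i).ψ w) v
    have h6 := congrArg Complex.re h5
    simp at h6
    rw [(D i).alt, map_sub, h6, neg_zero]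
  have h6 : ((X, 0) : TB T B) = P := by
    rw [h4, ← h5]
  rw [h6]
  exact hP

end SER
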