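import Pool.Agent.Lib.SE.R.Spec
import Pool.Agent.Lib.SE.Big.RatSp

/-!
# PROJECT SE-R, module Rt (helper61): rational components
-/

set_option autoImplicit false

open Module

noncomputable section

namespace SER

open HC HC.E HC.SE SEB SEQ

namespace Rt_aux

/-- A relation between rational endomorphisms with coefficients independent over `ℚ`. -/
theorem zero_of (T0 : AV) {d : ℕ} (lam : Fin d → ℂ) (hl : LinearIndependent ℚ lam)
    (X : Fin d → Module.End ℝ T0.V) (hX : ∀ t, RatEnd T0 (X t))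
    (h : ∑ t, lam t • pre (X t) = 0) : ∀ t, X t = 0 := by
  classical
  obtain ⟨κ, _, b, hb1, hb2⟩ := SEB.RatSp_aux.lat_basis T0
  have key : ∀ i j t, b.repr (X t (b j)) i = 0 := by
    intro i j
    have hr : ∀ t, ∃ r : ℚ, b.repr (X t (b j)) i = r := fun t =>
      SEB.RatSp_aux.co b hb2 (hX t _ (hb1 j)) i
    choose r hr using hr
    have h0 : ∑ t, r t • lam t = 0 := by
      have h1 : (∑ t, lam t • pre (X t) : Module.End ℂ (Frm T0)) (SEB.RatSp_aux.fb b i) (b j) =
          0 := by
        rw [h]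
        rfl
      rw [LinearMap.sum_apply, LinearMap.sum_apply] at h1
      rw [← h1]
      refine Finset.sum_congr rfl fun t _ => ?_
      rw [LinearMap.smul_apply, LinearMap.smul_apply, SEB.RatSp_aux.pre_apply,
        SEB.RatSp_aux.fb_apply, hr t, Rat.smul_def, smul_eq_mul, mul_comm]
      simp
    intro t
    rw [hr, Fintype.linearIndependent_iff.1 hl r h0 t]
    simp
  intro t
  refine b.ext fun j => ?_
  rw [← b.sum_repr (X t (b j))]
  exact Finset.sum_eq_zero fun i _ => by rw [key i j t, zero_smul]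

variable {q : ℕ} {T : Fin q → AV} {m : Fin q → ℕ} {D : ∀ i, Cyc (T i) (m i)} {B : AV} {ι : Type}
  {G : GC B ι} {h : Set (TB T B)}

theorem com_mem (hh : HLieR D G h) {Y : TB T B} (hY : Y ∈ ComR h) : Y ∈ h := by
  obtain ⟨X, hX, X', hX', rfl⟩ := hY
  exact hh.br X hX X' hX'

theorem sum_mem (hh : HLieR D G h) {α : Type} (s : Finset α) (x : α → ℚ) (Y : α → TB T B)
    (hY : ∀ j, Y j ∈ h) : ∑ j ∈ s, (x j : ℝ) • Y j ∈ h := by
  classical
  induction s using Finset.induction_on with
  | empty => exact hh.zero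
  | insert a s ha ih =>
    rw [Finset.sum_insert ha]
    exact hh.add _ (hh.smul _ _ (hY a)) _ ih

theorem pre_zero (T0 : AV) : pre (0 : Module.End ℝ T0.V) = 0 :=
  LinearMap.ext fun a => LinearMap.ext fun _ => map_zero a

theorem preR_zero : preR (0 : TB T B) = 0 := by
  refine Prod.ext (funext fun i => ?_) ?_
  · exact pre_zero (T i)
  · exact pre_zero B

theorem preR_add (X Y : TB T B) : preR (X + Y) = preR X + preR Y := by
  refine Prod.ext (funext fun i => ?_) ?_
  · exact LinearMap.ext fun a => LinearMap.ext fun v => map_add a _ _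
  · exact LinearMap.ext fun a => LinearMap.ext fun v => map_add a _ _

theorem preR_smul (r : ℝ) (X : TB T B) : preR (r • X) = (r : ℂ) • preR X := by
  refine Prod.ext (funext fun i => ?_) ?_
  · exact LinearMap.ext fun a => LinearMap.ext fun v => map_smul a r _
  · exact LinearMap.ext fun a => LinearMap.ext fun v => map_smul a r _

theorem preR_sum {α : Type} (s : Finset α) (x : α → ℝ) (Y : α → TB T B) :
    preR (∑ j ∈ s, x j • Y j) = ∑ j ∈ s, (x j : ℂ) • preR (Y j) := by
  classical
  induction s using Finset.induction_on with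
  | empty => rw [Finset.sum_empty, Finset.sum_empty, preR_zero]
  | insert a s ha ih => rw [Finset.sum_insert ha, Finset.sum_insert ha, preR_add, preR_smul, ih]

/-- components of a sum -/
theorem fst_sum {d : ℕ} (lam : Fin d → ℂ) (Y : Fin d → TB T B) (k : Fin q) :
    (∑ t, lam t • preR (Y t)).1 k = ∑ t, lam t • pre ((Y t).1 k) := by
  rw [Prod.fst_sum, Finset.sum_apply]
  rfl

theorem snd_sum {d : ℕ} (lam : Fin d → ℂ) (Y : Fin d → TB T B) :
    (∑ t, lam t • preR (Y t)).2 = ∑ t, lam t • pre (Y t).2 := by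
  rw [Prod.snd_sum]
  rfl

end Rt_aux

open Rt_aux

theorem tRt : S_Rt := by
  classical
  intro q T m D B ι G h hh i hN
  obtain ⟨N, hN, hN2, hNk, hNi⟩ := hN
  obtain ⟨n, c, Y, hNY⟩ := Submodule.mem_span_set'.1 hN
  have hY : ∀ j, ∃ Z ∈ ComR h, preR Z = (Y j : CB T B) := fun j => (Y j).2
  choose Z hZ hZY using hY
  -- the rational span of the coefficients
  let S : Submodule ℚ ℂ := Submodule.span ℚ (Set.range c)
  have hS : Module.Finite ℚ S := Module.Finite.span_of_finite ℚ (Set.finite_range _)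
  let e : Module.Basis (Fin (Module.finrank ℚ S)) ℚ S := Module.finBasis ℚ S
  have hmem : ∀ j, c j ∈ S := fun j => Submodule.subset_span ⟨j, rfl⟩
  let x : Fin (Module.finrank ℚ S) → Fin n → ℚ := fun t j => e.repr ⟨_, hmem j⟩ t
  have hx : ∀ j, c j = ∑ t, (x t j : ℂ) * (e t : ℂ) := by
    intro j
    have h1 := congrArg (fun x : S => (x : ℂ)) (e.sum_repr ⟨_, hmem j⟩)
    simp only [AddSubmonoidClass.coe_finsetSum, Submodule.coe_smul] at h1
    rw [← h1]
    refine Finset.sum_congr rfl fun k _ => ?_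
    rw [Rat.smul_def]
  have hl : LinearIndependent ℚ fun t => (e t : ℂ) :=
    e.linearIndependent.map' S.subtype (Submodule.ker_subtype S)
  let W : Fin (Module.finrank ℚ S) → TB T B := fun t => ∑ j, ((x t j : ℚ) : ℝ) • Z j
  have hWh : ∀ t, W t ∈ h := fun t => sum_mem hh _ _ _ fun j => com_mem hh (hZ j)
  have hWs : ∀ t, W t ∈ Submodule.span ℝ (ComR h) := fun t =>
    Submodule.sum_mem _ fun j _ => Submodule.smul_mem _ _ (Submodule.subset_span (hZ j))
  have hNW : N = ∑ t, (e t : ℂ) • preR (W t) := by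
    have h1 : ∀ t, preR (W t) = ∑ j, (((x t j : ℚ) : ℝ) : ℂ) • preR (Z j) := fun t =>
      preR_sum _ _ _
    simp only [h1, Finset.smul_sum]
    rw [Finset.sum_comm, ← hNY]
    refine Finset.sum_congr rfl fun j _ => ?_
    rw [← hZY j, hx j, Finset.sum_smul]
    refine Finset.sum_congr rfl fun t _ => ?_
    rw [smul_smul, mul_comm]
    simp
  have hW2 : ∀ t, (W t).2 = 0 := by
    refine zero_of B _ hl (fun t => (W t).2) (fun t => (hh.rat _ (hWh t)).2) ?_
    rw [← snd_sum, ← hNW]
    exact hN2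
  have hWk : ∀ k, k ≠ i → ∀ t, (W t).1 k = 0 := by
    intro k hk
    refine zero_of (T k) _ hl (fun t => (W t).1 k) (fun t => (hh.rat _ (hWh t)).1 k) ?_
    rw [← fst_sum, ← hNW]
    exact hNk k hk
  have hWi : ∃ t, (W t).1 i ≠ 0 := by
    by_contra hc
    push Not at hc
    apply hNi
    rw [hNW, fst_sum]
    refine Finset.sum_eq_zero fun t _ => ?_
    rw [hc t, pre_zero, smul_zero]
  obtain ⟨t, ht⟩ := hWi
  exact ⟨W t, hWh t, hWs t, hW2 t, fun k hk => hWk k hk t, ht⟩

end SER
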