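import Pool.Agent.Lib.SE.R.Spec
import Pool.Agent.Lib.SE.Big.Gou

/-!
# PROJECT SE-R, module Sim: `sl(W)` is simple
-/

set_option autoImplicit false

open Module

noncomputable section

namespace SER

open SEB

theorem tSim : S_Sim := by
  intro W _ _ _ N h0 hN hex x hx
  obtain ⟨n, hn, hn0⟩ := hex
  rcases Gou_aux.dich N h0 (fun n hn y hy => hN n hn y hy) with h | h
  · exact absurd (h n hn) hn0
  · exact h x hx

end SER
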