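import Pool.Agent.Lib.SE.R.Spec
import Pool.Agent.Lib.SE.Big.Tr
import Pool.Agent.Lib.SE.Big.Bas
import Pool.Agent.Lib.SE.Big.Pj

/-!
# PROJECT SE-R: `SuR`, the product of the `su_i` (helper73)
-/

set_option autoImplicit false

open Module

noncomputable section

namespace SER

open HC HC.E HC.SE SEB SEQ

namespace SuR_aux

theorem ne_neg {m : ℕ} (hm : 3 ≤ m) (s : (ZMod m)ˣ) :
    (s : ZMod m) ≠ ((-s : (ZMod m)ˣ) : ZMod m) := by
  intro h
  rw [Units.val_neg] at h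
  have h2 : (2 : ZMod m) * (s : ZMod m) = 0 := by
    rw [two_mul]
    nth_rewrite 2 [h]
    exact add_neg_cancel _
  have h3 : (2 : ZMod m) = 0 := by
    have := congrArg (fun x => x * ((s⁻¹ : (ZMod m)ˣ) : ZMod m)) h2
    simpa [mul_assoc] using this
  have h4 : ((2 : ℕ) : ZMod m) = 0 := by exact_mod_cast h3
  rw [ZMod.natCast_eq_zero_iff] at h4
  exact absurd (Nat.le_of_dvd (by norm_num) h4) (by omega)

/-- a half system of characters -/
theorem half {m : ℕ} (hm : 3 ≤ m) :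
    ∃ F : Set (ZMod m)ˣ, (∀ s, s ∈ F ∨ -s ∈ F) ∧ ∀ s ∈ F, -s ∉ F := by
  have : NeZero m := ⟨by omega⟩
  refine ⟨{s | (s : ZMod m).val < ((-s : (ZMod m)ˣ) : ZMod m).val}, fun s => ?_, fun s hs => ?_⟩
  · rcases lt_trichotomy (s : ZMod m).val ((-s : (ZMod m)ˣ) : ZMod m).val with h | h | h
    · exact Or.inl h
    · exact absurd (ZMod.val_injective m h) (ne_neg hm s)
    · right
      change ((-s : (ZMod m)ˣ) : ZMod m).val < ((-(-s) : (ZMod m)ˣ) : ZMod m).val
      rw [neg_neg]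
      exact h
  · intro h
    change ((-s : (ZMod m)ˣ) : ZMod m).val < ((-(-s) : (ZMod m)ˣ) : ZMod m).val at h
    rw [neg_neg] at h
    exact absurd (lt_trans hs h) (lt_irrefl _)

theorem com_u {T : AV} {m : ℕ} (D : Cyc T m) {X X' : Module.End ℝ T.V} (h : IsU D X)
    (h' : IsU D X') : IsU D (X * X' - X' * X) := by
  refine ⟨fun v => ?_, fun u v => ?_⟩
  · simp only [LinearMap.sub_apply, Module.End.mul_apply, h.1, h'.1, map_sub]
  · simp only [LinearMap.sub_apply, Module.End.mul_apply, map_sub]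
    have e1 := h.2 (X' u) v
    have e2 := h'.2 (X u) v
    have e3 := h.2 u (X' v)
    have e4 := h'.2 u (X v)
    linarith

end SuR_aux

open SuR_aux in
theorem tSuR : S_SuR := by
  intro hR q T m D hm B ι G h hh hits X hX
  choose F hF1 hF2 using fun i => half (hm i)
  have hB : S_Bas := tBas tPj
  choose A hA1 hA2 using fun x : Ch m =>
    tTr tPj hB (T x.1) (m x.1) (D x.1) (hm x.1) (X x.1) (hX x.1) x.2
  obtain ⟨C, hC, hC2, hCF⟩ := hits {x : Ch m | x.2 ∈ F x.1} (fun x hx => hF2 x.1 x.2 hx) A hA1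
  refine hR q T m D hm B (ComR h) X ?_ (fun i => (hX i).1) {x : Ch m | x.2 ∈ F x.1}
    (fun x => hF1 x.1 x.2) C hC hC2 fun x hx a ha => ?_
  · rintro Y ⟨Y₁, h₁, Y₂, h₂, rfl⟩ i
    exact com_u (D i) (hh.u _ h₁ i) (hh.u _ h₂ i)
  · exact (hCF x hx ⟨a, ha⟩).trans (hA2 x ⟨a, ha⟩).symm

end SER
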