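import Pool.Agent.Lib.SE.R.Fn3
import Pool.Agent.Lib.SE.R.Nab
import Pool.Agent.Lib.SE.R.Sim
import Pool.Agent.Lib.SE.R.Nsc
import Pool.Agent.Lib.SE.R.PjR
import Pool.Agent.Lib.SE.R.ClR
import Pool.Agent.Lib.SE.R.Cmt
import Pool.Agent.Lib.SE.R.Non
import Pool.Agent.Lib.SE.R.Rt
import Pool.Agent.Lib.SE.R.Idn
import Pool.Agent.Lib.SE.R.IdA
import Pool.Agent.Lib.SE.R.ReR
import Pool.Agent.Lib.SE.R.SuR
import Pool.Agent.Lib.SE.R.JB

/-!
# PROJECT SE-R: the Lie algebra part, without hypotheses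
-/

set_option autoImplicit false

noncomputable section

namespace SER

/-- **THE LIE ALGEBRA PART.** -/
theorem lrf : LRF :=
  lrf_of tNab tSim tNsc tPjR tClR tCmt tNon tRt tIdn tIdA tReR tSuR tJB

end SER
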