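import Pool.Agent.Lib.SE.R.Spec2
import Pool.Agent.Lib.HC.L.Lc3

/-!
# PROJECT SE-R, module LX: the Hodge Lie algebra, abstractly
-/

set_option autoImplicit false

open Module

noncomputable section

namespace SER

open HC HC.E HC.SE SEB SEQ SE

theorem tLX : S_LX := by
  intro hLa hLa' hLb T E _ _ Θ M i₀ hlie hrat h0 hadd hsmul hbr hi hΘ hker d c hc
  have hJ : mulI T ∈ Submodule.span ℝ (Θ '' M) := by
    rw [← Submodule.map_span, ← hΘ]
    exact Submodule.mem_map_of_mem hi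
  obtain ⟨n, ρ, Z, hZJ, hZr, hZM, hZc⟩ := hLb T (mulI T) (Θ '' M)
    (by rintro _ ⟨x, hx, rfl⟩; exact hrat x hx) hJ
  have hZk : ∀ s, Z s ∈ HC.Lc3.kill c := fun s => hZc d c hc.1 (hLa T d c hc) s
  have hneg : ∀ x ∈ M, -x ∈ M := by
    intro x hx
    have h1 := hsmul (-1) x hx
    have h2 : (((-1 : ℚ) : ℝ)) • x = -x := by
      rw [Rat.cast_neg, Rat.cast_one, neg_smul, one_smul]
    rw [h2] at h1
    exact h1
  have hZE : ∀ s, ∃ x ∈ M, Z s = Θ x := by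
    intro s
    refine AddSubgroup.closure_induction (p := fun Z _ => ∃ x ∈ M, Z = Θ x) ?_ ?_ ?_ ?_ (hZM s)
    · rintro _ ⟨_, ⟨x, hx, rfl⟩, q, rfl⟩
      exact ⟨(q : ℝ) • x, hsmul q x hx, (map_smul Θ (q : ℝ) x).symm⟩
    · exact ⟨0, h0, (map_zero Θ).symm⟩
    · rintro _ _ _ _ ⟨x, hx, rfl⟩ ⟨y, hy, rfl⟩
      exact ⟨x + y, hadd x hx y hy, (map_add Θ x y).symm⟩
    · rintro _ _ ⟨x, hx, rfl⟩
      exact ⟨-x, hneg x hx, (map_neg Θ x).symm⟩
  choose x hxM hxZ using hZE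
  let h : Set E := {x | x ∈ M ∧ Θ x ∈ HC.Lc3.kill c}
  have hbrk : ∀ x ∈ h, ∀ y ∈ h, Θ (x * y - y * x) ∈ HC.Lc3.kill c := by
    intro x hx y hy
    rw [hlie]
    exact hLa' T d c _ _ hx.2 hy.2
  have hxh : ∀ s, x s ∈ h := by
    intro s
    refine ⟨hxM s, ?_⟩
    rw [← hxZ s]
    exact hZk s
  refine ⟨h, fun x hx => hx.1, ⟨h0, ?_⟩, ?_, ?_, ?_, ?_, ?_⟩
  · rw [map_zero]
    exact Submodule.zero_mem _
  · intro x hx y hy
    refine ⟨hadd x hx.1 y hy.1, ?_⟩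
    rw [map_add]
    exact Submodule.add_mem _ hx.2 hy.2
  · intro z x hx
    refine ⟨hsmul z x hx.1, ?_⟩
    rw [map_smul]
    exact Submodule.smul_mem _ _ hx.2
  · intro x hx y hy
    exact ⟨hbr x hx.1 y hy.1, hbrk x hx y hy⟩
  · have h1 : (∑ s, ρ s • x s) ∈ Submodule.span ℝ h :=
      Submodule.sum_mem _ fun s _ => Submodule.smul_mem _ _ (Submodule.subset_span (hxh s))
    have h2 : i₀ - (∑ s, ρ s • x s) ∈ Submodule.span ℝ M :=
      Submodule.sub_mem _ hi (Submodule.sum_mem _ fun s _ =>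
        Submodule.smul_mem _ _ (Submodule.subset_span (hxM s)))
    have h3 : Θ (i₀ - (∑ s, ρ s • x s)) = 0 := by
      rw [map_sub, map_sum, hΘ, hZJ, sub_eq_zero]
      refine Finset.sum_congr rfl fun s _ => ?_
      rw [map_smul, hxZ s]
    have h4 : Submodule.span ℝ {y | y ∈ M ∧ Θ y = 0} ≤ Submodule.span ℝ h := by
      refine Submodule.span_mono fun y hy => ⟨hy.1, ?_⟩
      rw [hy.2]
      exact Submodule.zero_mem _
    have h5 := Submodule.add_mem _ (h4 (hker _ h2 h3)) h1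
    rw [sub_add_cancel] at h5
    exact h5
  · intro z hz
    have h6 : Submodule.span ℝ {z | ∃ x ∈ h, ∃ y ∈ h, z = x * y - y * x} ≤
        (HC.Lc3.kill c).comap Θ := by
      refine Submodule.span_le.2 ?_
      rintro _ ⟨x, hx, y, hy, rfl⟩
      exact hbrk x hx y hy
    exact h6 hz

end SER
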