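import Pool.Agent.Lib.SE.R.Spec2
import Pool.Agent.Lib.SE.W.Lie
import Pool.Agent.Lib.SE.Big.Hl

/-!
# PROJECT SE-R: the operators (helper35)

`tOp4 : S_Op4`: the operators of `T ≅ ((A × ∏ R_(k n)) × ∏ J_(j n)) × B` and the `ℚ`-Lie algebra of
rational elements.
-/

set_option autoImplicit false

open Module

noncomputable section

namespace SER

open HC HC.E HC.SE SEB SEQ SE

namespace Op4_aux

open SE.Lie_aux (rat_zero rat_add rat_neg rat_qsmul prodE)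
open SEB.Hl_aux (isU_zero isU_add isU_smul isU_br)

section

variable {A T B : AV} {q₁ N₁ q N : ℕ} {R : Fin q₁ → AV} {k : Fin N₁ → Fin q₁}
  {J : Fin q → AV} {j : Fin N → Fin q}

/-- The operator in the coordinates. -/
def val (k : Fin N₁ → Fin q₁) (j : Fin N → Fin q) (x : E4 A R J B)
    (w : ((A.V × (∀ n, (R (k n)).V)) × (∀ n, (J (j n)).V)) × B.V) :
    ((A.V × (∀ n, (R (k n)).V)) × (∀ n, (J (j n)).V)) × B.V :=
  (((x.1 w.1.1.1, fun n => x.2.1 (k n) (w.1.1.2 n)), fun n => x.2.2.1 (j n) (w.1.2 n)),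
    x.2.2.2 w.2)

theorem w_ext {w w' : ((A.V × (∀ n, (R (k n)).V)) × (∀ n, (J (j n)).V)) × B.V}
    (h1 : w.1.1.1 = w'.1.1.1) (h2 : ∀ n, w.1.1.2 n = w'.1.1.2 n)
    (h3 : ∀ n, w.1.2 n = w'.1.2 n) (h4 : w.2 = w'.2) : w = w' :=
  Prod.ext (Prod.ext (Prod.ext h1 (funext h2)) (funext h3)) h4

variable (ψ : T.V ≃ₗ[ℂ] ((A.V × (∀ n, (R (k n)).V)) × (∀ n, (J (j n)).V)) × B.V)

/-- The operator of `x`. -/
def Op (x : E4 A R J B) : Module.End ℝ T.V where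
  toFun v := ψ.symm (val k j x (ψ v))
  map_add' v w := by
    rw [← map_add, map_add ψ]
    congr 1
    refine w_ext ?_ (fun n => ?_) (fun n => ?_) ?_
    · exact map_add x.1 _ _
    · exact map_add (x.2.1 (k n)) _ _
    · exact map_add (x.2.2.1 (j n)) _ _
    · exact map_add x.2.2.2 _ _
  map_smul' r v := by
    have h1 : ψ (r • v) = (r : ℂ) • ψ v := by
      rw [← map_smul]
      congr 1
    have h3 : val k j x ((r : ℂ) • ψ v) = (r : ℂ) • val k j x (ψ v) := by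
      refine w_ext ?_ (fun n => ?_) (fun n => ?_) ?_
      · show x.1 ((r : ℂ) • (ψ v).1.1.1) = (r : ℂ) • x.1 (ψ v).1.1.1
        rw [Complex.coe_smul, Complex.coe_smul, map_smul]
      · show x.2.1 (k n) ((r : ℂ) • (ψ v).1.1.2 n) = (r : ℂ) • x.2.1 (k n) ((ψ v).1.1.2 n)
        rw [Complex.coe_smul, Complex.coe_smul, map_smul]
      · show x.2.2.1 (j n) ((r : ℂ) • (ψ v).1.2 n) = (r : ℂ) • x.2.2.1 (j n) ((ψ v).1.2 n)
        rw [Complex.coe_smul, Complex.coe_smul, map_smul]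
      · show x.2.2.2 ((r : ℂ) • (ψ v).2) = (r : ℂ) • x.2.2.2 (ψ v).2
        rw [Complex.coe_smul, Complex.coe_smul, map_smul]
    show ψ.symm (val k j x (ψ (r • v))) = r • ψ.symm (val k j x (ψ v))
    rw [h1, h3, map_smul ψ.symm]
    exact Complex.coe_smul r _

theorem psi_Op (x : E4 A R J B) (v : T.V) : ψ (Op ψ x v) = val k j x (ψ v) :=
  ψ.apply_symm_apply _

theorem ext_psi {Z Z' : Module.End ℝ T.V} (h : ∀ v, ψ (Z v) = ψ (Z' v)) : Z = Z' :=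
  LinearMap.ext fun v => ψ.injective (h v)

theorem Op_add (x y : E4 A R J B) : Op ψ (x + y) = Op ψ x + Op ψ y :=
  ext_psi ψ fun v => by
    rw [psi_Op, LinearMap.add_apply, map_add, psi_Op, psi_Op]
    rfl

theorem Op_smul (r : ℝ) (x : E4 A R J B) : Op ψ (r • x) = r • Op ψ x :=
  ext_psi ψ fun v => by
    have h1 : ψ ((r • Op ψ x) v) = (r : ℂ) • ψ (Op ψ x v) := by
      rw [← map_smul]
      congr 1
    rw [h1, psi_Op, psi_Op]
    refine w_ext ?_ (fun n => ?_) (fun n => ?_) ?_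
    · exact (Complex.coe_smul r (x.1 (ψ v).1.1.1)).symm
    · exact (Complex.coe_smul r (x.2.1 (k n) ((ψ v).1.1.2 n))).symm
    · exact (Complex.coe_smul r (x.2.2.1 (j n) ((ψ v).1.2 n))).symm
    · exact (Complex.coe_smul r (x.2.2.2 (ψ v).2)).symm

theorem Op_mul (x y : E4 A R J B) : Op ψ (x * y) = Op ψ x * Op ψ y :=
  ext_psi ψ fun v => by
    rw [psi_Op, Module.End.mul_apply, psi_Op, psi_Op]
    rfl

/-- The operator depends linearly on `x`. -/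
def OpL : E4 A R J B →ₗ[ℝ] Module.End ℝ T.V where
  toFun x := Op ψ x
  map_add' x y := Op_add ψ x y
  map_smul' r x := Op_smul ψ r x

theorem OpL_apply (x : E4 A R J B) : OpL ψ x = Op ψ x := rfl

theorem Op_lie (x y : E4 A R J B) : OpL ψ (x * y - y * x) = OpL ψ x * OpL ψ y - OpL ψ y * OpL ψ x := by
  rw [map_sub, OpL_apply, OpL_apply, OpL_apply, OpL_apply, Op_mul, Op_mul]

theorem Op_mulI : OpL ψ ((mulI A, JT R, JT J, mulI B) : E4 A R J B) = mulI T :=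
  ext_psi ψ fun v => by
    rw [OpL_apply, psi_Op]
    exact (map_smul ψ Complex.I v).symm

section

variable {ψ}

theorem ker0 {x : E4 A R J B} (h : OpL ψ x = 0)
    (w : ((A.V × (∀ n, (R (k n)).V)) × (∀ n, (J (j n)).V)) × B.V) : val k j x w = 0 := by
  have h1 : ψ (OpL ψ x (ψ.symm w)) = val k j x w := by
    rw [OpL_apply, psi_Op, LinearEquiv.apply_symm_apply]
  rw [← h1, h, LinearMap.zero_apply, map_zero]

theorem ker1 {x : E4 A R J B} (h : OpL ψ x = 0) : x.1 = 0 :=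
  LinearMap.ext fun u => congrArg (fun w => w.1.1.1) (ker0 h (((u, 0), 0), 0))

theorem ker2 {x : E4 A R J B} (h : OpL ψ x = 0) (n : Fin N₁) : x.2.1 (k n) = 0 := by
  refine LinearMap.ext fun u => ?_
  have h2 : x.2.1 (k n) ((Pi.single n u : ∀ n, (R (k n)).V) n) = 0 :=
    congrArg (fun w => w.1.1.2 n) (ker0 h (((0, Pi.single n u), 0), 0))
  rw [Pi.single_eq_same] at h2
  exact h2

theorem ker3 {x : E4 A R J B} (h : OpL ψ x = 0) (n : Fin N) : x.2.2.1 (j n) = 0 := by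
  refine LinearMap.ext fun u => ?_
  have h2 : x.2.2.1 (j n) ((Pi.single n u : ∀ n, (J (j n)).V) n) = 0 :=
    congrArg (fun w => w.1.2 n) (ker0 h (((0, 0), Pi.single n u), 0))
  rw [Pi.single_eq_same] at h2
  exact h2

theorem ker4 {x : E4 A R J B} (h : OpL ψ x = 0) : x.2.2.2 = 0 :=
  LinearMap.ext fun u => congrArg (fun w => w.2) (ker0 h (((0, 0), 0), u))

end

/-! ### The components -/

/-- `(X, 0, 0, 0)`. -/
def c1 (A : AV) (R : Fin q₁ → AV) (J : Fin q → AV) (B : AV) :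
    Module.End ℝ A.V →ₗ[ℝ] E4 A R J B := LinearMap.inl ℝ _ _

/-- `(0, (X at i), 0, 0)`. -/
def c2 (A : AV) (R : Fin q₁ → AV) (J : Fin q → AV) (B : AV) (i : Fin q₁) :
    Module.End ℝ (R i).V →ₗ[ℝ] E4 A R J B :=
  LinearMap.inr ℝ _ _ ∘ₗ LinearMap.inl ℝ _ _ ∘ₗ
    LinearMap.single ℝ (fun i => Module.End ℝ (R i).V) i

/-- `(0, 0, (X at i), 0)`. -/
def c3 (A : AV) (R : Fin q₁ → AV) (J : Fin q → AV) (B : AV) (i : Fin q) :
    Module.End ℝ (J i).V →ₗ[ℝ] E4 A R J B :=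
  LinearMap.inr ℝ _ _ ∘ₗ LinearMap.inr ℝ _ _ ∘ₗ LinearMap.inl ℝ _ _ ∘ₗ
    LinearMap.single ℝ (fun i => Module.End ℝ (J i).V) i

/-- `(0, 0, 0, X)`. -/
def c4 (A : AV) (R : Fin q₁ → AV) (J : Fin q → AV) (B : AV) :
    Module.End ℝ B.V →ₗ[ℝ] E4 A R J B :=
  LinearMap.inr ℝ _ _ ∘ₗ LinearMap.inr ℝ _ _ ∘ₗ LinearMap.inr ℝ _ _

theorem c1_apply (X : Module.End ℝ A.V) : c1 A R J B X = (X, 0, 0, 0) := rfl

theorem c2_apply (i : Fin q₁) (X : Module.End ℝ (R i).V) :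
    c2 A R J B i X = (0, Pi.single i X, 0, 0) := rfl

theorem c3_apply (i : Fin q) (X : Module.End ℝ (J i).V) :
    c3 A R J B i X = (0, 0, Pi.single i X, 0) := rfl

theorem c4_apply (X : Module.End ℝ B.V) : c4 A R J B X = (0, 0, 0, X) := rfl

theorem decomp (x : E4 A R J B) : x = c1 A R J B x.1 + ∑ i, c2 A R J B i (x.2.1 i) +
    ∑ i, c3 A R J B i (x.2.2.1 i) + c4 A R J B x.2.2.2 := by
  have h2 : ∑ i, c2 A R J B i (x.2.1 i) = ((0, x.2.1, 0, 0) : E4 A R J B) := by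
    have e := map_sum (LinearMap.inr ℝ (Module.End ℝ A.V) _ ∘ₗ
      LinearMap.inl ℝ (Tup R) (Tup J × Module.End ℝ B.V))
      (fun i => (Pi.single i (x.2.1 i) : Tup R)) Finset.univ
    rw [Finset.univ_sum_single] at e
    exact e.symm
  have h3 : ∑ i, c3 A R J B i (x.2.2.1 i) = ((0, 0, x.2.2.1, 0) : E4 A R J B) := by
    have e := map_sum (LinearMap.inr ℝ (Module.End ℝ A.V) _ ∘ₗ LinearMap.inr ℝ (Tup R) _ ∘ₗ
      LinearMap.inl ℝ (Tup J) (Module.End ℝ B.V))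
      (fun i => (Pi.single i (x.2.2.1 i) : Tup J)) Finset.univ
    rw [Finset.univ_sum_single] at e
    exact e.symm
  rw [h2, h3, c1_apply, c4_apply]
  simp only [Prod.mk_add_mk, add_zero, zero_add]

theorem Op_c2 {i : Fin q₁} (hi : ∀ n, k n ≠ i) (X : Module.End ℝ (R i).V) :
    OpL ψ (c2 A R J B i X) = 0 :=
  ext_psi ψ fun v => by
    rw [OpL_apply, psi_Op, LinearMap.zero_apply, map_zero, c2_apply]
    refine w_ext rfl (fun n => ?_) (fun n => rfl) rfl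
    show (Pi.single i X : Tup R) (k n) ((ψ v).1.1.2 n) = 0
    rw [Pi.single_eq_of_ne (hi n), LinearMap.zero_apply]

theorem Op_c3 {i : Fin q} (hi : ∀ n, j n ≠ i) (X : Module.End ℝ (J i).V) :
    OpL ψ (c3 A R J B i X) = 0 :=
  ext_psi ψ fun v => by
    rw [OpL_apply, psi_Op, LinearMap.zero_apply, map_zero, c3_apply]
    refine w_ext rfl (fun n => rfl) (fun n => ?_) rfl
    show (Pi.single i X : Tup J) (j n) ((ψ v).1.2 n) = 0
    rw [Pi.single_eq_of_ne (hi n), LinearMap.zero_apply]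

/-! ### Rationality -/

theorem dvd_mem {C : AV} {v : C.V} {a b : ℕ} (h : a ∣ b) (hv : a • v ∈ C.L) : b • v ∈ C.L := by
  obtain ⟨d, rfl⟩ := h
  rw [mul_comm, mul_smul]
  exact C.L.smul_of_tower_mem _ hv

theorem rat_Op
    (hψ : ∀ v ∈ T.L, ∃ z : ℕ, z ≠ 0 ∧ ((z • (ψ v).1.1.1 ∈ A.L ∧
      ∀ n, z • (ψ v).1.1.2 n ∈ (R (k n)).L) ∧ ∀ n, z • (ψ v).1.2 n ∈ (J (j n)).L) ∧
      z • (ψ v).2 ∈ B.L)
    (hi : ∀ w : ((A.V × (∀ n, (R (k n)).V)) × (∀ n, (J (j n)).V)) × B.V, w.1.1.1 ∈ A.L →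
      (∀ n, w.1.1.2 n ∈ (R (k n)).L) → (∀ n, w.1.2 n ∈ (J (j n)).L) → w.2 ∈ B.L →
      ∃ z : ℕ, z ≠ 0 ∧ z • ψ.symm w ∈ T.L)
    {x : E4 A R J B} (h1 : RatEnd A x.1) (h2 : ∀ i, RatEnd (R i) (x.2.1 i))
    (h3 : ∀ i, RatEnd (J i) (x.2.2.1 i)) (h4 : RatEnd B x.2.2.2) : RatEnd T (OpL ψ x) := by
  intro v hv
  obtain ⟨z, hz, ⟨⟨g1, g2⟩, g3⟩, g4⟩ := hψ v hv
  obtain ⟨a, ha, f1⟩ := h1 _ g1
  choose b hb f2 using fun n => h2 (k n) _ (g2 n)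
  choose c hc f3 using fun n => h3 (j n) _ (g3 n)
  obtain ⟨d, hd, f4⟩ := h4 _ g4
  let M : ℕ := a * (∏ n, b n) * (∏ n, c n) * d
  have hM : M ≠ 0 := mul_ne_zero (mul_ne_zero (mul_ne_zero ha
    (Finset.prod_ne_zero_iff.2 fun n _ => hb n)) (Finset.prod_ne_zero_iff.2 fun n _ => hc n)) hd
  have d1 : a ∣ M := ((Dvd.intro _ rfl).mul_right _).mul_right _
  have d2 : ∀ n, b n ∣ M := fun n =>
    (((Finset.dvd_prod_of_mem b (Finset.mem_univ n)).mul_left a).mul_right _).mul_right _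
  have d3 : ∀ n, c n ∣ M := fun n =>
    ((Finset.dvd_prod_of_mem c (Finset.mem_univ n)).mul_left _).mul_right _
  have d4 : d ∣ M := Dvd.intro_left _ rfl
  obtain ⟨e, he, h5⟩ := hi ((M * z) • val k j x (ψ v)) (by
    show (M * z) • x.1 (ψ v).1.1.1 ∈ A.L
    rw [mul_smul, ← map_nsmul]
    exact dvd_mem d1 f1) (fun n => by
    show (M * z) • x.2.1 (k n) ((ψ v).1.1.2 n) ∈ (R (k n)).L
    rw [mul_smul, ← map_nsmul]
    exact dvd_mem (d2 n) (f2 n)) (fun n => by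
    show (M * z) • x.2.2.1 (j n) ((ψ v).1.2 n) ∈ (J (j n)).L
    rw [mul_smul, ← map_nsmul]
    exact dvd_mem (d3 n) (f3 n)) (by
    show (M * z) • x.2.2.2 (ψ v).2 ∈ B.L
    rw [mul_smul, ← map_nsmul]
    exact dvd_mem d4 f4)
  refine ⟨e * (M * z), mul_ne_zero he (mul_ne_zero hM hz), ?_⟩
  rw [map_nsmul] at h5
  rw [mul_smul]
  exact h5

/-- The inverse isogeny. -/
theorem inv_psi (hIso : E.S_IsoInv)
    (hψ : ∀ v ∈ T.L, ∃ z : ℕ, z ≠ 0 ∧ ((z • (ψ v).1.1.1 ∈ A.L ∧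
      ∀ n, z • (ψ v).1.1.2 n ∈ (R (k n)).L) ∧ ∀ n, z • (ψ v).1.2 n ∈ (J (j n)).L) ∧
      z • (ψ v).2 ∈ B.L)
    (w : ((A.V × (∀ n, (R (k n)).V)) × (∀ n, (J (j n)).V)) × B.V) (w1 : w.1.1.1 ∈ A.L)
    (w2 : ∀ n, w.1.1.2 n ∈ (R (k n)).L) (w3 : ∀ n, w.1.2 n ∈ (J (j n)).L) (w4 : w.2 ∈ B.L) :
    ∃ z : ℕ, z ≠ 0 ∧ z • ψ.symm w ∈ T.L := by
  obtain ⟨Y, θ, hθ⟩ := prodE N₁ A (fun n => R (k n))
  obtain ⟨Y', θ', hθ'⟩ := prodE N Y (fun n => J (j n))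
  obtain ⟨P⟩ := pL0 Y' B
  -- the isomorphism of `P.T` with the product
  obtain ⟨φ, hφ⟩ : ∃ φ : P.T.V ≃ₗ[ℂ] ((A.V × (∀ n, (R (k n)).V)) × (∀ n, (J (j n)).V)) × B.V,
      ∀ v, v ∈ P.T.L ↔ (((φ v).1.1.1 ∈ A.L ∧ ∀ n, (φ v).1.1.2 n ∈ (R (k n)).L) ∧
      ∀ n, (φ v).1.2 n ∈ (J (j n)).L) ∧ (φ v).2 ∈ B.L := by
    refine ⟨P.ψ ≪≫ₗ LinearEquiv.prodCongr
      (θ' ≪≫ₗ LinearEquiv.prodCongr θ (LinearEquiv.refl ℂ _)) (LinearEquiv.refl ℂ _), ?_⟩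
    intro v
    rw [P.lat, hθ', hθ]
    rfl
  have h1 := hIso T P.T (ψ ≪≫ₗ φ.symm) (fun v hv => by
    obtain ⟨z, hz, ⟨⟨g1, g2⟩, g3⟩, g4⟩ := hψ v hv
    refine ⟨z, hz, ?_⟩
    have e : φ (z • (ψ ≪≫ₗ φ.symm) v) = z • ψ v := by
      rw [map_nsmul, LinearEquiv.trans_apply, LinearEquiv.apply_symm_apply]
    rw [hφ, e]
    exact ⟨⟨⟨g1, g2⟩, g3⟩, g4⟩)
  obtain ⟨z, hz, h4⟩ := h1 (φ.symm w) (by
    rw [hφ, LinearEquiv.apply_symm_apply]
    exact ⟨⟨⟨w1, w2⟩, w3⟩, w4⟩)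
  refine ⟨z, hz, ?_⟩
  have h5 : (ψ ≪≫ₗ φ.symm).symm (φ.symm w) = ψ.symm w := by
    show ψ.symm (φ (φ.symm w)) = ψ.symm w
    rw [LinearEquiv.apply_symm_apply]
  rw [h5] at h4
  exact h4

end

theorem single_all {q : ℕ} {J : Fin q → AV} (i : Fin q) (X : Module.End ℝ (J i).V)
    (p : ∀ i, Module.End ℝ (J i).V → Prop) (h0 : ∀ i, p i 0) (hX : p i X) (i' : Fin q) :
    p i' ((Pi.single i X : Tup J) i') := by
  by_cases h : i' = i
  · subst h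
    rw [Pi.single_eq_same]
    exact hX
  · rw [Pi.single_eq_of_ne h]
    exact h0 i'

end Op4_aux

open Op4_aux in
theorem tOp4 : S_Op4 := by
  intro hHr hLc2 hIso A T B q₁ N₁ q N R k m₁ D₁ J j m D ι G ψ hA hψ
  have hi := inv_psi ψ hIso hψ
  obtain ⟨MA, hMr, hMc, hMs⟩ := hLc2 A hA
  let C : Subalgebra ℝ (Module.End ℝ A.V) := Subalgebra.centralizer ℝ (Set.centralizer MA)
  have hMC : ∀ X ∈ MA, X ∈ C := fun X hX =>
    Subalgebra.mem_centralizer_iff ℝ |>.2 fun g hg => (hg X hX).symm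
  have hCc : ∀ X ∈ C, ∀ X' ∈ C, X * X' = X' * X := by
    intro X hX X' hX'
    have h3 : X ∈ Set.centralizer MA := by
      intro g hg
      exact (Subalgebra.mem_centralizer_iff ℝ).1 hX g fun k hk => hMc k hk g hg
    exact (Subalgebra.mem_centralizer_iff ℝ).1 hX' X h3
  let M : Set (E4 A R J B) := {x | (x.1 ∈ C ∧ RatEnd A x.1) ∧
    (∀ i, RatEnd (R i) (x.2.1 i) ∧ IsU (D₁ i) (x.2.1 i)) ∧
    (∀ i, RatEnd (J i) (x.2.2.1 i) ∧ IsU (D i) (x.2.2.1 i)) ∧ x.2.2.2 ∈ G.s}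
  have z1 : (0 : Module.End ℝ A.V) ∈ C ∧ RatEnd A 0 := ⟨C.zero_mem, SE.Lie_aux.rat_zero⟩
  have z2 : ∀ i, RatEnd (R i) 0 ∧ IsU (D₁ i) 0 := fun i =>
    ⟨SE.Lie_aux.rat_zero, SEB.Hl_aux.isU_zero (D₁ i)⟩
  have z3 : ∀ i, RatEnd (J i) 0 ∧ IsU (D i) 0 := fun i =>
    ⟨SE.Lie_aux.rat_zero, SEB.Hl_aux.isU_zero (D i)⟩
  -- the components in `M`
  have m1 : ∀ X ∈ MA, c1 A R J B X ∈ M := fun X hX => ⟨⟨hMC X hX, hMr X hX⟩, z2, z3, G.lie.zero⟩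
  have m2 : ∀ i, ∀ X, RatEnd (R i) X ∧ IsU (D₁ i) X → c2 A R J B i X ∈ M := fun i X hX =>
    ⟨z1, fun i' => single_all i X (fun i X => RatEnd (R i) X ∧ IsU (D₁ i) X) z2 hX i', z3,
      G.lie.zero⟩
  have m3 : ∀ i, ∀ X, RatEnd (J i) X ∧ IsU (D i) X → c3 A R J B i X ∈ M := fun i X hX =>
    ⟨z1, z2, fun i' => single_all i X (fun i X => RatEnd (J i) X ∧ IsU (D i) X) z3 hX i',
      G.lie.zero⟩
  have m4 : ∀ X ∈ G.s, c4 A R J B X ∈ M := fun X hX => ⟨z1, z2, z3, hX⟩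
  refine ⟨OpL ψ, M, ⟨?_, Op_lie ψ, ?_, ?_, ?_, ?_, ?_, ?_, Op_mulI ψ, ?_, ?_, ?_, ?_, ?_⟩⟩
  · exact fun x v => psi_Op ψ x v
  · -- rationality
    rintro x ⟨⟨-, h1⟩, h2, h3, h4⟩
    exact rat_Op ψ hψ hi h1 (fun i => (h2 i).1) (fun i => (h3 i).1) (G.rat _ h4)
  · exact ⟨z1, z2, z3, G.lie.zero⟩
  · rintro x ⟨x1, x2, x3, x4⟩ y ⟨y1, y2, y3, y4⟩
    exact ⟨⟨C.add_mem x1.1 y1.1, SE.Lie_aux.rat_add x1.2 y1.2⟩,
      fun i => ⟨SE.Lie_aux.rat_add (x2 i).1 (y2 i).1, SEB.Hl_aux.isU_add (x2 i).2 (y2 i).2⟩,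
      fun i => ⟨SE.Lie_aux.rat_add (x3 i).1 (y3 i).1, SEB.Hl_aux.isU_add (x3 i).2 (y3 i).2⟩,
      G.lie.add _ x4 _ y4⟩
  · rintro z x ⟨x1, x2, x3, x4⟩
    exact ⟨⟨C.smul_mem x1.1 _, SE.Lie_aux.rat_qsmul x1.2 z⟩,
      fun i => ⟨SE.Lie_aux.rat_qsmul (x2 i).1 z, SEB.Hl_aux.isU_smul (x2 i).2 _⟩,
      fun i => ⟨SE.Lie_aux.rat_qsmul (x3 i).1 z, SEB.Hl_aux.isU_smul (x3 i).2 _⟩,
      G.lie.smul z _ x4⟩
  · rintro x ⟨x1, x2, x3, x4⟩ y ⟨y1, y2, y3, y4⟩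
    exact ⟨⟨C.sub_mem (C.mul_mem x1.1 y1.1) (C.mul_mem y1.1 x1.1),
        HC.Lc3.rat_bracket x1.2 y1.2⟩,
      fun i => ⟨HC.Lc3.rat_bracket (x2 i).1 (y2 i).1, SEB.Hl_aux.isU_br (x2 i).2 (y2 i).2⟩,
      fun i => ⟨HC.Lc3.rat_bracket (x3 i).1 (y3 i).1, SEB.Hl_aux.isU_br (x3 i).2 (y3 i).2⟩,
      G.lie.br _ x4 _ y4⟩
  · -- `i` is in the real span
    rw [decomp ((mulI A, JT R, JT J, mulI B) : E4 A R J B)]
    refine Submodule.add_mem _ (Submodule.add_mem _ (Submodule.add_mem _ ?_ ?_) ?_) ?_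
    · have e : Submodule.span ℝ MA ≤ (Submodule.span ℝ M).comap (c1 A R J B) :=
        Submodule.span_le.2 fun X hX => Submodule.subset_span (m1 X hX)
      exact e hMs
    · refine Submodule.sum_mem _ fun i _ => ?_
      have e : Submodule.span ℝ {X | RatEnd (R i) X ∧ IsU (D₁ i) X} ≤
          (Submodule.span ℝ M).comap (c2 A R J B i) :=
        Submodule.span_le.2 fun X hX => Submodule.subset_span (m2 i X hX)
      exact e (hHr (R i) (m₁ i) (D₁ i))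
    · refine Submodule.sum_mem _ fun i _ => ?_
      have e : Submodule.span ℝ {X | RatEnd (J i) X ∧ IsU (D i) X} ≤
          (Submodule.span ℝ M).comap (c3 A R J B i) :=
        Submodule.span_le.2 fun X hX => Submodule.subset_span (m3 i X hX)
      exact e (hHr (J i) (m i) (D i))
    · have e : Submodule.span ℝ G.s ≤ (Submodule.span ℝ M).comap (c4 A R J B) :=
        Submodule.span_le.2 fun X hX => Submodule.subset_span (m4 X hX)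
      exact e G.J
  · -- the kernel
    intro x hx hx0
    have s2 : ∀ i, x.2.1 i ∈ Submodule.span ℝ {X | RatEnd (R i) X ∧ IsU (D₁ i) X} := by
      intro i
      have e : Submodule.span ℝ M ≤ (Submodule.span ℝ {X | RatEnd (R i) X ∧ IsU (D₁ i) X}).comap
          (LinearMap.proj i ∘ₗ LinearMap.fst ℝ (Tup R) _ ∘ₗ LinearMap.snd ℝ _ _) :=
        Submodule.span_le.2 fun y hy => Submodule.subset_span (hy.2.1 i)
      exact e hx
    have s3 : ∀ i, x.2.2.1 i ∈ Submodule.span ℝ {X | RatEnd (J i) X ∧ IsU (D i) X} := by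
      intro i
      have e : Submodule.span ℝ M ≤ (Submodule.span ℝ {X | RatEnd (J i) X ∧ IsU (D i) X}).comap
          (LinearMap.proj i ∘ₗ LinearMap.fst ℝ (Tup J) _ ∘ₗ LinearMap.snd ℝ (Tup R) _ ∘ₗ
            LinearMap.snd ℝ _ _) :=
        Submodule.span_le.2 fun y hy => Submodule.subset_span (hy.2.2.1 i)
      exact e hx
    rw [decomp x, ker1 hx0, ker4 hx0, map_zero, map_zero, zero_add, add_zero]
    refine Submodule.add_mem _ (Submodule.sum_mem _ fun i _ => ?_)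
      (Submodule.sum_mem _ fun i _ => ?_)
    · by_cases hk : ∃ n, k n = i
      · obtain ⟨n, rfl⟩ := hk
        rw [ker2 hx0 n, map_zero]
        exact Submodule.zero_mem _
      · have hk' : ∀ n, k n ≠ i := fun n hn => hk ⟨n, hn⟩
        have e : Submodule.span ℝ {X | RatEnd (R i) X ∧ IsU (D₁ i) X} ≤
            (Submodule.span ℝ {y | y ∈ M ∧ OpL ψ y = 0}).comap (c2 A R J B i) :=
          Submodule.span_le.2 fun X hX => Submodule.subset_span ⟨m2 i X hX, Op_c2 ψ hk' X⟩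
        exact e (s2 i)
    · by_cases hk : ∃ n, j n = i
      · obtain ⟨n, rfl⟩ := hk
        rw [ker3 hx0 n, map_zero]
        exact Submodule.zero_mem _
      · have hk' : ∀ n, j n ≠ i := fun n hn => hk ⟨n, hn⟩
        have e : Submodule.span ℝ {X | RatEnd (J i) X ∧ IsU (D i) X} ≤
            (Submodule.span ℝ {y | y ∈ M ∧ OpL ψ y = 0}).comap (c3 A R J B i) :=
          Submodule.span_le.2 fun X hX => Submodule.subset_span ⟨m3 i X hX, Op_c3 ψ hk' X⟩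
        exact e (s3 i)
  · exact fun x hx y hy => hCc _ hx.1.1 _ hy.1.1
  · exact fun x hx i => hx.2.1 i
  · exact fun x hx i => hx.2.2.1 i
  · exact fun x hx => ⟨G.rat _ hx.2.2.2, hx.2.2.2⟩

end SER
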