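import Pool.Agent.Lib.SE.R.Spec2
import Pool.Agent.Lib.SE.W.Lie
import Pool.Agent.Lib.HC.L.E.All

/-!
# PROJECT SE-R, module Rg: regrouping (helper13)
-/

set_option autoImplicit false

open Module

noncomputable section

namespace SER

open HC HC.E HC.SE SEB SEQ SE

namespace Rg_aux

/-- `(X × Y) × Z ≅ (X × Z) × Y`. -/
def swp (X Y Z : Type) [AddCommGroup X] [AddCommGroup Y] [AddCommGroup Z]
    [Module ℂ X] [Module ℂ Y] [Module ℂ Z] : ((X × Y) × Z) ≃ₗ[ℂ] ((X × Z) × Y) where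
  toFun p := ((p.1.1, p.2), p.1.2)
  invFun p := ((p.1.1, p.2), p.1.2)
  map_add' _ _ := rfl
  map_smul' _ _ := rfl
  left_inv _ := rfl
  right_inv _ := rfl

theorem nmem {B : AV} {x : B.V} {m n : ℕ} (h : n • x ∈ B.L) : (m * n) • x ∈ B.L := by
  rw [mul_smul]
  exact nsmul_mem h m

theorem nmem' {B : AV} {x : B.V} {m n : ℕ} (h : m • x ∈ B.L) : (m * n) • x ∈ B.L := by
  rw [mul_comm]
  exact nmem h

end Rg_aux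

open Rg_aux

theorem tRg : S_Rg := by
  intro A Y B N₁ N₂ R E hA hE hY hB
  obtain ⟨ψY, hψY⟩ := hY
  obtain ⟨ψB, hψB⟩ := hB
  obtain ⟨T₀, θ₀, hθ₀⟩ := SE.Lie_aux.prodE N₂ A E
  have hT₀ : IsProdE T₀ A E := ⟨θ₀, fun v hv => ⟨1, one_ne_zero, by
    rw [one_smul]; exact ((hθ₀ v).1 hv).1, fun i => by rw [one_smul]; exact ((hθ₀ v).1 hv).2 i⟩⟩
  obtain ⟨A', B₂, hA', hB₂, ψ₀, hψ₀⟩ :=
    HC.E.tReg pL0 HC.E.tCMP HC.E.good_prod HC.E.tNul HC.G1.tG1 A T₀ N₂ E hA hE hT₀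
  obtain ⟨Y', θ', hθ'⟩ := SE.Lie_aux.prodE N₁ A' R
  refine ⟨A', Y', B₂, hA', hB₂, ⟨θ', fun v hv => ⟨1, one_ne_zero, by
    rw [one_smul]; exact ((hθ' v).1 hv).1, fun i => by rw [one_smul]; exact ((hθ' v).1 hv).2 i⟩⟩, ?_⟩
  let ψ : B.V ≃ₗ[ℂ] Y'.V × B₂.V :=
    ψB ≪≫ₗ (LinearEquiv.prodCongr ψY (LinearEquiv.refl ℂ _)) ≪≫ₗ swp _ _ _ ≪≫ₗ
      (LinearEquiv.prodCongr θ₀.symm (LinearEquiv.refl ℂ _)) ≪≫ₗ
      (LinearEquiv.prodCongr ψ₀ (LinearEquiv.refl ℂ _)) ≪≫ₗ swp _ _ _ ≪≫ₗ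
      (LinearEquiv.prodCongr θ'.symm (LinearEquiv.refl ℂ _))
  have e1 : ∀ v, (ψ v).1 = θ'.symm ((ψ₀ (θ₀.symm ((ψY (ψB v).1).1, (ψB v).2))).1,
      (ψY (ψB v).1).2) := fun v => rfl
  have e2 : ∀ v, (ψ v).2 = (ψ₀ (θ₀.symm ((ψY (ψB v).1).1, (ψB v).2))).2 := fun v => rfl
  refine ⟨ψ, fun v hv => ?_⟩
  obtain ⟨n1, hn1, h1, h2⟩ := hψB v hv
  obtain ⟨n2, hn2, h3, h4⟩ := hψY _ h1
  have h3' : (n2 * n1) • (ψY (ψB v).1).1 ∈ A.L := by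
    rw [mul_smul]
    have := h3
    rwa [map_nsmul] at this
  have h4' : ∀ i, (n2 * n1) • (ψY (ψB v).1).2 i ∈ (R i).L := by
    intro i
    rw [mul_smul]
    have := h4 i
    rwa [map_nsmul] at this
  have h5 : ∀ i, (n2 * n1) • (ψB v).2 i ∈ (E i).L := fun i => nmem (h2 i)
  have h6 : (n2 * n1) • θ₀.symm ((ψY (ψB v).1).1, (ψB v).2) ∈ T₀.L := by
    rw [hθ₀, map_nsmul, LinearEquiv.apply_symm_apply]
    exact ⟨h3', h5⟩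
  obtain ⟨n3, hn3, h7, h8⟩ := hψ₀ _ h6
  rw [map_nsmul] at h7 h8
  have h7' : (n3 * (n2 * n1)) • (ψ₀ (θ₀.symm ((ψY (ψB v).1).1, (ψB v).2))).1 ∈ A'.L := by
    rw [mul_smul]
    exact h7
  have h8' : (n3 * (n2 * n1)) • (ψ₀ (θ₀.symm ((ψY (ψB v).1).1, (ψB v).2))).2 ∈ B₂.L := by
    rw [mul_smul]
    exact h8
  refine ⟨n3 * (n2 * n1), mul_ne_zero hn3 (mul_ne_zero hn2 hn1), ?_, ?_⟩
  · rw [e1, hθ', map_nsmul, LinearEquiv.apply_symm_apply]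
    exact ⟨h7', fun i => nmem (h4' i)⟩
  · rw [e2]
    exact h8'

end SER
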