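import Pool.Agent.Lib.SE.R.Spec2
import Pool.Agent.Lib.HC.L.Ld
import Pool.Agent.Lib.HC.L.Lc3
import Pool.Agent.Lib.HC.L.E.All

/-!
# PROJECT SE-R, part 2: `ThR`, the theorem with real multiplication factors (helper73)
-/

set_option autoImplicit false

open Module

noncomputable section

namespace SER

open HC HC.E HC.SE SEB SEQ SE

namespace ThR_aux

/-- `(X × Z) × W ≅ (X × W) × Z` -/
def sw (X Z W : Type) [AddCommGroup X] [Module ℂ X] [AddCommGroup Z] [Module ℂ Z]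
    [AddCommGroup W] [Module ℂ W] : ((X × Z) × W) ≃ₗ[ℂ] ((X × W) × Z) where
  toFun p := ((p.1.1, p.2), p.1.2)
  invFun p := ((p.1.1, p.2), p.1.2)
  map_add' _ _ := rfl
  map_smul' _ _ := rfl
  left_inv _ := rfl
  right_inv _ := rfl

/-- `(i, 0)` kills a Hodge class if `(0, i)` does -/
theorem kill_fst {A B : AV} (P : Pd A B) {d : ℕ} (c : Hlg P.T d) (hc : IsHodge P.T d c)
    (h : ∀ X : Module.End ℝ P.T.V, (∀ v, P.ψ (X v) = (0, Complex.I • (P.ψ v).2)) →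
      ∀ a, lieAct X c a = 0) (X : Module.End ℝ P.T.V)
    (hX : ∀ v, P.ψ (X v) = (Complex.I • (P.ψ v).1, 0)) : ∀ a, lieAct X c a = 0 := by
  have h1 : mulI P.T ∈ Lc3.kill c := L.pLa P.T d c hc
  have h2 : mulI P.T - X ∈ Lc3.kill c := by
    refine h _ fun v => ?_
    have e1 : (mulI P.T - X) v = Complex.I • v - X v := rfl
    rw [e1, map_sub, map_smul, hX]
    refine Prod.ext ?_ ?_
    · exact sub_self _
    · exact sub_zero _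
  have h3 := (Lc3.kill c).sub_mem h1 h2
  rw [sub_sub_cancel] at h3
  exact h3

end ThR_aux

open ThR_aux in
theorem tThR : S_ThR := by
  intro hHl hLiR hThQ hLX hOp hHr hLiS hKu hTr hRg A Y B T q₁ N₁ N₂ q N R k m₁ D₁ F J j m D ψ
    hA hm₁ hm hDA₁ hDA hSU hLR hF hY hB hψ d c hc hS
  obtain ⟨A', Y', B₂, hA', hgood, hYA, ⟨χ, hχ⟩⟩ :=
    hRg A Y B N₁ N₂ (fun n => R (k n)) F hA hF hY hB
  obtain ⟨η, hη⟩ := id hYA
  obtain ⟨Y'', θ, hθ⟩ := Lie_aux.prodE N Y' (fun n => J (j n))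
  obtain ⟨P⟩ := pL0 Y'' B₂
  -- the isogeny
  let φ : T.V ≃ₗ[ℂ] P.T.V := ψ ≪≫ₗ (LinearEquiv.prodCongr χ (LinearEquiv.refl ℂ _)) ≪≫ₗ
    (sw _ _ _) ≪≫ₗ (LinearEquiv.prodCongr θ.symm (LinearEquiv.refl ℂ _)) ≪≫ₗ P.ψ.symm
  have hφ1 : ∀ v, P.ψ (φ v) = (θ.symm ((χ (ψ v).1).1, (ψ v).2), (χ (ψ v).1).2) := fun v => by
    change P.ψ (P.ψ.symm (θ.symm ((χ (ψ v).1).1, (ψ v).2), (χ (ψ v).1).2)) = _
    rw [LinearEquiv.apply_symm_apply]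
  have hφ2 : ∀ v, θ (P.ψ (φ v)).1 = ((χ (ψ v).1).1, (ψ v).2) := fun v => by
    rw [hφ1]
    exact LinearEquiv.apply_symm_apply θ _
  have hφL : ∀ v ∈ T.L, ∃ M : ℕ, M ≠ 0 ∧ M • φ v ∈ P.T.L := by
    intro v hv
    obtain ⟨k1, hk1, h1, h2⟩ := hψ v hv
    obtain ⟨k2, hk2, h3, h4⟩ := hχ _ h1
    refine ⟨k2 * k1, mul_ne_zero hk2 hk1, ?_⟩
    have e1 : (k2 * k1) • φ v = φ ((k2 * k1) • v) := (map_nsmul φ _ _).symm
    have e2 : χ (ψ ((k2 * k1) • v)).1 = k2 • χ (k1 • (ψ v).1) := by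
      rw [map_nsmul ψ, Prod.smul_fst, mul_smul, map_nsmul]
    rw [e1, P.lat, hθ, hφ2, hφ1, e2]
    refine ⟨⟨h3, fun n => ?_⟩, h4⟩
    have e3 : (ψ ((k2 * k1) • v)).2 n = k2 • (k1 • (ψ v).2 n) := by
      rw [map_nsmul ψ, mul_smul]
      rfl
    change (ψ ((k2 * k1) • v)).2 n ∈ _
    rw [e3]
    exact (J (j n)).L.smul_of_tower_mem _ (h2 n)
  obtain ⟨c', hc', hback, hkl⟩ := hTr (fun T m c => HC.SE.Alg2 T m c) cl_alg2 T P.T φ hφL d c hc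
  refine hback ?_
  -- the class is killed by the commutators
  have key : ∀ P₀ Q₀ : ∀ i, Module.End ℝ (J i).V, (∀ i, P₀ i ∈ Lef (J i) (D i).Z (D i).ψ) →
      (∀ i, Q₀ i ∈ Lef (J i) (D i).Z (D i).ψ) → ∀ X' : Module.End ℝ P.T.V,
      (∀ v, θ (P.ψ (X' v)).1 = (0, fun n => (P₀ * Q₀ - Q₀ * P₀) (j n) ((θ (P.ψ v).1).2 n))) →
      (∀ v, (P.ψ (X' v)).2 = 0) → ∀ a, lieAct X' c' a = 0 := by
    intro P₀ Q₀ hP₀ hQ₀ X' h1 h2
    let X : Module.End ℝ T.V := (φ.symm.toLinearMap.restrictScalars ℝ) ∘ₗ X' ∘ₗ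
      (φ.toLinearMap.restrictScalars ℝ)
    have hX : ∀ v, φ (X v) = X' (φ v) := fun v => LinearEquiv.apply_symm_apply φ _
    refine hkl X X' hX (hS P₀ Q₀ hP₀ hQ₀ X fun v => ?_)
    have e1 := hφ2 (X v)
    rw [hX, h1, hφ2] at e1
    have e2 := hφ1 (X v)
    rw [hX] at e2
    have e3 := congrArg Prod.snd e2
    rw [h2] at e3
    have e4 : (χ (ψ (X v)).1).1 = 0 := (congrArg Prod.fst e1).symm
    have e5 : χ (ψ (X v)).1 = 0 := Prod.ext e4 e3.symm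
    refine Prod.ext ?_ ?_
    · exact (LinearEquiv.map_eq_zero_iff χ).1 e5
    · exact (congrArg Prod.snd e1).symm
  -- the second circle
  let ψ₄ : P.T.V ≃ₗ[ℂ] ((A'.V × (∀ n, (R (k n)).V)) × (∀ n, (J (j n)).V)) × B₂.V :=
    P.ψ ≪≫ₗ (LinearEquiv.prodCongr (θ ≪≫ₗ (LinearEquiv.prodCongr η (LinearEquiv.refl ℂ _)))
      (LinearEquiv.refl ℂ _))
  have hψ₄ : ∀ v, ψ₄ v = ((η (θ (P.ψ v).1).1, (θ (P.ψ v).1).2), (P.ψ v).2) := fun v => rfl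
  have hsnd : ∀ X : Module.End ℝ P.T.V, (∀ v, P.ψ (X v) = (0, Complex.I • (P.ψ v).2)) →
      ∀ a, lieAct X c' a = 0 := by
    obtain ⟨ι, _, ⟨G⟩⟩ := id hgood
    intro X hX
    refine hLiS hLX hOp hHr L.pLa L.pLa' tLb L.tLc2 HC.E.tIsoInv A' P.T B₂ q₁ N₁ q N R k m₁ D₁ J j
      m D ι G ψ₄ hA' (hLR B₂ (HC.E.ssh_of_good B₂ hgood)) ?_ d c' hc' ?_ X ?_
    · intro v hv
      obtain ⟨h1, h2⟩ := (P.lat v).1 hv
      obtain ⟨h3, h4⟩ := (hθ _).1 h1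
      obtain ⟨M, hM, h5, h6⟩ := hη _ h3
      refine ⟨M, hM, ⟨⟨h5, h6⟩, fun n => ?_⟩, ?_⟩
      · exact (J (j n)).L.smul_of_tower_mem _ (h4 n)
      · exact B₂.L.smul_of_tower_mem _ h2
    · intro P₀ Q₀ hP₀ hQ₀ X' hX'
      have e0 : ∀ v, ψ₄ (X' v) = ((0, fun n => (P₀ * Q₀ - Q₀ * P₀) (j n) ((θ (P.ψ v).1).2 n)), 0) :=
        hX'
      refine key P₀ Q₀ hP₀ hQ₀ X' (fun v => ?_) fun v => ?_
      · have e1 : (η (θ (P.ψ (X' v)).1).1, (θ (P.ψ (X' v)).1).2) =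
            ((0, fun n => (P₀ * Q₀ - Q₀ * P₀) (j n) ((θ (P.ψ v).1).2 n)) :
              (A'.V × (∀ n, (R (k n)).V)) × (∀ n, (J (j n)).V)) := congrArg Prod.fst (e0 v)
        have e2 := congrArg Prod.fst e1
        have e3 := congrArg Prod.snd e1
        exact Prod.ext ((LinearEquiv.map_eq_zero_iff η).1 e2) e3
      · exact congrArg Prod.snd (e0 v)
    · intro v
      have e1 : ψ₄ (X v) = ((η (θ (P.ψ (X v)).1).1, (θ (P.ψ (X v)).1).2), (P.ψ (X v)).2) := rfl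
      rw [e1, hX]
      refine Prod.ext (Prod.ext ?_ ?_) rfl
      · change η (θ 0).1 = 0
        rw [map_zero θ]
        exact map_zero η
      · change (θ 0).2 = 0
        rw [map_zero θ]
        rfl
  have hinv := pLd Y'' B₂ P d c' ⟨kill_fst P c' hc' hsnd, hsnd⟩
  -- Kuenneth
  refine hKu (fun T m c => HC.SE.Alg2 T m c) cl_alg2 Y'' B₂ P
    {X | ∃ P₀ Q₀ : ∀ i, Module.End ℝ (J i).V, (∀ i, P₀ i ∈ Lef (J i) (D i).Z (D i).ψ) ∧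
      (∀ i, Q₀ i ∈ Lef (J i) (D i).Z (D i).ψ) ∧
      ∀ v, θ (X v) = (0, fun n => (P₀ * Q₀ - Q₀ * P₀) (j n) ((θ v).2 n))} d c' hc' hinv ?_ ?_ ?_
  · rintro X ⟨P₀, Q₀, hP₀, hQ₀, hX⟩ X' hX'
    refine key P₀ Q₀ hP₀ hQ₀ X' (fun v => ?_) fun v => ?_
    · rw [hX' v]
      exact hX _
    · rw [hX' v]
  · intro m' y hy hk
    refine hThQ hHl hLiR A' Y' Y'' q₁ N₁ q N R k m₁ D₁ J j m D θ hA' hm₁ hm hDA₁ hDA hSU hYA
      (fun v hv => ?_) m' y hy ?_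
    · obtain ⟨h1, h2⟩ := (hθ v).1 hv
      refine ⟨1, one_ne_zero, ?_, fun n => ?_⟩
      · rw [one_smul]
        exact h1
      · rw [one_smul]
        exact h2 n
    · intro P₀ Q₀ hP₀ hQ₀ X hX a
      exact hk X ⟨P₀, Q₀, hP₀, hQ₀, hX⟩ a
  · intro m' y hy
    exact HC.SE.Alg2.base (HC.E.hcj_of_good B₂ hgood m' y hy)

end SER
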