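import Pool.Agent.Lib.SE.R.Spec2
import Pool.Agent.Lib.HC.L.Lf

/-!
# PROJECT SE-R, module TrR: isogenies
-/

set_option autoImplicit false

open Module

noncomputable section

namespace SER

open HC HC.E HC.SE SEB SEQ SE

open LfAux in
theorem tTrR : S_TrR := by
  intro Q hQ T T' φ hφ m c hc
  obtain ⟨N, hN0, hN⟩ := unif φ.toLinearMap hφ
  have hNC : (N : ℂ) ≠ 0 := Nat.cast_ne_zero.2 hN0
  let f : T.V ≃ₗ[ℂ] T'.V := φ.trans (LinearEquiv.smulOfNeZero ℂ T'.V (N : ℂ) hNC)
  have hfa : ∀ v, f v = (N : ℂ) • φ v := fun v => rfl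
  have hf : ∀ v ∈ T.L, f v ∈ T'.L := by
    intro v hv
    rw [hfa, Nat.cast_smul_eq_nsmul]
    exact hN v hv
  obtain ⟨M, hM0, hM⟩ := LfAux.inv f hf
  have hMC : (M : ℂ) ≠ 0 := Nat.cast_ne_zero.2 hM0
  let e : T'.V →ₗ[ℂ] T.V := (M : ℂ) • f.symm.toLinearMap
  have he : ∀ v ∈ T'.L, e v ∈ T.L := by
    intro v hv
    obtain ⟨w, hw, hfw⟩ := hM v hv
    have h1 : e v = w := by
      show (M : ℂ) • f.symm v = w
      rw [← map_smul, Nat.cast_smul_eq_nsmul, ← hfw, LinearEquiv.symm_apply_apply]
    rw [h1]
    exact hw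
  -- the image is a Hodge class
  have h2 : IsHodge T' m (push f.toLinearMap c) := by
    refine ⟨fun a ha => ?_, fun u hu => ?_⟩
    · exact hc.1 (fun i => pull f.toLinearMap (a i)) fun i v hv => ha i (f v) (hf v hv)
    · have h3 : push (u • LinearMap.id) (push f.toLinearMap c) =
          push (T' := T') f.toLinearMap (push (u • LinearMap.id) c) := by
        ext a
        show c (fun i => pull f.toLinearMap (pull (u • LinearMap.id) (a i))) =
          c (fun i => pull (u • LinearMap.id) (pull f.toLinearMap (a i)))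
        congr 1
        funext i
        ext v
        show a i (u • f v) = a i (f (u • v))
        rw [f.map_smul]
      rw [h3, hc.2 u hu]
  refine ⟨push f.toLinearMap c, h2, fun hq => ?_, fun X X' hX h0 a => ?_⟩
  · have h4 : Q T m (push e (push (T' := T') f.toLinearMap c)) := hQ.push e he hq
    have h5 : push e (push (T' := T') f.toLinearMap c) = ((M : ℂ) ^ m) • c := by
      ext a
      show c (fun i => pull f.toLinearMap (pull e (a i))) = ((M : ℂ) ^ m) • c a
      have h6 : (fun i => pull f.toLinearMap (pull e (a i))) = fun i => (M : ℂ) • a i := by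
        funext i
        ext v
        show a i ((M : ℂ) • f.symm (f v)) = (M : ℂ) • a i v
        rw [LinearEquiv.symm_apply_apply, Nat.cast_smul_eq_nsmul, map_nsmul,
          Nat.cast_smul_eq_nsmul]
      rw [h6, AlternatingMap.map_smul_univ]
      simp
    have h7 : c = ((M : ℂ) ^ m)⁻¹ • push e (push (T' := T') f.toLinearMap c) := by
      rw [h5, smul_smul, inv_mul_cancel₀ (pow_ne_zero _ hMC), one_smul]
    rw [h7]
    exact hQ.smul _ h4
  · rw [← h0 fun i => pull f.toLinearMap (a i)]
    unfold lieAct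
    refine Finset.sum_congr rfl fun i _ => ?_
    show c (fun k => pull f.toLinearMap (Function.update a i (a i ∘ₗ X') k)) = _
    congr 1
    funext k
    by_cases hk : k = i
    · subst hk
      rw [Function.update_self, Function.update_self]
      ext v
      show a k (X' (f v)) = a k (f (X v))
      rw [hfa, hfa, hX, Nat.cast_smul_eq_nsmul, Nat.cast_smul_eq_nsmul, map_nsmul]
    · rw [Function.update_of_ne hk, Function.update_of_ne hk]

end SER
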