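import Pool.Agent.Lib.SE.R.Spec2
import Pool.Agent.Lib.SE.Big.Dim
import Pool.Agent.Lib.SE.Big.Bas
import Pool.Agent.Lib.SE.Big.Pj
import Pool.Agent.Lib.SE.Big.Tw

/-!
# PROJECT SE-R, module P2: a character with `2 ≤ p s` (helper10)
-/

set_option autoImplicit false

open Module

noncomputable section

namespace SER

open HC HC.E HC.SE SEB SEQ SE

namespace P2_aux

/-- The signature of a Jacobian with `r = 2` at the trivial character. -/
theorem sg_two {m : ℕ} (hm : 5 ≤ m) : sg m 2 (fun _ => 1) 1 = 2 := by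
  unfold sg
  have h1 : (Finset.univ.filter fun i : Fin 2 =>
      m * (i : ℕ) + ∑ _j : Fin (2 + 1), (1 * 1) % m < m * 2) = Finset.univ := by
    refine Finset.filter_true_of_mem fun i _ => ?_
    have h2 : (1 * 1) % m = 1 := Nat.mod_eq_of_lt (by omega)
    rw [h2, Finset.sum_const, Finset.card_univ, Fintype.card_fin, smul_eq_mul, mul_one]
    have h3 : m * (i : ℕ) ≤ m * 1 := Nat.mul_le_mul_left m (by omega)
    omega
  rw [h1, Finset.card_univ, Fintype.card_fin]

end P2_aux

open P2_aux in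
theorem tP2 : S_P2 := by
  intro T m r D hG hK
  obtain ⟨s, hs⟩ := hG.one
  obtain ⟨_, d2⟩ := tDim tPj tTw (tBas tPj) T m r D hG.hm hG.dim s
  have hr := hG.hr
  rcases Nat.lt_or_ge r 3 with h3 | h3
  · have hr2 : r = 2 := by omega
    subst hr2
    rcases hK with ⟨_, hK⟩ | ⟨_, hm, hK⟩
    · omega
    · refine ⟨1, ?_⟩
      have h1 : ((1 : (ZMod m)ˣ) : ZMod m).val = 1 := by
        have : Fact (1 < m) := ⟨by omega⟩
        rw [Units.val_one, ZMod.val_one]
      rw [hK 1, h1, sg_two hm]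
  · refine ⟨-s, ?_⟩
    omega

end SER
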