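import Pool.Agent.Lib.SE.R.LAll
import Pool.Agent.Lib.SE.R.LX
import Pool.Agent.Lib.SE.R.Op4
import Pool.Agent.Lib.SE.R.KuR
import Pool.Agent.Lib.SE.R.TrR
import Pool.Agent.Lib.SE.R.Hr
import Pool.Agent.Lib.SE.R.Rg
import Pool.Agent.Lib.SE.R.ThR
import Pool.Agent.Lib.SE.R.P2
import Pool.Agent.Lib.SE.R.Spl
import Pool.Agent.Lib.SE.R.LiS
import Pool.Agent.Lib.SE.Q.All

/-!
# PROJECT SE-R: the final theorem with real multiplication factors (real branch points), without hypotheses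
-/

set_option autoImplicit false

open Module HC HC.E HC.SE SEB SEQ SE

noncomputable section

namespace SER

/-- **THE FINAL THEOREM with real multiplication factors.** -/
theorem fin3 : Fin3 :=
  fin3_of tGg tM0 tRep tCp tHlT tLiR tThQ HC.E.tIsoInv tSpl tP2
    (htf_of s_PP (tHtT tPrT) (tRbT tClT))
    (suf_of (htf_of s_PP (tHtT tPrT) (tRbT tClT)) (tFiT tReT)) lrf
    (fun _ _ _ _ h1 h2 => SEP.hasDA s_da SEP.s_DAB h1 h2) tLX tOp4 tHr tLiS tKuR tTrR tRg tThR

end SER
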