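import Pool.Agent.Lib.SE.R.Spec
import Pool.Agent.Lib.SE.Q.SpecD

/-!
# PROJECT SE-R, part 2: Hodge classes; the final theorem with real multiplication factors (helper59)

`R i`, `i < q₁`, are the good factors, `J i`, `i < q`, new Jacobians or of Picard type, `E n` factors with
real multiplication. The classes are killed by the `su(H_1(J_i))`.

Every module: file `SE/R/Xyz.lean`, `theorem tXyz : S_Xyz`, import only `Pool.Agent.Lib.SE.R.Spec2` (and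
modules of other projects which you need or want to copy from). The hypotheses `S_A → S_B →` are
part of the statement.
-/

set_option autoImplicit false

open Module

noncomputable section

namespace SER

open HC HC.E HC.SE SEB SEQ SE

/-- **Hr**: `i` is a real combination of rational elements of `u_E`. PROOF. `SEB.tHl` (SE/Big/Hl.lean) for
`h₀ = {X | RatEnd T X}` (closed under commutators; `mulI T` is in its real span by `HC.L.tLc1`,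
HC/L/Lc1.lean): `h` with `HLie D h`. -/
def S_Hr : Prop :=
  ∀ (T : AV) (m : ℕ) (D : Cyc T m), mulI T ∈ Submodule.span ℝ {X | RatEnd T X ∧ IsU D X}

/-- **LX**: THE HODGE LIE ALGEBRA, abstractly: `E` an algebra of real operators on `T` (`Θ`), `M` a
`ℚ`-Lie algebra of rational elements with `i` in its real span. PROOF. `h = {x ∈ M | Θ x kills c}`, closed
by `S_La'`. `S_Lb` for `J = mulI T = Θ i₀` and the set `Θ '' M`: `J = ∑ ρ_s Z_s`, `Z_s` in the additive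
closure of the rational multiples of `Θ '' M`, which is `Θ '' M`; `Z_s = Θ x_s`, `x_s ∈ M`, and `Z_s`
kills `c` (`S_La`), so `x_s ∈ h`. `i₀ - ∑ ρ_s x_s` is in the real span of `M` and in `ker Θ`, so in the real
span of `{y ∈ M | Θ y = 0} ⊆ h`. The last statement: linearity of `X ↦ lieAct X c a` (`Lc3.kill`,
HC/L/Lc3.lean, is a submodule) and `S_La'`. -/
def S_LX : Prop :=
  S_La → S_La' → S_Lb →
  ∀ (T : AV) (E : Type) [Ring E] [Algebra ℝ E] (Θ : E →ₗ[ℝ] Module.End ℝ T.V) (M : Set E) (i₀ : E),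
    (∀ x y, Θ (x * y - y * x) = Θ x * Θ y - Θ y * Θ x) → (∀ x ∈ M, RatEnd T (Θ x)) →
    (0 : E) ∈ M → (∀ x ∈ M, ∀ y ∈ M, x + y ∈ M) → (∀ z : ℚ, ∀ x ∈ M, (z : ℝ) • x ∈ M) →
    (∀ x ∈ M, ∀ y ∈ M, x * y - y * x ∈ M) → i₀ ∈ Submodule.span ℝ M → Θ i₀ = mulI T →
    (∀ x ∈ Submodule.span ℝ M, Θ x = 0 → x ∈ Submodule.span ℝ {y | y ∈ M ∧ Θ y = 0}) →
    ∀ (d : ℕ) (c : Hlg T d), IsHodge T d c → ∃ h : Set E, h ⊆ M ∧ (0 : E) ∈ h ∧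
      (∀ x ∈ h, ∀ y ∈ h, x + y ∈ h) ∧ (∀ z : ℚ, ∀ x ∈ h, (z : ℝ) • x ∈ h) ∧
      (∀ x ∈ h, ∀ y ∈ h, x * y - y * x ∈ h) ∧ i₀ ∈ Submodule.span ℝ h ∧
      ∀ x ∈ Submodule.span ℝ {z | ∃ x ∈ h, ∃ y ∈ h, z = x * y - y * x}, ∀ a, lieAct (Θ x) c a = 0

/-- The operators of `T ≅ ((A × ∏ R_(k n)) × ∏ J_(j n)) × B`. -/
abbrev E4 {q₁ q : ℕ} (A : AV) (R : Fin q₁ → AV) (J : Fin q → AV) (B : AV) : Type :=
  Module.End ℝ A.V × Tup R × Tup J × Module.End ℝ B.V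

/-- The operator of `x : E4 A R J B`, and a `ℚ`-Lie algebra `M` of rational elements. -/
structure Op4 {A T B : AV} {q₁ N₁ q N : ℕ} {R : Fin q₁ → AV} {k : Fin N₁ → Fin q₁}
    {m₁ : Fin q₁ → ℕ} (D₁ : ∀ i, Cyc (R i) (m₁ i)) {J : Fin q → AV} {j : Fin N → Fin q}
    {m : Fin q → ℕ} (D : ∀ i, Cyc (J i) (m i)) {ι : Type} (G : GC B ι)
    (ψ : T.V ≃ₗ[ℂ] ((A.V × (∀ n, (R (k n)).V)) × (∀ n, (J (j n)).V)) × B.V)
    (Θ : E4 A R J B →ₗ[ℝ] Module.End ℝ T.V) (M : Set (E4 A R J B)) : Prop where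
  app : ∀ x v, ψ (Θ x v) = (((x.1 (ψ v).1.1.1, fun n => x.2.1 (k n) ((ψ v).1.1.2 n)),
    fun n => x.2.2.1 (j n) ((ψ v).1.2 n)), x.2.2.2 (ψ v).2)
  lie : ∀ x y, Θ (x * y - y * x) = Θ x * Θ y - Θ y * Θ x
  rat : ∀ x ∈ M, RatEnd T (Θ x)
  zero : (0 : E4 A R J B) ∈ M
  add : ∀ x ∈ M, ∀ y ∈ M, x + y ∈ M
  smul : ∀ z : ℚ, ∀ x ∈ M, (z : ℝ) • x ∈ M
  br : ∀ x ∈ M, ∀ y ∈ M, x * y - y * x ∈ M
  iM : ((mulI A, JT R, JT J, mulI B) : E4 A R J B) ∈ Submodule.span ℝ M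
  iT : Θ (mulI A, JT R, JT J, mulI B) = mulI T
  ker : ∀ x ∈ Submodule.span ℝ M, Θ x = 0 → x ∈ Submodule.span ℝ {y | y ∈ M ∧ Θ y = 0}
  com : ∀ x ∈ M, ∀ y ∈ M, x.1 * y.1 = y.1 * x.1
  cR : ∀ x ∈ M, ∀ i, RatEnd (R i) (x.2.1 i) ∧ IsU (D₁ i) (x.2.1 i)
  cJ : ∀ x ∈ M, ∀ i, RatEnd (J i) (x.2.2.1 i) ∧ IsU (D i) (x.2.2.1 i)
  cB : ∀ x ∈ M, RatEnd B x.2.2.2 ∧ x.2.2.2 ∈ G.s

/-- **Op4**: THE OPERATORS. PROOF. `MA` from `S_Lc2`, `C` its double centralizer as in SE/W/Lie.lean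
(commutative, contains `MA`). `Θ` as `EE`, `EL` there. `M` = the `(x, r, p, b)`: `x ∈ C` rational, `r i`,
`p i` rational in `u_i` (`isU_zero`, `isU_add`, `isU_smul`, `isU_br` in SE/Big/Hl.lean), `b ∈ G.s`. `rat`: as
`rat_EE` there (`S_IsoInv` and a copy of the product, `prodE`). `iM`: component by component: `S_Lc2`,
`S_Hr`, `G.J`. `ker`: `Θ x = 0` means `x.1 = 0`, `x.2.2.2 = 0`, `x.2.1 i = 0` for `i` in the range of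
`k`, `x.2.2.1 i = 0` for `i` in the range of `j` (`Pi.single` vectors); the other components are real
combinations of rational elements of `u_i` (projection of the span of `M`), and these elements
(with one component only, outside of the ranges) are in `{y ∈ M | Θ y = 0}`. -/
def S_Op4 : Prop :=
  S_Hr → S_Lc2 → E.S_IsoInv →
  ∀ (A T B : AV) (q₁ N₁ q N : ℕ) (R : Fin q₁ → AV) (k : Fin N₁ → Fin q₁) (m₁ : Fin q₁ → ℕ)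
    (D₁ : ∀ i, Cyc (R i) (m₁ i)) (J : Fin q → AV) (j : Fin N → Fin q) (m : Fin q → ℕ)
    (D : ∀ i, Cyc (J i) (m i)) (ι : Type) (G : GC B ι)
    (ψ : T.V ≃ₗ[ℂ] ((A.V × (∀ n, (R (k n)).V)) × (∀ n, (J (j n)).V)) × B.V), IsCM A →
    (∀ v ∈ T.L, ∃ z : ℕ, z ≠ 0 ∧ ((z • (ψ v).1.1.1 ∈ A.L ∧ ∀ n, z • (ψ v).1.1.2 n ∈ (R (k n)).L) ∧
      ∀ n, z • (ψ v).1.2 n ∈ (J (j n)).L) ∧ z • (ψ v).2 ∈ B.L) →
    ∃ Θ M, Op4 D₁ D G ψ Θ M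

/-- **LiS**: THE LIE ALGEBRA STEP. PROOF. `Θ`, `M` from `S_Op4`; `S_LX`: `h ⊆ M`. The image `h'` of `h` in
`Tup R × End B` is an `HLieR D₁ G`. `LR`: `(0, mulI B)` is in the real span of `ComR h'`: there is `W` in
the real span of the commutators of `h` with `R`-component `0` and `B`-component `mulI B`; its
`A`-component is `0` (`com`), its component at `J i` is in the real span of the commutators of elements
of `Lef (J i)` (`cJ`; `Lef` is `IsU`). `Θ W` kills `c`. `Θ (0, 0, W.2.2.1, 0)` kills `c` by the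
hypothesis (it is a sum over `i` of real combinations of the `Θ (0, 0, [P, Q], 0)`,
`P = Pi.single i P_i`, `Q = Pi.single i Q_i`; the operators which kill `c` are a submodule,
`Lc3.kill`, HC/L/Lc3.lean). So `Θ (0, 0, 0, mulI B)` kills `c`, and this is `X` (`app`). -/
def S_LiS : Prop :=
  S_LX → S_Op4 → S_Hr → S_La → S_La' → S_Lb → S_Lc2 → E.S_IsoInv →
  ∀ (A T B : AV) (q₁ N₁ q N : ℕ) (R : Fin q₁ → AV) (k : Fin N₁ → Fin q₁) (m₁ : Fin q₁ → ℕ)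
    (D₁ : ∀ i, Cyc (R i) (m₁ i)) (J : Fin q → AV) (j : Fin N → Fin q) (m : Fin q → ℕ)
    (D : ∀ i, Cyc (J i) (m i)) (ι : Type) (_ : GC B ι)
    (ψ : T.V ≃ₗ[ℂ] ((A.V × (∀ n, (R (k n)).V)) × (∀ n, (J (j n)).V)) × B.V), IsCM A → LR D₁ B →
    (∀ v ∈ T.L, ∃ z : ℕ, z ≠ 0 ∧ ((z • (ψ v).1.1.1 ∈ A.L ∧ ∀ n, z • (ψ v).1.1.2 n ∈ (R (k n)).L) ∧
      ∀ n, z • (ψ v).1.2 n ∈ (J (j n)).L) ∧ z • (ψ v).2 ∈ B.L) →
    ∀ (d : ℕ) (c : Hlg T d), IsHodge T d c →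
    (∀ P Q : ∀ i, Module.End ℝ (J i).V, (∀ i, P i ∈ Lef (J i) (D i).Z (D i).ψ) →
      (∀ i, Q i ∈ Lef (J i) (D i).Z (D i).ψ) → ∀ X : Module.End ℝ T.V,
      (∀ v, ψ (X v) = ((0, fun n => (P * Q - Q * P) (j n) ((ψ v).1.2 n)), 0)) →
      ∀ a, lieAct X c a = 0) →
    ∀ X : Module.End ℝ T.V, (∀ v, ψ (X v) = (0, Complex.I • (ψ v).2)) → ∀ a, lieAct X c a = 0

/-- **KuR**: KUENNETH for a class `Q` with the closure properties, for classes killed by a set `𝒳` of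
operators of `A`. PROOF. As `S_Le` (HC/L/Le.lean, theorem `tLe`: copy it and replace `Alg` by `Q`; `Cl`
gives `push`, `pont`, `add`, `smul`; zero: `Alg.zero`, `base`; `alg_domDomCongr` for `Q`:
`-c = (-1) • c`). The classes `hR R` of `A` there are killed by `X ∈ 𝒳`: with the operator `X' = (X, 0)`
of `P.T`: `(a_i ∘ X) ∘ pA = (a_i ∘ pA) ∘ X'` and `(b ∘ pB) ∘ X' = 0`, so `lieAct X (hR R) a` is
`lieAct X' c` of the 1-forms `a_i ∘ pA`, `b_(R j) ∘ pB`. -/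
def S_KuR : Prop :=
  ∀ (Q : (T : AV) → (m : ℕ) → Hlg T m → Prop), Cl Q →
    ∀ (A B : AV) (P : Pd A B) (𝒳 : Set (Module.End ℝ A.V)) (m : ℕ) (c : Hlg P.T m),
    IsHodge P.T m c →
    (∀ (u w : ℂ), ‖u‖ = 1 → ‖w‖ = 1 → ∀ φ : P.T.V →ₗ[ℂ] P.T.V,
      (∀ v, P.ψ (φ v) = (u • (P.ψ v).1, w • (P.ψ v).2)) → push (T' := P.T) φ c = c) →
    (∀ X ∈ 𝒳, ∀ X' : Module.End ℝ P.T.V, (∀ v, P.ψ (X' v) = (X (P.ψ v).1, 0)) →
      ∀ a, lieAct X' c a = 0) →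
    (∀ (m : ℕ) (y : Hlg A m), IsHodge A m y → (∀ X ∈ 𝒳, ∀ a, lieAct X y a = 0) → Q A m y) →
    (∀ (m : ℕ) (y : Hlg B m), IsHodge B m y → Q B m y) → Q P.T m c

/-- **TrR**: ISOGENIES. PROOF. As `pLf` (HC/L/Lf.lean): `c' = push f c`, `f = N φ` integral;
`push e c' = M ^ m • c`. `lieAct X' (push f c) a = lieAct X c (a_i ∘ f)` as `X' ∘ f = f ∘ X`. -/
def S_TrR : Prop :=
  ∀ (Q : (T : AV) → (m : ℕ) → Hlg T m → Prop), Cl Q →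
    ∀ (T T' : AV) (φ : T.V ≃ₗ[ℂ] T'.V), (∀ v ∈ T.L, ∃ N : ℕ, N ≠ 0 ∧ N • φ v ∈ T'.L) →
    ∀ (m : ℕ) (c : Hlg T m), IsHodge T m c → ∃ c' : Hlg T' m, IsHodge T' m c' ∧
      (Q T' m c' → Q T m c) ∧
      ∀ (X : Module.End ℝ T.V) (X' : Module.End ℝ T'.V), (∀ v, φ (X v) = X' (φ v)) →
        (∀ a, lieAct X c a = 0) → ∀ a, lieAct X' c' a = 0

/-- **Rg**: REGROUPING. PROOF. `T₀` a copy of `A × ∏ E_n` (`prodE` in SE/W/Lie.lean). `E.tReg` as used in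
HC/L/E/All.lean (`E.tReg pL0 E.tCMP E.good_prod E.tNul G1.tG1`; import it): `T₀` is isogenous to
`A' × B₂`, `A'` of CM type, `B₂` good. `Y'` a copy of `A' × ∏ R_n`. The isomorphism
`B.V ≅ Y.V × ∏ E ≅ (A.V × ∏ R) × ∏ E ≅ (A.V × ∏ E) × ∏ R ≅ T₀.V × ∏ R ≅ (A'.V × B₂.V) × ∏ R ≅
(A'.V × ∏ R) × B₂.V ≅ Y'.V × B₂.V`, denominators multiplied. -/
def S_Rg : Prop :=
  ∀ (A Y B : AV) (N₁ N₂ : ℕ) (R : Fin N₁ → AV) (E : Fin N₂ → AV), IsCM A → (∀ n, IsRM (E n)) →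
    IsProdE Y A R → IsProdE B Y E →
    ∃ A' Y' B₂ : AV, IsCM A' ∧ Good B₂ ∧ IsProdE Y' A' R ∧ IsProd B Y' B₂

/-- **Spl**: SPLITTING OF THE FACTORS. PROOF. `S` = the set of the `n` with `P₁ (G n)`; `N₁`, `N₂` the
cardinalities of `S` and of its complement, `G₁`, `G₂` by the enumerations `Fintype.equivFin`;
`Y` a copy of `A × ∏ G₁` (`prodE` in SE/W/Lie.lean). -/
def S_Spl : Prop :=
  ∀ (P₁ P₂ : AV → Prop) (A B : AV) (N : ℕ) (G : Fin N → AV), (∀ n, P₁ (G n) ∨ P₂ (G n)) →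
    IsProdE B A G → ∃ (Y : AV) (N₁ N₂ : ℕ) (G₁ : Fin N₁ → AV) (G₂ : Fin N₂ → AV),
      (∀ n, P₁ (G₁ n)) ∧ (∀ n, P₂ (G₂ n)) ∧ IsProdE Y A G₁ ∧ IsProdE B Y G₂

/-- **P2**: a character with `2 ≤ p s`. PROOF. `SEB.S_Dim` (SE/Big/Dim.lean): `p s + p (-s) = r`. If
`3 ≤ r`: `-s` with `p s = 1`. If `r = 2` then `m` is a prime `≥ 5` (`Kd`) and
`p 1 = sg m 2 (fun _ => 1) 1 = #{i < 2 | m i + 3 < 2 m} = 2` (`(1 : (ZMod m)ˣ)` has `val = 1`; unfold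
`sg`). -/
def S_P2 : Prop :=
  ∀ (T : AV) (m r : ℕ) (D : Cyc T m), GF1 D r → Kd D r → ∃ s, 2 ≤ D.p s

/-- **ThR**: THE THEOREM WITH REAL MULTIPLICATION. PROOF. `S_Rg`: `A'`, `Y'`, `B₂`. `Y''` a copy of
`Y' × ∏ J_(j n)` (`prodE` in SE/W/Lie.lean), `P : Pd Y'' B₂` (`pL0`); `T` is isogenous to `P.T`:
`T.V ≅ B.V × ∏ J ≅ (Y'.V × B₂.V) × ∏ J ≅ (Y'.V × ∏ J) × B₂.V ≅ Y''.V × B₂.V ≅ P.T.V`. `S_TrR`: a Hodge
class `c'` of `P.T`, killed by the commutators of the `Lef (J i)`, acting on `Y''` only. `S_LiS` for `P.T` and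
`P.T.V ≅ Y''.V × B₂.V ≅ (Y'.V × ∏ J) × B₂.V ≅ ((A'.V × ∏ R) × ∏ J) × B₂.V`: `(0, i)` kills `c'`
(`SSH B₂` by `E.ssh_of_good`, HC/L/E/All.lean; `Good B₂` gives the `GC`), so `(i, 0)` does (`HC.L.pLa`,
difference with `mulI`); `S_Ld` (`HC/L/Ld.lean`): `c'` is invariant under both circles. `S_KuR` with
`𝒳` = the commutators of the families `Lef (J i)` acting on `Y''` through `Y''.V ≅ Y'.V × ∏ J`; for `Y''`:
`S_ThQ` with `T := Y''`, `B := Y'` (`dact` and `lieAct` are the same); for `B₂`: `E.hcj_of_good`,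
`Alg2.base`. -/
def S_ThR : Prop :=
  S_HlT → S_LiR → S_ThQ → S_LX → S_Op4 → S_Hr → S_LiS → S_KuR → S_TrR → S_Rg →
  ∀ (A Y B T : AV) (q₁ N₁ N₂ q N : ℕ) (R : Fin q₁ → AV) (k : Fin N₁ → Fin q₁)
    (m₁ : Fin q₁ → ℕ) (D₁ : ∀ i, Cyc (R i) (m₁ i)) (E : Fin N₂ → AV) (J : Fin q → AV)
    (j : Fin N → Fin q) (m : Fin q → ℕ) (D : ∀ i, Cyc (J i) (m i))
    (ψ : T.V ≃ₗ[ℂ] B.V × (∀ n, (J (j n)).V)),
    IsCM A → (∀ i, 3 ≤ m₁ i) → (∀ i, 3 ≤ m i) →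
    (∀ i, HasDA (fun T m c => HC.SE.Alg2 T m c) (m₁ i) (R i) (D₁ i).Z (D₁ i).ψ) →
    (∀ i, HasDA (fun T m c => HC.SE.Alg2 T m c) (m i) (J i) (D i).Z (D i).ψ) →
    (∀ h, HLieT D₁ h → ∀ X : Tup R, (∀ i, IsSU (D₁ i) (X i)) → X ∈ Submodule.span ℝ (ComT h)) →
    (∀ B₂ : AV, SSH B₂ → LR D₁ B₂) → (∀ n, IsRM (E n)) →
    IsProdE Y A (fun n => R (k n)) → IsProdE B Y E →
    (∀ v ∈ T.L, ∃ k : ℕ, k ≠ 0 ∧ k • (ψ v).1 ∈ B.L ∧ ∀ n, k • (ψ v).2 n ∈ (J (j n)).L) →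
    ∀ (d : ℕ) (c : Hlg T d), IsHodge T d c →
    HC.SE.SUK (fun i => (D i).Z) (fun i => (D i).ψ) ψ c → HC.SE.Alg2 T d c

/-- **THE FINAL THEOREM with real multiplication.** -/
def Fin3 : Prop :=
  ∃ M : ℕ → (r : ℕ) → Set (Fin (r + 1) → ℝ), (∀ p r, IsMeagre (M p r)) ∧
  ∀ (A B T : AV) (N' : ℕ) (G : Fin N' → AV), IsCM A → (∀ n, Gd M (G n) ∨ IsRM (G n)) →
  IsProdE B A G →
  ∀ (q N : ℕ) (J : Fin q → AV) (j : Fin N → Fin q) (m : Fin q → ℕ)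
    (Z : ∀ i, Module.End ℂ (J i).V) (E : ∀ i, (J i).V →ₗ[ℝ] (J i).V →ₗ[ℝ] ℝ)
    (ψ : T.V ≃ₗ[ℂ] B.V × (∀ n, (J (j n)).V)),
    (∀ i, Fct (J i) (m i) (Z i)) → (∀ i, IsPol (J i) (Z i) (E i)) →
    (∀ v ∈ T.L, ∃ k : ℕ, k ≠ 0 ∧ k • (ψ v).1 ∈ B.L ∧ ∀ n, k • (ψ v).2 n ∈ (J (j n)).L) →
    ∀ (d : ℕ) (c : Hlg T d), IsHodge T d c → SUK Z E ψ c → Alg2 T d c

end SER
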