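import Pool.Agent.Lib.SE.R.Spec2
import Pool.Agent.Lib.SE.Q.Fn

/-!
# PROJECT SE-R, module Fn3: assembly of the final theorem
-/

set_option autoImplicit false

open Module

noncomputable section

namespace SER

open HC HC.E HC.SE SEB SEQ SE

/-- Families of pairwise non isogenous good factors hit everything. -/
def HTF : Prop :=
  ∀ (q : ℕ) (T : Fin q → AV) (m r : Fin q → ℕ) (D : ∀ i, Cyc (T i) (m i)),
    (∀ i, GF1 (D i) (r i)) → (∀ i j, i ≠ j → Cpt (D i) (D j) (r i) (r j)) →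
    (∀ i j, i ≠ j → ¬ Isg (T i) (T j)) → HT D

/-- They are independent. -/
def SUF : Prop :=
  ∀ (q : ℕ) (T : Fin q → AV) (m r : Fin q → ℕ) (D : ∀ i, Cyc (T i) (m i)),
    (∀ i, GF1 (D i) (r i)) → (∀ i j, i ≠ j → Cpt (D i) (D j) (r i) (r j)) →
    (∀ i j, i ≠ j → ¬ Isg (T i) (T j)) → ∀ h, HLieT D h → ∀ X : Tup T,
    (∀ i, IsSU (D i) (X i)) → X ∈ Submodule.span ℝ (ComT h)

/-- The Lie algebra part. -/
def LRF : Prop :=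
  ∀ (q : ℕ) (T : Fin q → AV) (m : Fin q → ℕ) (D : ∀ i, Cyc (T i) (m i)), (∀ i, 3 ≤ m i) →
    HT D → (∀ i, ∃ s, 2 ≤ (D i).p s) → ∀ B : AV, SSH B → LR D B

/-- Determinant classes. -/
def DAF : Prop :=
  ∀ (J : AV) (m : ℕ) (Z : Module.End ℂ J.V) (R : J.V →ₗ[ℝ] J.V →ₗ[ℝ] ℝ),
    Fct J m Z → IsPol J Z R → HasDA (fun T m c => HC.SE.Alg2 T m c) m J Z R

theorem htf_of (hPP : PP) (hHt : S_HtT) (hRb : S_RbT) : HTF := by
  intro q T m r D hG hC hI h hh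
  have hm : ∀ i, 3 ≤ m i := fun i => (hG i).hm
  obtain ⟨h1, h2⟩ := hHt q T m D hm (fun i => (hG i).hit)
    (fun i j hij h hh s t => hPP (T i) (T j) (m i) (m j) (r i) (r j) (D i) (D j) (hG i) (hG j)
      (hC i j hij) (hI i j hij) h hh s t) h hh
  exact hRb q T m D hm h hh h1 h2

theorem suf_of (hT : HTF) (hFi : S_FiT) : SUF := by
  intro q T m r D hG hC hI h hh X hX
  exact hFi q T m D (fun i => (hG i).hm) h hh (hT q T m r D hG hC hI h hh) X hX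

theorem lrf_of (h1 : S_Nab) (h2 : S_Sim) (h3 : S_Nsc) (h4 : S_PjR) (h5 : S_ClR) (h6 : S_Cmt)
    (h7 : S_Non) (h8 : S_Rt) (h9 : S_Idn) (h10 : S_IdA) (h11 : S_ReR) (h12 : S_SuR)
    (h13 : S_JB) : LRF := by
  intro q T m D hm hT hp B hB
  exact lr_of h1 h2 h3 h4 h5 h6 h7 h8 h9 h10 h11 h12 h13 q T m D hm hT hp B hB

open SEQ.Fn_aux in
/-- **THE FINAL THEOREM with real multiplication**, assembly. -/
theorem fin3_of (hGg : S_Gg) (hM0 : S_M0) (hRep : S_Rep) (hCp : S_Cp) (hHl : S_HlT)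
    (hLi : SEQ.S_LiR) (hTh : S_ThQ) (hInv : E.S_IsoInv) (hSpl : S_Spl) (hP2 : S_P2) (hHT : HTF)
    (hSU : SUF) (hLR : LRF) (hDA : DAF) (hLX : S_LX) (hOp : S_Op4) (hHr : S_Hr) (hLS : S_LiS)
    (hKu : S_KuR) (hTr : S_TrR) (hRg : S_Rg) (hThR : S_ThR) : Fin3 := by
  refine ⟨M₀, hM0, ?_⟩
  intro A B T N' G hA hG hB q N J j m Z E ψ hF hE hψ d c hc hS
  obtain ⟨Y, N₁', N₂, G₁, G₂, hG1, hG2, hY, hBY⟩ := hSpl (Gd M₀) IsRM A B N' G hG hB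
  obtain ⟨A', q₁, N₁, R, k, hA', hR, hne, hYR⟩ := hRep hInv
    (fun G => ∃ (m r : ℕ) (D : Cyc G m), GF1 D r ∧ Kd D r ∧
      (IsPic G m D.Z ∨ ∃ (s : Fin (r + 1) → ℂ) (N : New G m s fun _ => 1),
        N.Z = D.Z ∧ IsCov m s fun _ => 1)) A Y N₁' G₁ hA (fun n => hGg (G₁ n) (hG1 n)) hY
  choose m₁ r₁ D₁ h1 h2 h3 using hR
  have hFR : ∀ i, Fct (R i) (m₁ i) (D₁ i).Z := fun i => by
    rcases h3 i with h | ⟨s, N, hN, hc⟩
    · exact Or.inr h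
    · exact Or.inl ⟨r₁ i, s, fun _ => 1, N, hc, hN⟩
  choose D hDZ hDψ using fun i => cyc_fct (hF i) (hE i)
  obtain rfl : (fun i => (D i).Z) = Z := funext hDZ
  obtain rfl : (fun i => (D i).ψ) = E := funext hDψ
  have hC : ∀ i i', i ≠ i' → Cpt (D₁ i) (D₁ i') (r₁ i) (r₁ i') := fun i i' _ =>
    hCp _ _ _ _ _ _ _ _ (h1 i) (h1 i') (h2 i) (h2 i')
  have hm1 : ∀ i, 3 ≤ m₁ i := fun i => (h1 i).hm
  exact hThR hHl hLi hTh hLX hOp hHr hLS hKu hTr hRg A' Y B T q₁ N₁ N₂ q N R k m₁ D₁ G₂ J j m D ψ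
    hA' hm1 (fun i => fct_three (hF i)) (fun i => hDA _ _ _ _ (hFR i) (isPol_cyc (D₁ i)))
    (fun i => hDA _ _ _ _ (hF i) (hE i)) (hSU q₁ R m₁ r₁ D₁ h1 hC hne)
    (fun B₂ hB₂ => hLR q₁ R m₁ D₁ hm1 (hHT q₁ R m₁ r₁ D₁ h1 hC hne)
      (fun i => hP2 _ _ _ _ (h1 i) (h2 i)) B₂ hB₂)
    hG2 hYR hBY hψ d c hc hS

end SER
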