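import Pool.Agent.Lib.SE.Q.Defs
import Pool.Agent.Lib.SE.W.Defs

/-!
# PROJECT SE-R: real multiplication factors (helper59)

`T i`, `i < q`: good factors with `D i : Cyc (T i) (m i)` (SE/Q/Defs); `B` a good abelian variety in
the sense of `HC.E.Good` (a product of non CM factors with real multiplication), with coordinates
`G : GC B ι` (HC/L/E/Spec). It is proved that the Hodge Lie algebra of `∏ T i × B` contains
`∏ su(T i) × 0` and `(0, i_B)`, if the one of `∏ T i` contains `∏ su(T i)` and every `T i` has a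
character with `2 ≤ p s`. So the Hodge classes of `A × ∏ T i × B` are products.

Every module: file `SE/R/Xyz.lean`, `theorem tXyz : S_Xyz`, import only `Pool.Agent.Lib.SE.R.Spec` and the
modules of SE/Big, SE/Q named in the docstring (or which you want to copy from). The hypotheses
`S_A → S_B →` are part of the statement.
-/

set_option autoImplicit false

open Module

noncomputable section

namespace SER

open HC HC.E HC.SE SEB SEQ

variable {q : ℕ} {T : Fin q → AV} {m : Fin q → ℕ} {B : AV} {ι : Type}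

/-- A tuple of real endomorphisms and a real endomorphism of `B`. -/
abbrev TB (T : Fin q → AV) (B : AV) : Type := Tup T × Module.End ℝ B.V

/-- The commutators. -/
def ComR (h : Set (TB T B)) : Set (TB T B) := {Y | ∃ X ∈ h, ∃ X' ∈ h, Y = X * X' - X' * X}

/-- A `ℚ`-Lie algebra of rational elements of `∏ u_i × G.s` whose real span contains `i`. -/
structure HLieR (D : ∀ i, Cyc (T i) (m i)) (G : GC B ι) (h : Set (TB T B)) : Prop where
  rat : ∀ X ∈ h, (∀ i, RatEnd (T i) (X.1 i)) ∧ RatEnd B X.2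
  u : ∀ X ∈ h, ∀ i, IsU (D i) (X.1 i)
  op : ∀ X ∈ h, X.2 ∈ G.s
  zero : (0 : TB T B) ∈ h
  add : ∀ X ∈ h, ∀ Y ∈ h, X + Y ∈ h
  smul : ∀ x : ℚ, ∀ X ∈ h, (x : ℝ) • X ∈ h
  br : ∀ X ∈ h, ∀ Y ∈ h, X * Y - Y * X ∈ h
  J : ((JT T, mulI B) : TB T B) ∈ Submodule.span ℝ h

/-- Operators on the forms. -/
abbrev CB (T : Fin q → AV) (B : AV) : Type :=
  (∀ i, Module.End ℂ (Frm (T i))) × Module.End ℂ (Frm B)

/-- The action on the forms. -/
def preR (X : TB T B) : CB T B := (fun i => pre (X.1 i), pre X.2)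

/-- Complex combinations of commutators. -/
def ggR (h : Set (TB T B)) : Submodule ℂ (CB T B) := Submodule.span ℂ (preR '' ComR h)

/-- The Lie algebras of `∏ T i` hit everything (conclusion of `SEQ.S_RbT`). -/
def HT (D : ∀ i, Cyc (T i) (m i)) : Prop :=
  ∀ h, HLieT D h → ∀ F : Set (Ch m), (∀ x ∈ F, neg x ∉ F) → HitsT D h F

/-- A rational element of `h` which lives on `T i` only (and is a real combination of
commutators). -/
def Only (h : Set (TB T B)) (i : Fin q) : Prop :=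
  ∃ Y ∈ h, Y ∈ Submodule.span ℝ (ComR h) ∧ Y.2 = 0 ∧ (∀ k, k ≠ i → Y.1 k = 0) ∧ Y.1 i ≠ 0

/-- The elements of `ggR h` with `B`-component `0` hit everything in `F`. -/
def Hits0 (D : ∀ i, Cyc (T i) (m i)) (h : Set (TB T B)) (F : Set (Ch m)) : Prop :=
  ∀ A : ∀ x, Module.End ℂ (WT D x), (∀ x, LinearMap.trace ℂ (WT D x) (A x) = 0) →
    ∃ C ∈ ggR h, C.2 = 0 ∧
      ∀ x ∈ F, ∀ a : WT D x, C.1 x.1 (a : Frm (T x.1)) = (A x a : Frm (T x.1))

/-! ## Linear algebra -/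

/-- **Nab**: a complex structure with an eigenspace of dimension at least 2 has a non commutative
derived centralizer. PROOF. `e₁, e₂` linearly independent with `J e_a = i e_a`; linear functions `f_a`
with `f_a e_b = δ_ab`; `φ_a = f_a ∘ (1 - i J) / 2`: `φ_a e_b = δ_ab`, `φ_a ∘ J = i φ_a`.
`X = φ₂(·) e₁`, `Y = φ₁(·) e₂` commute with `J`, have trace `φ₂ e₁ = φ₁ e₂ = 0`, and
`(X Y - Y X) e₁ = e₁`. -/
def S_Nab : Prop :=
  ∀ (W : Type) [AddCommGroup W] [Module ℂ W] [FiniteDimensional ℂ W] (J : Module.End ℂ W),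
    J * J = -1 → ∀ e : Fin 2 → W, LinearIndependent ℂ e → (∀ a, J (e a) = Complex.I • e a) →
    ∃ X Y : Module.End ℂ W, LinearMap.trace ℂ W X = 0 ∧ LinearMap.trace ℂ W Y = 0 ∧
      X * J = J * X ∧ Y * J = J * Y ∧ X * Y - Y * X ≠ 0

/-- **Sim**: `sl(W)` is simple. From `SEB.S_Gou` (SE/Big/Gou.lean, `tGou`). PROOF. `S_Gou` for `W' = W`
and `P = {(x, y) | tr x = 0, tr y = 0, x - y ∈ N}`: closed under commutators
(`[x,x'] - [y,y'] = [x - y, x'] + [y, x' - y']`), both projections are onto (`(x, x) ∈ P`). If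
`P` contains all pairs of traceless operators: `(x, 0) ∈ P`, `x ∈ N`. Otherwise `(n, 0) ∈ P`
with `0 ≠ n ∈ N` is a contradiction. -/
def S_Sim : Prop :=
  ∀ (W : Type) [AddCommGroup W] [Module ℂ W] [FiniteDimensional ℂ W]
    (N : Submodule ℂ (Module.End ℂ W)), (∀ x ∈ N, LinearMap.trace ℂ W x = 0) →
    (∀ x ∈ N, ∀ y : Module.End ℂ W, LinearMap.trace ℂ W y = 0 → y * x - x * y ∈ N) →
    (∃ x ∈ N, x ≠ 0) → ∀ x : Module.End ℂ W, LinearMap.trace ℂ W x = 0 → x ∈ N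

/-- **Nsc**: a traceless operator `y ≠ 0` does not commute with all traceless operators. PROOF. If it
commutes with all traceless `x`, it commutes with all `x` (`x = (x - (tr x / d)) + tr x / d`,
`d = dim W ≠ 0` as `y ≠ 0`), so it is a scalar (for `v` and `f v = 1`, `x = f(·) w`: `y w = f (y v) w`),
of trace `0`, so `0`. -/
def S_Nsc : Prop :=
  ∀ (W : Type) [AddCommGroup W] [Module ℂ W] [FiniteDimensional ℂ W] (y : Module.End ℂ W),
    LinearMap.trace ℂ W y = 0 → y ≠ 0 →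
    ∃ x : Module.End ℂ W, LinearMap.trace ℂ W x = 0 ∧ x * y - y * x ≠ 0

/-! ## The Lie algebra -/

/-- **PjR**: PROJECTION to the tuples. PROOF. Directly (images of spans, `Submodule.span_image`). -/
def S_PjR : Prop :=
  ∀ (q : ℕ) (T : Fin q → AV) (m : Fin q → ℕ) (D : ∀ i, Cyc (T i) (m i)) (B : AV) (ι : Type)
    (G : GC B ι) (h : Set (TB T B)), HLieR D G h →
    HLieT D (Prod.fst '' h) ∧ (∀ C ∈ ggT (Prod.fst '' h), ∃ C' ∈ ggR h, C'.1 = C) ∧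
    ∀ C ∈ ggR h, C.1 ∈ ggT (Prod.fst '' h)

/-- **ClR**: (1) `ggR h` is closed under commutators, (2) also with `i`; so (3) it contains
`C - J C J`. (4) `preR Y ∈ ggR h` for `Y` in the real span of the commutators. PROOF. (1), (2) as `S_Cl`
(SE/Big/Cl.lean; the lemmas in `Cl_aux`): `[h,h] ⊆ h`, `[X,[Y,Z]] ∈ ComR h`; `preR` is linear and reverses
products. (3) `J * J = -1`, so `[J,[J,C]] = -2 C - 2 J C J` and `C - J C J = 2 C + [J,[J,C]] / 2`.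
(4) `preR` is real linear. -/
def S_ClR : Prop :=
  ∀ (q : ℕ) (T : Fin q → AV) (m : Fin q → ℕ) (D : ∀ i, Cyc (T i) (m i)) (B : AV) (ι : Type)
    (G : GC B ι) (h : Set (TB T B)), HLieR D G h →
    (∀ C ∈ ggR h, ∀ C' ∈ ggR h, C * C' - C' * C ∈ ggR h) ∧
    (∀ C ∈ ggR h, preR (JT T, mulI B) * C - C * preR (JT T, mulI B) ∈ ggR h) ∧
    (∀ C ∈ ggR h, C - preR (JT T, mulI B) * C * preR (JT T, mulI B) ∈ ggR h) ∧
    ∀ Y ∈ Submodule.span ℝ (ComR h), preR Y ∈ ggR h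

/-- **Cmt**: THE `B`-COMPONENTS. The elements of `G.s` act by `z ↦ α_i I z + β_i z̄` in the
coordinates; the part commuting with `i` has `β = 0`, and these operators commute with each other.
PROOF. Let `J = pre (mulI B)` and `Φ C = C - J C J` (complex linear). For `Y ∈ G.s`:
`Φ (pre Y) = pre Y'`, `Y' = Y - mulI * Y * mulI`, `ψ (Y' v) i = 2 α_i I ψ v i` (`G.op`). So `Φ (pre Y)`,
`Φ (pre Z)` commute for `Y, Z ∈ G.s`; by linearity (`Submodule.span_induction` twice) `Φ C`, `Φ C'`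
commute for `C`, `C'` in the complex span of `pre '' G.s`. -/
def S_Cmt : Prop :=
  ∀ (B : AV) (ι : Type) (G : GC B ι), ∀ C ∈ Submodule.span ℂ (pre '' G.s),
    ∀ C' ∈ Submodule.span ℂ (pre '' G.s),
    (C - pre (mulI B) * C * pre (mulI B)) * (C' - pre (mulI B) * C' * pre (mulI B)) =
      (C' - pre (mulI B) * C' * pre (mulI B)) * (C - pre (mulI B) * C * pre (mulI B))

/-- **Non**: AN ELEMENT WHICH LIVES ON `T i` ONLY. From `S_Nab`, `S_PjR`, `S_ClR`, `S_Cmt`.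
PROOF. `2 ≤ p s`. `F` = the set of `(i, s)` and of the `(k, t)`, `k ≠ i`, with `(t : ZMod _).val < (-t).val`:
for `x ∈ F` `neg x ∉ F`, and for `k ≠ i` one of `(k, t)`, `(k, -t)` is in `F` (`t ≠ -t` as `3 ≤ m k`).
`J = pre (mulI (T i))` preserves `Ws (D i) s` (`mulI` commutes with `Z`), it is multiplication by `i` on
`Ws10 (D i) s`, of dimension `p s ≥ 2`: `S_Nab` gives traceless `X₁, X₂` on `Ws (D i) s`, commuting with
`J`, `[X₁, X₂] ≠ 0`. `HT` and `S_PjR`: `C_a ∈ ggR h` with `C_a.1 i = X_a` on `Ws (D i) s` and `0` on the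
eigenspaces of the other elements of `F`. By `SEQ.tLn` (SE/Q/Ln.lean; `C_a.1 k ∈ gg` of the projection
of `h` to the component `k`, an `HLie (D k)`) `C_a.1 k = 0` on all eigenspaces of `T k`, `k ≠ i`, so
`C_a.1 k = 0`
(`SEB.S_Bas`, `tBas tPj`). `C'_a = C_a - J C_a J ∈ ggR h` (`S_ClR`): `C'_a.1 k = 0` for `k ≠ i`;
`C'_a.1 i = X_a - J X_a J = 2 X_a` on `Ws (D i) s` (`J² = -1`). `C_a.2` is in the complex span of
`pre '' G.s` (`ComR h ⊆ h`, `op`). `N = [C'_1, C'_2]`: `N.2 = 0` by `S_Cmt`, `N.1 k = 0` for `k ≠ i`,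
`N.1 i = 4 [X₁, X₂] ≠ 0` on `Ws (D i) s`. -/
def S_Non : Prop :=
  S_Nab → S_PjR → S_ClR → S_Cmt →
  ∀ (q : ℕ) (T : Fin q → AV) (m : Fin q → ℕ) (D : ∀ i, Cyc (T i) (m i)), (∀ i, 3 ≤ m i) → HT D →
    ∀ (B : AV) (ι : Type) (G : GC B ι) (h : Set (TB T B)), HLieR D G h →
    ∀ i, (∃ s, 2 ≤ (D i).p s) → ∃ N ∈ ggR h, N.2 = 0 ∧ (∀ k, k ≠ i → N.1 k = 0) ∧ N.1 i ≠ 0

/-- **Rt**: RATIONAL COMPONENTS. PROOF. `N = ∑_j c_j preR (Y_j)`, `Y_j ∈ ComR h ⊆ h`. Let `λ_t` be a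
basis of the `ℚ`-span of the `c_j`, `c_j = ∑_t q_jt λ_t`, `Y'_t = ∑_j q_jt Y_j ∈ h` (also in the
real span of `ComR h`): `N = ∑_t λ_t preR (Y'_t)`. If `N.1 k = 0`: for `v ∈ (T k).L` and a form `b` with
rational values on `(T k).L`: `∑_t λ_t b (Y'_t.1 k v) = 0`, rational coefficients, so
`b (Y'_t.1 k v) = 0`; these `b` span the forms and `L` spans the space over `ℝ`, so `Y'_t.1 k = 0`.
The same for `B`. Some `Y'_t.1 i ≠ 0` as `N.1 i ≠ 0`. (Compare SE/Big/RatSp.lean.) -/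
def S_Rt : Prop :=
  ∀ (q : ℕ) (T : Fin q → AV) (m : Fin q → ℕ) (D : ∀ i, Cyc (T i) (m i)) (B : AV) (ι : Type)
    (G : GC B ι) (h : Set (TB T B)), HLieR D G h → ∀ i,
    (∃ N ∈ ggR h, N.2 = 0 ∧ (∀ k, k ≠ i → N.1 k = 0) ∧ N.1 i ≠ 0) → Only h i

/-- **Idn**: A NONZERO OPERATOR AT EVERY CHARACTER. From `S_Nsc`, `S_PjR`, `S_ClR`. PROOF. `Y` as in
`Only h i`, `y = pre (Y.1 i)`. `y ≠ 0` on `Ws (D i) s`: otherwise `SEB.S_LI` (SE/Big/LI.lean; `n = 1`,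
`c = 1`) gives `y = 0` on `Ws (D i) (ρ s)` for all `ρ` (`c' ≠ 0`), so `y = 0` (`SEB.S_Bas`),
`Y.1 i = 0` (`pre` is injective). `preR Y ∈ ggR h` (`S_ClR` (4)), so `y` is traceless on `Ws (D i) s`
(`SEB.S_Cl` for the component `i`). `S_Nsc`: `x` traceless, `[x, y] ≠ 0` on `Ws (D i) s`. `HT`, `S_PjR`:
`C ∈ ggR h` with `C.1 i = x` on `Ws (D i) s` and `0` on the other eigenspaces in `F`.
`N = [C, preR Y] ∈ ggR h`: `N.2 = 0`, `N.1 k = 0` for `k ≠ i`, `N.1 i = [x, y] ≠ 0` on `Ws (D i) s`,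
`N.1 i = 0` on `Ws (D i) t`, `(i,t) ∈ F`, `t ≠ s` (`y` preserves `Ws (D i) t`). -/
def S_Idn : Prop :=
  S_Nsc → S_PjR → S_ClR →
  ∀ (q : ℕ) (T : Fin q → AV) (m : Fin q → ℕ) (D : ∀ i, Cyc (T i) (m i)), (∀ i, 3 ≤ m i) → HT D →
    ∀ (B : AV) (ι : Type) (G : GC B ι) (h : Set (TB T B)), HLieR D G h → (∀ i, Only h i) →
    ∀ F : Set (Ch m), (∀ x ∈ F, neg x ∉ F) → ∀ x ∈ F,
    ∃ N ∈ ggR h, N.2 = 0 ∧ (∀ z ∈ F, z ≠ x → ∀ a ∈ WT D z, N.1 z.1 a = 0) ∧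
      ∃ a ∈ WT D x, N.1 x.1 a ≠ 0

/-- **IdA**: EVERYTHING IS HIT WITH `B`-COMPONENT `0`. From `S_Sim`, `S_PjR`, `S_ClR` and the
conclusion of `S_Idn`. PROOF. For `x ∈ F` let `𝒩` be the set of the operators `A` of `WT D x` induced by
some `N ∈ ggR h` with `N.2 = 0` and `N.1 z.1 = 0` on `WT D z` for `z ∈ F`, `z ≠ x`: traceless
(`SEB.S_Cl` for the component), stable under `[y, ·]` for traceless `y` (`HT`, `S_PjR`: `C ∈ ggR h` equal to
`y` on `WT D x` and to `0` on the other `WT D z`, `z ∈ F`; `[C, N]`), and nonzero. `S_Sim`: `𝒩 = sl`. Sum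
over `x ∈ F` (finitely many characters). -/
def S_IdA : Prop :=
  S_Sim → S_PjR → S_ClR →
  ∀ (q : ℕ) (T : Fin q → AV) (m : Fin q → ℕ) (D : ∀ i, Cyc (T i) (m i)), (∀ i, 3 ≤ m i) → HT D →
    ∀ (B : AV) (ι : Type) (G : GC B ι) (h : Set (TB T B)), HLieR D G h →
    ∀ F : Set (Ch m), (∀ x ∈ F, neg x ∉ F) →
    (∀ x ∈ F, ∃ N ∈ ggR h, N.2 = 0 ∧ (∀ z ∈ F, z ≠ x → ∀ a ∈ WT D z, N.1 z.1 a = 0) ∧
      ∃ a ∈ WT D x, N.1 x.1 a ≠ 0) → Hits0 D h F

/-- **ReR**: REAL FORM. PROOF. As `S_Real` (SE/Big/Real.lean; lemmas `comb`, `isU_span`, `key` in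
`Real_aux`). `C = preR P + i preR Q` with `P`, `Q` in the real span of `Y₀` (as `Real_aux.comb`).
`C.2 = 0`: `b (P.2 v) + i b (Q.2 v) = 0` for all forms `b`, real valued `b` give `P.2 = 0`. For `k < q`:
`C.1 k = pre (X k)` on `Ws (D k) s` for `(k,s) ∈ F`, so (`Real_aux.key` for `P.1 k - X k`, `Q.1 k`) on
all eigenspaces, so everywhere; real valued forms: `P.1 k = X k`. So `(X, 0) = P`. -/
def S_ReR : Prop :=
  ∀ (q : ℕ) (T : Fin q → AV) (m : Fin q → ℕ) (D : ∀ i, Cyc (T i) (m i)), (∀ i, 3 ≤ m i) →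
    ∀ (B : AV) (Y₀ : Set (TB T B)) (X : Tup T), (∀ Y ∈ Y₀, ∀ i, IsU (D i) (Y.1 i)) →
    (∀ i, IsU (D i) (X i)) → ∀ F : Set (Ch m), (∀ x, x ∈ F ∨ neg x ∈ F) →
    ∀ C ∈ Submodule.span ℂ (preR '' Y₀), C.2 = 0 →
    (∀ x ∈ F, ∀ a ∈ WT D x, C.1 x.1 a = pre (X x.1) a) →
    ((X, 0) : TB T B) ∈ Submodule.span ℝ Y₀

/-- **SuR**: `∏ su_i × 0`. From `S_ReR` and `Hits0` for all half systems. PROOF. A half system `F` with
`x ∈ F` or `neg x ∈ F` for all `x`, not both (`3 ≤ m i`). `SEB.S_Tr` (SE/Big/Tr.lean, `tTr`) for the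
components: `pre (X i)` induces a traceless operator on every eigenspace; `Hits0`; `S_ReR`. -/
def S_SuR : Prop :=
  S_ReR →
  ∀ (q : ℕ) (T : Fin q → AV) (m : Fin q → ℕ) (D : ∀ i, Cyc (T i) (m i)), (∀ i, 3 ≤ m i) →
    ∀ (B : AV) (ι : Type) (G : GC B ι) (h : Set (TB T B)), HLieR D G h →
    (∀ F : Set (Ch m), (∀ x ∈ F, neg x ∉ F) → Hits0 D h F) →
    ∀ X : Tup T, (∀ i, IsSU (D i) (X i)) → ((X, 0) : TB T B) ∈ Submodule.span ℝ (ComR h)

/-- **JB**: `(0, i_B)`. PROOF. `Prod.snd '' h` is a set of rational endomorphisms of `B` closed under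
commutators with `mulI B` in its real span. `SSH B`: `mulI B` is a real combination of commutators
`[x.2, x'.2]`, `x, x' ∈ h`; `[x, x'] ∈ ComR h`, and `([x.1, x'.1], 0)` is in the real span of `ComR h` by
hypothesis (`isSU_comm` in SE/Big/ToBig.lean, `Lef` = `IsU`). Subtract. -/
def S_JB : Prop :=
  ∀ (q : ℕ) (T : Fin q → AV) (m : Fin q → ℕ) (D : ∀ i, Cyc (T i) (m i)) (B : AV) (ι : Type)
    (G : GC B ι) (h : Set (TB T B)), HLieR D G h → SSH B →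
    (∀ X : Tup T, (∀ i, IsSU (D i) (X i)) → ((X, 0) : TB T B) ∈ Submodule.span ℝ (ComR h)) →
    ((0, mulI B) : TB T B) ∈ Submodule.span ℝ (ComR h)

/-- The result of the Lie algebra part. -/
def LR (D : ∀ i, Cyc (T i) (m i)) (B : AV) : Prop :=
  ∀ (ι : Type) (G : GC B ι) (h : Set (TB T B)), HLieR D G h →
    ((0, mulI B) : TB T B) ∈ Submodule.span ℝ (ComR h)

/-- The Lie algebra part. -/
theorem lr_of (h1 : S_Nab) (h2 : S_Sim) (h3 : S_Nsc) (h4 : S_PjR) (h5 : S_ClR) (h6 : S_Cmt)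
    (h7 : S_Non) (h8 : S_Rt) (h9 : S_Idn) (h10 : S_IdA) (h11 : S_ReR) (h12 : S_SuR) (h13 : S_JB)
    (q : ℕ) (T : Fin q → AV) (m : Fin q → ℕ) (D : ∀ i, Cyc (T i) (m i)) (hm : ∀ i, 3 ≤ m i)
    (hT : HT D) (hp : ∀ i, ∃ s, 2 ≤ (D i).p s) (B : AV) (hB : SSH B) : LR D B := by
  intro ι G h hh
  have a1 : ∀ i, Only h i := fun i =>
    h8 q T m D B ι G h hh i (h7 h1 h4 h5 h6 q T m D hm hT B ι G h hh i (hp i))
  have a2 : ∀ F : Set (Ch m), (∀ x ∈ F, neg x ∉ F) → Hits0 D h F := fun F hF =>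
    h10 h2 h4 h5 q T m D hm hT B ι G h hh F hF
      (h9 h3 h4 h5 q T m D hm hT B ι G h hh a1 F hF)
  exact h13 q T m D B ι G h hh hB (h12 h11 q T m D hm B ι G h hh a2)

end SER
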